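import Mathlib
import Pool.Agent.H437R2.Man.MWWeak

/-!
# Project JL: the theorem of Mordell and Weil for `y² + D y = x³` over a number field
-/

set_option autoImplicit false
set_option linter.unusedVariables false
set_option linter.unusedSectionVars false

namespace Pool.Agent.D0H50.JL

open WeierstrassCurve Polynomial

section shift

variable {L : Type} [Field L] [DecidableEq L]

/-- `y² + D y = x³` -/
def cD (D : L) : WeierstrassCurve L := ⟨0, 0, D, 0, 0⟩

/-- `y² = x³ + b` -/
def cB (b : L) : WeierstrassCurve L := ⟨0, 0, 0, 0, b⟩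

variable [CharZero L]

lemma two_ne' : (2 : L) ≠ 0 := by norm_num

lemma ns_cD {D x y : L} (hD : D ≠ 0) : (cD D).toAffine.Nonsingular x y ↔ y ^ 2 + D * y = x ^ 3 := by
  constructor
  · intro h
    have h1 := (Affine.equation_iff _ _).1 h.1
    simp only [cD] at h1
    linear_combination h1
  · intro h
    rw [Affine.nonsingular_iff, Affine.equation_iff]
    simp only [cD]
    refine ⟨by linear_combination h, ?_⟩
    by_contra hc
    push Not at hc
    obtain ⟨h1, h2⟩ := hc
    have h3 : x ^ 2 = 0 := by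
      have h4 : (3 : L) * x ^ 2 = 0 := by linear_combination -h1
      rcases mul_eq_zero.1 h4 with h5 | h5
      · norm_num at h5
      · exact h5
    have hx : x = 0 := pow_eq_zero_iff two_ne_zero |>.1 h3
    have h4 : 2 * y = -D := by linear_combination h2
    subst hx
    have h5 : D ^ 2 = 0 := by
      linear_combination (-4) * h + (2 * y + D) * h4
    exact hD (pow_eq_zero_iff two_ne_zero |>.1 h5)

lemma ns_cB {b x y : L} (hb : b ≠ 0) : (cB b).toAffine.Nonsingular x y ↔ y ^ 2 = x ^ 3 + b := by
  constructor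
  · intro h
    have h1 := (Affine.equation_iff _ _).1 h.1
    simp only [cB] at h1
    linear_combination h1
  · intro h
    rw [Affine.nonsingular_iff, Affine.equation_iff]
    simp only [cB]
    refine ⟨by linear_combination h, ?_⟩
    by_contra hc
    push Not at hc
    obtain ⟨h1, h2⟩ := hc
    have h3 : x ^ 2 = 0 := by
      have h4 : (3 : L) * x ^ 2 = 0 := by linear_combination -h1
      rcases mul_eq_zero.1 h4 with h5 | h5
      · norm_num at h5
      · exact h5
    have hx : x = 0 := pow_eq_zero_iff two_ne_zero |>.1 h3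
    have h4 : y = 0 := by
      have h5 : 2 * y = 0 := by linear_combination h2
      rcases mul_eq_zero.1 h5 with h6 | h6
      · norm_num at h6
      · exact h6
    subst hx
    subst h4
    exact hb (by linear_combination -h)

lemma b_ne {D : L} (hD : D ≠ 0) : D ^ 2 / 4 ≠ 0 := div_ne_zero (pow_ne_zero 2 hD) (by norm_num)

lemma ns_sh {D x y : L} (hD : D ≠ 0) (h : (cD D).toAffine.Nonsingular x y) :
    (cB (D ^ 2 / 4)).toAffine.Nonsingular x (y + D / 2) := by
  rw [ns_cB (b_ne hD)]
  rw [ns_cD hD] at h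
  linear_combination h

/-- the shift of `y` -/
noncomputable def sh {D : L} (hD : D ≠ 0) :
    (cD D).toAffine.Point → (cB (D ^ 2 / 4)).toAffine.Point
  | 0 => 0
  | .some x y h => .some x (y + D / 2) (ns_sh hD h)

lemma sh_some {D : L} (hD : D ≠ 0) {x y : L} (h : (cD D).toAffine.Nonsingular x y) :
    sh hD (.some x y h) = .some x (y + D / 2) (ns_sh hD h) := rfl

lemma sh_zero {D : L} (hD : D ≠ 0) : sh hD 0 = 0 := rfl

lemma pt_ext' {W : WeierstrassCurve L} {x y x' y' : L} (h : W.toAffine.Nonsingular x y)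
    (h' : W.toAffine.Nonsingular x' y') (hx : x = x') (hy : y = y') :
    (Affine.Point.some x y h : W.toAffine.Point) = .some x' y' h' := by
  subst hx hy
  rfl

lemma sh_add {D : L} (hD : D ≠ 0) (P Q : (cD D).toAffine.Point) :
    sh hD (P + Q) = sh hD P + sh hD Q := by
  rcases P with _ | ⟨x₁, y₁, h₁⟩
  · change sh hD (0 + Q) = sh hD 0 + sh hD Q
    rw [zero_add, sh_zero, zero_add]
  rcases Q with _ | ⟨x₂, y₂, h₂⟩
  · change sh hD (_ + 0) = _ + sh hD 0
    rw [add_zero, sh_zero, add_zero]
  have hn : ∀ x y : L, (cD D).toAffine.negY x y = -y - D := by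
    intro x y
    simp [Affine.negY, cD]
  have hn' : ∀ x y : L, (cB (D ^ 2 / 4)).toAffine.negY x y = -y := by
    intro x y
    simp [Affine.negY, cB]
  rw [sh_some, sh_some]
  by_cases hxy : x₁ = x₂ ∧ y₁ = (cD D).toAffine.negY x₂ y₂
  · obtain ⟨hx, hy⟩ := hxy
    rw [Affine.Point.add_of_Y_eq hx hy, sh_zero, Affine.Point.add_of_Y_eq hx]
    rw [hn', hy, hn]
    ring
  · have hxy' : ¬ (x₁ = x₂ ∧ y₁ + D / 2 = (cB (D ^ 2 / 4)).toAffine.negY x₂ (y₂ + D / 2)) := by
      rintro ⟨hx, hy⟩
      apply hxy
      refine ⟨hx, ?_⟩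
      rw [hn'] at hy
      rw [hn]
      linear_combination hy
    rw [Affine.Point.add_some hxy, sh_some, Affine.Point.add_some hxy']
    have hsl : (cB (D ^ 2 / 4)).toAffine.slope x₁ x₂ (y₁ + D / 2) (y₂ + D / 2) =
        (cD D).toAffine.slope x₁ x₂ y₁ y₂ := by
      by_cases hx : x₁ = x₂
      · have hy : y₁ ≠ (cD D).toAffine.negY x₂ y₂ := fun h => hxy ⟨hx, h⟩
        have hy' : y₁ + D / 2 ≠ (cB (D ^ 2 / 4)).toAffine.negY x₂ (y₂ + D / 2) :=
          fun h => hxy' ⟨hx, h⟩
        rw [Affine.slope_of_Y_ne hx hy, Affine.slope_of_Y_ne hx hy', hn, hn']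
        simp only [cD, cB]
        congr 1 <;> ring
      · rw [Affine.slope_of_X_ne hx, Affine.slope_of_X_ne hx]
        congr 1
        ring
    have hX : (cB (D ^ 2 / 4)).toAffine.addX x₁ x₂
        ((cB (D ^ 2 / 4)).toAffine.slope x₁ x₂ (y₁ + D / 2) (y₂ + D / 2)) =
        (cD D).toAffine.addX x₁ x₂ ((cD D).toAffine.slope x₁ x₂ y₁ y₂) := by
      rw [hsl]
      simp [Affine.addX, cD, cB]
    apply pt_ext'
    · exact hX.symm
    · rw [hsl]
      simp only [Affine.addY, Affine.negAddY, hn, hn']
      have h3 : (cB (D ^ 2 / 4)).toAffine.addX x₁ x₂ ((cD D).toAffine.slope x₁ x₂ y₁ y₂) =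
        (cD D).toAffine.addX x₁ x₂ ((cD D).toAffine.slope x₁ x₂ y₁ y₂) := by
        simp [Affine.addX, cD, cB]
      rw [h3]
      ring

lemma sh_inj {D : L} (hD : D ≠ 0) : Function.Injective (sh hD) := by
  intro P Q h
  rcases P with _ | ⟨x₁, y₁, h₁⟩ <;> rcases Q with _ | ⟨x₂, y₂, h₂⟩
  · rfl
  · exact absurd h (by simp [sh])
  · exact absurd h (by simp [sh])
  · rw [sh_some, sh_some, Affine.Point.some.injEq] at h
    exact pt_ext' h₁ h₂ h.1 (by linear_combination h.2)

end shift

/-- transport along an equality of curves -/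
theorem fg_of_eq {K : Type} [Field K] [DecidableEq K] {W W' : WeierstrassCurve.Affine K}
    (h : W = W') (hW : AddGroup.FG W.Point) : AddGroup.FG W'.Point := by
  subst h
  exact hW

/-- a subgroup of a finitely generated abelian group -/
theorem fg_of_inj {A B : Type} [AddCommGroup A] [AddCommGroup B] (f : A →+ B)
    (hf : Function.Injective f) (hB : AddGroup.FG B) : AddGroup.FG A := by
  rw [← Module.Finite.iff_addGroup_fg] at hB ⊢
  have : IsNoetherian ℤ B := inferInstance
  exact Module.Finite.of_injective f.toIntLinearMap hf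

/-- Mordell-Weil for `y² = x³ + b` -/
theorem fg_cB {K : Type} [Field K] [NumberField K] [DecidableEq K] {b : K} (hb : b ≠ 0) :
    AddGroup.FG (cB b).toAffine.Point := by
  classical
  let P : Cubic K := ⟨1, 0, 0, b⟩
  let L : Type := P.toPoly.SplittingField
  have : NumberField L := NumberField.of_module_finite K L
  have ha : P.a ≠ 0 := one_ne_zero
  have hsp : Splits (P.toPoly.map (algebraMap K L)) := SplittingField.splits P.toPoly
  obtain ⟨x, y, z, h3⟩ := (Cubic.splits_iff_roots_eq_three ha).1 hsp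
  have hdisc : P.discr ≠ 0 := by
    have h : P.discr = -27 * b ^ 2 := by
      simp only [Cubic.discr, P]
      ring
    rw [h]
    exact mul_ne_zero (by norm_num) (pow_ne_zero 2 hb)
  obtain ⟨hxy, hxz, hyz⟩ := (Cubic.discr_ne_zero_iff_roots_ne ha h3).1 hdisc
  have hb' := Cubic.b_eq_three_roots ha h3
  have hc := Cubic.c_eq_three_roots ha h3
  have hd := Cubic.d_eq_three_roots ha h3
  simp only [P, map_one, map_zero, one_mul] at hb' hc hd
  have hK : AddGroup.FG (Pool.Agent.H437R2.Man.MW.crv (-x) (-y) (-z)).toAffine.Point :=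
    Pool.Agent.H437R2.Man.MW.pt_fg (fun h => hxy (neg_injective h)) (fun h => hxz (neg_injective h))
      (fun h => hyz (neg_injective h))
  have heq : (Pool.Agent.H437R2.Man.MW.crv (-x) (-y) (-z)).toAffine =
      ((cB b).baseChange L).toAffine := by
    apply WeierstrassCurve.ext
    · change (0 : L) = algebraMap K L 0
      rw [map_zero]
    · change -x + -y + -z = algebraMap K L 0
      rw [map_zero]
      linear_combination -hb'
    · change (0 : L) = algebraMap K L 0
      rw [map_zero]
    · change -x * -y + -x * -z + -y * -z = algebraMap K L 0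
      rw [map_zero]
      linear_combination -hc
    · change -x * -y * -z = algebraMap K L b
      linear_combination -hd
  have hK' : AddGroup.FG ((cB b).baseChange L).toAffine.Point := fg_of_eq heq hK
  have hinj := WeierstrassCurve.Affine.Point.map_injective (W' := cB b)
    (Algebra.ofId K L)
  have hb2 : (cB b).baseChange K = cB b := by
    unfold cB WeierstrassCurve.baseChange WeierstrassCurve.map
    ext <;> simp
  have h5 : AddGroup.FG ((cB b).baseChange K).toAffine.Point := fg_of_inj _ hinj hK'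
  exact fg_of_eq (congrArg WeierstrassCurve.toAffine hb2) h5

/-- **Mordell-Weil** for `y² + D y = x³` -/
theorem fg_cD {K : Type} [Field K] [NumberField K] [DecidableEq K] {D : K} (hD : D ≠ 0) :
    AddGroup.FG (cD D).toAffine.Point :=
  fg_of_inj ⟨⟨sh hD, sh_zero hD⟩, sh_add hD⟩ (sh_inj hD) (fg_cB (b_ne hD))

end Pool.Agent.D0H50.JL
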