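import Pool.Agent.D0H50.JL.Stm
import Pool.Agent.D0H10.L9D.Asy

/-!
# Project JL: the asymptotics for a fixed set `M` of primes with exponent `2`

Adapted from the file `D0H69/L0D/Asy.lean` of helper69 (after helper10).
-/

set_option autoImplicit false

open scoped Classical
open Finset Filter

namespace Pool.Agent.D0H50.JL

open Pool.Agent.Y692.QS (Ei w nr toC)
open Pool.Agent.Y715.T.RecG (Pq)
open Pool.Agent.Y699.E (nrm QB pq_nrm_two)
open Pool.Agent.Y703.CX (jj XX eL zz kk eL_tendsto logX_eq rpow_eL HH NN ev_eL one_le_exp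
  HH_ge HH_le HH_pos kk_ge kk_le X_pos one_add_log lin_le zz_ge zz_pos)
open Pool.Agent.Y703.CQ (Sml sml_of sml_add)
open Pool.Agent.Y703.XK (sm la bl c9 S_C9 sml_eps kk_pos kap kap_nonneg kap_pow
  sml_main cmp)
open Pool.Agent.R419.KF.Cnt (CntP)
open Pool.Agent.R419.KF (SG sml_many sml_cut sml_coll SG_card)
open Pool.Agent.N883.FF (ClU SU RRU)
open Pool.Agent.N883.FF.Asy (SU_sub SU_card)
open Pool.Agent.D0H10.L9D (NdN S_BADN)
open Pool.Agent.D0H10.L9D.Asy (out_sub)

/-- **the asymptotics for one `M`** -/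
theorem asy (hc9 : S_C9) (hbad : S_BADN) {F G : Finset Ei → Finset Ei → Prop} (hkey0 : SKey F G)
    (hbx : SBox F G) : SAsy F G := by
  intro M ε hε
  obtain ⟨C, hC1, hkey⟩ := hkey0 hbx
  obtain ⟨D, hD⟩ := Pool.Agent.R419.KF.Cnt.t_CNT
  obtain ⟨V, hV1, hV⟩ : ∃ V : ℕ, 2 ≤ V ∧ (1 / 3 : ℝ) ^ V < ε / 288 := by
    obtain ⟨V, hV⟩ := exists_pow_lt_of_lt_one (show (0 : ℝ) < ε / 288 by linarith)
      (show (1 / 3 : ℝ) < 1 by norm_num)
    refine ⟨V + 2, Nat.le_add_left _ _, lt_of_le_of_lt ?_ hV⟩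
    exact pow_le_pow_of_le_one (by norm_num) (by norm_num) (Nat.le_add_right V 2)
  have s1 := sml_many hD
  have s2 := sml_cut hD
  have s3 := sml_coll hD
  have s4 := sml_eps (Pool.Agent.R419.KF.Few.t_FEW V)
  have s5 := sml_eps hbad
  have s6 := sml_main hC1
  have s := sml_add (sml_add (sml_add (sml_add (sml_add s1 s2) s3) s4) s5) s6
  have hδ : (0 : ℝ) < ε / 2 := by positivity
  set m : ℕ := M.sup nrm with hm
  rw [← eventually_atTop]
  filter_upwards [s (ε / 2) hδ, ev_eL (max 1 (2 * m))] with X hX hl'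
  have hl : 1 ≤ eL X := (le_max_left _ _).trans hl'
  have hlm : 2 * (m : ℝ) ≤ eL X := (le_max_right _ _).trans hl'
  rw [neg_zero, zero_mul, Real.exp_zero, mul_one] at hX
  have hl0 : 0 < eL X := by linarith
  have hXp := X_pos hl0
  have hXp' : (0 : ℝ) < X := by exact_mod_cast hXp
  have hN : (HH X : ℝ) * Real.log X < NN X := by
    unfold NN
    push_cast
    exact Nat.lt_floor_add_one _
  have hMz : ∀ q ∈ M, nrm q ≤ zz X := by
    intro q hq
    have h5 : nrm q ≤ m := Finset.le_sup hq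
    refine h5.trans ?_
    have h6 := zz_ge hl
    have h7 : eL X ≤ Real.exp ((eL X) ^ 3) := by
      have h8 : eL X ≤ (eL X) ^ 3 := by
        have h9 : (eL X) ^ 3 = eL X * (eL X * eL X) := by ring
        rw [h9]
        nlinarith
      have := Real.add_one_le_exp ((eL X) ^ 3)
      linarith
    have h8 : (m : ℝ) ≤ zz X := by linarith
    exact_mod_cast h8
  have hmain := hkey M X (zz X) (HH X) (kk X) V (NN X) (kap C X) hMz hXp (HH_pos hl0) (zz_pos hl)
    hV1 (kap_nonneg hC1 X) (kap_pow hC1 hl) hN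
  set T := (RRU M X (zz X) (HH X) (kk X) V).filter
    (fun S => NdN (sm (zz X) S) (la (zz X) S) ∧ F M S) with hT
  set S' := (SU M X).filter (F M) with hS'
  have hTG : (RRU M X (zz X) (HH X) (kk X) V).filter
      (fun S => NdN (sm (zz X) S) (la (zz X) S) ∧ F M S ∧ G M S) = T.filter (G M) := by
    rw [hT, filter_filter]
    exact filter_congr fun S _ => and_assoc.symm
  have hSG : (SU M X).filter (fun S => F M S ∧ G M S) = S'.filter (G M) := by
    rw [hS', filter_filter]
  rw [hTG] at hmain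
  rw [hSG]
  have hTS : T ⊆ S' := by
    intro S hS
    rw [hT, mem_filter] at hS
    rw [hS', mem_filter]
    exact ⟨(filter_subset _ _) hS.1, hS.2.2⟩
  have hRS : ((RRU M X (zz X) (HH X) (kk X) V).card : ℝ) ≤ ((SU M X).card : ℝ) := by
    exact_mod_cast card_le_card (filter_subset _ _)
  have hcmp := cmp (G M) T S' hTS c9 hc9.2.1.le hc9.2.2.1.le
  have hout : ((S' \ T).card : ℝ) ≤
      ((((SG X).filter fun S => kk X < S.card).card : ℝ) +
      (((SG X).filter fun S => S.card ≤ kk X ∧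
        X < (∏ π ∈ sm (zz X) S, nrm π) * ∏ π ∈ la (zz X) S, XX (HH X) (bl (HH X) π)).card : ℝ) +
      (((SG X).filter fun S => ¬ Set.InjOn (bl (HH X)) (la (zz X) S : Set Ei)).card : ℝ) +
      (((SG X).filter fun S => S.card ≤ kk X ∧
        (la (zz X) S).card ≤ (sm (zz X) S).card + V).card : ℝ)) +
      (((SG X).filter fun S => S.card ≤ kk X ∧ ¬ NdN (sm (zz X) S) (la (zz X) S)).card : ℝ) := by
    have h0 : S' \ T ⊆ SU M X \ ((RRU M X (zz X) (HH X) (kk X) V).filter
        fun S => NdN (sm (zz X) S) (la (zz X) S)) := by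
      intro S hS
      rw [Finset.mem_sdiff, hS', mem_filter, hT, mem_filter] at hS
      rw [Finset.mem_sdiff, mem_filter]
      exact ⟨hS.1.1, fun h => hS.2 ⟨h.1, h.2, hS.1.2⟩⟩
    have g := card_le_card (h0.trans (out_sub M X (zz X) (HH X) (kk X) V))
    have g2 := (g.trans (card_union_le _ _)).trans (Nat.add_le_add_right ((card_union_le _ _).trans
      (Nat.add_le_add_right ((card_union_le _ _).trans
      (Nat.add_le_add_right (card_union_le _ _) _)) _)) _)
    exact_mod_cast g2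
  have g1 : 9 * (1 / 3 : ℝ) ^ V * ((RRU M X (zz X) (HH X) (kk X) V).card : ℝ) ≤ ε / 2 * X := by
    calc 9 * (1 / 3 : ℝ) ^ V * ((RRU M X (zz X) (HH X) (kk X) V).card : ℝ) ≤
        9 * (ε / 288) * (16 * X) := by
          have := hRS.trans (SU_card M X)
          gcongr
      _ = ε / 2 * X := by ring
  linarith

end Pool.Agent.D0H50.JL
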