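import Pool.Agent.D0H50.JL.Stm
import Pool.Agent.D0H10.L9D.Box

/-!
# Project JL: the count in a box from the description on the labels

Adapted from the file `D0H69/L0D/Box.lean` of helper69 (after helper10).
-/

set_option autoImplicit false

open scoped Classical

namespace Pool.Agent.D0H50.JL

open Finset
open Pool.Agent.Y692.QS (Ei)
open Pool.Agent.Y715.T.Rec (cs)
open Pool.Agent.Y715.T.RecG (Pq)
open Pool.Agent.Y703.XK (prs HB S_EQ S_LA GdA c9)
open Pool.Agent.Y688.XK (lb cs_symm sum_un ext_sum HB_sub)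
open Pool.Agent.R419.KF (wt wt_one wt_ne)
open Pool.Agent.N883.FF (nq)
open Pool.Agent.D0H43.L3 (yq)
open Pool.Agent.D0H10.L9D (NdN)
open Pool.Agent.D0H10.L9D.Box (LNB nd_iff)

/-- **The count in a box.** -/
theorem box (hEQ : S_EQ) (hLA : S_LA) {F G : Finset Ei → Finset Ei → Prop} (hL : LocD F G) :
    SBox F G := by
  intro ι _ _ C X κ M S₀ hM hκ hCX hHB hS₀ hC hdis hnq hcard
  obtain ⟨cc, hcc⟩ : ∃ cc : ℝ, cc = 3 * (3 ^ (S₀.card + 2) / 3 ^ Fintype.card ι) := ⟨_, rfl⟩
  obtain ⟨R, hR⟩ : ∃ R : ℝ, R = 3 ^ (prs ι).card * (κ * ∏ j, (X j : ℝ)) := ⟨_, rfl⟩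
  have hcc0 : 0 ≤ cc := by rw [hcc]; positivity
  have hR0 : 0 ≤ R := by
    rw [hR]
    exact mul_nonneg (by positivity)
      (mul_nonneg hκ (Finset.prod_nonneg fun j _ => by positivity))
  -- the labels at `ω` and `9`
  obtain ⟨γ, hγ⟩ : ∃ γ : ι → ZMod 3, ∀ k, ∀ π ∈ C k, nq π = γ k :=
    ⟨fun k => if h : (C k).Nonempty then nq h.choose else 0, fun k π hπ => by
      have h : (C k).Nonempty := ⟨π, hπ⟩
      show nq π = if h : (C k).Nonempty then nq h.choose else 0
      rw [dif_pos h]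
      exact (hnq k π hπ _ h.choose_spec).1⟩
  obtain ⟨δ, hδ⟩ : ∃ δ : ι → ZMod 3, ∀ k, ∀ π ∈ C k, yq π = δ k :=
    ⟨fun k => if h : (C k).Nonempty then yq h.choose else 0, fun k π hπ => by
      have h : (C k).Nonempty := ⟨π, hπ⟩
      show yq π = if h : (C k).Nonempty then yq h.choose else 0
      rw [dif_pos h]
      exact (hnq k π hπ _ h.choose_spec).2⟩
  have hγp : ∀ p ∈ Fintype.piFinset C, (fun k => nq (p k)) = γ := by
    intro p hp
    rw [Fintype.mem_piFinset] at hp
    exact funext fun k => hγ k _ (hp k)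
  have hδp : ∀ p ∈ Fintype.piFinset C, (fun k => yq (p k)) = δ := by
    intro p hp
    rw [Fintype.mem_piFinset] at hp
    exact funext fun k => hδ k _ (hp k)
  -- facts on tuples
  have htup : ∀ p ∈ Fintype.piFinset C, Tup S₀ γ δ p := by
    intro p hp
    refine ⟨?_, ?_, ?_, hγp p hp, hδp p hp⟩
    · intro i j hij
      rw [Fintype.mem_piFinset] at hp
      by_contra hne
      have h1 := Finset.disjoint_left.1 (hdis i j hne) (hp i)
      rw [hij] at h1
      exact h1 (hp j)
    · intro i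
      rw [Fintype.mem_piFinset] at hp
      exact (hC i _ (hp i)).1
    · intro i
      rw [Fintype.mem_piFinset] at hp
      exact (hC i _ (hp i)).2
  rcases hL ι M S₀ γ δ hM hS₀ hcard with hno | ⟨hyes, hdesc⟩
  · have e1 : ((Fintype.piFinset C).filter fun p => NdN S₀ (univ.image p) ∧
        F M (S₀ ∪ univ.image p) ∧ G M (S₀ ∪ univ.image p)) = ∅ := by
      refine Finset.filter_eq_empty_iff.2 fun p hp h => hno p (htup p hp) h.2.1
    have e2 : ((Fintype.piFinset C).filter fun p => NdN S₀ (univ.image p) ∧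
        F M (S₀ ∪ univ.image p)) = ∅ := by
      refine Finset.filter_eq_empty_iff.2 fun p hp h => hno p (htup p hp) h.2
    rw [e1, e2, ← hcc]
    simp only [Finset.card_empty, Nat.cast_zero, mul_zero, sub_zero, abs_zero]
    have h5 : (0 : ℝ) ≤ 3 ^ (S₀.card * Fintype.card ι + (prs ι).card) *
        (κ * ∏ j, (X j : ℝ)) := by
      exact mul_nonneg (by positivity)
        (mul_nonneg hκ (Finset.prod_nonneg fun j _ => by positivity))
    have h6 : (0 : ℝ) ≤ cc *
      (((Fintype.piFinset C).filter fun p => NdN S₀ (univ.image p)).card : ℝ) :=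
      mul_nonneg hcc0 (by positivity)
    linarith
  have e1 : ((Fintype.piFinset C).filter fun p => NdN S₀ (univ.image p) ∧
      F M (S₀ ∪ univ.image p) ∧ G M (S₀ ∪ univ.image p)) =
      ((Fintype.piFinset C).filter fun p => NdN S₀ (univ.image p) ∧
        G M (S₀ ∪ univ.image p)) := by
    refine Finset.filter_congr fun p hp => ?_
    constructor
    · rintro ⟨h1, -, h3⟩
      exact ⟨h1, h3⟩
    · rintro ⟨h1, h3⟩
      exact ⟨h1, hyes p (htup p hp), h3⟩
  have e2 : ((Fintype.piFinset C).filter fun p => NdN S₀ (univ.image p) ∧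
      F M (S₀ ∪ univ.image p)) =
      ((Fintype.piFinset C).filter fun p => NdN S₀ (univ.image p)) := by
    refine Finset.filter_congr fun p hp => ?_
    constructor
    · rintro ⟨h1, -⟩
      exact h1
    · intro h1
      exact ⟨h1, hyes p (htup p hp)⟩
  rw [e1, e2]
  -- the part with given labels
  have h1 : ∀ β : ι → S₀ → ZMod 3, LNB S₀ β γ δ →
      |(((Fintype.piFinset C).filter fun p => (fun i => lb S₀ (p i)) = β ∧
          G M (S₀ ∪ univ.image p)).card : ℝ) -
        c9 * (((Fintype.piFinset C).filter fun p => (fun i => lb S₀ (p i)) = β).card : ℝ)| ≤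
      cc * (((Fintype.piFinset C).filter fun p => (fun i => lb S₀ (p i)) = β).card : ℝ) + R := by
    intro β hβ
    obtain ⟨U, hU, Am, Bm, hcU, hsym, hnd, hG⟩ := hdesc β hβ
    obtain ⟨C', hC'⟩ : ∃ C' : ι → Finset Ei, C' = fun i => (C i).filter fun q => lb S₀ q = β i :=
      ⟨_, rfl⟩
    have hpi : (Fintype.piFinset C).filter (fun p => (fun i => lb S₀ (p i)) = β) =
        Fintype.piFinset C' := by
      ext p
      simp only [Finset.mem_filter, Fintype.mem_piFinset, hC']
      constructor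
      · rintro ⟨h2, h3⟩ i
        exact ⟨h2 i, congrFun h3 i⟩
      · intro h2
        exact ⟨fun i => (h2 i).1, funext fun i => (h2 i).2⟩
    have h2 := hLA U ι Am Bm (lt_of_le_of_lt hcU hcard) hsym hnd
    obtain ⟨Q, hQ⟩ : ∃ Q : (prs ι → ZMod 3) → Prop, Q = fun α =>
        GdA Am Bm (Pool.Agent.Y703.XK.ext α) := ⟨_, rfl⟩
    have h3 := hEQ ι C' X κ hκ
      (fun i => (Finset.card_le_card (by rw [hC']; exact Finset.filter_subset _ _)).trans (hCX i))
      (by rw [hC']; exact HB_sub hHB fun i q => lb S₀ q = β i) Q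
    have h4 : ((Fintype.piFinset C).filter fun p => (fun i => lb S₀ (p i)) = β ∧
        G M (S₀ ∪ univ.image p)) = ((Fintype.piFinset C').filter fun p =>
          Q fun e => cs (p e.1.1) (p e.1.2)) := by
      rw [← hpi, Finset.filter_filter]
      refine Finset.filter_congr fun p hp => ?_
      refine and_congr_right fun hl => ?_
      rw [hG p (htup p hp) hl, hQ]
    have h5 : (((Fintype.piFinset C').card : ℕ) : ℝ) = ∏ j, ((C' j).card : ℝ) := by
      rw [Fintype.card_piFinset]
      push_cast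
      rfl
    rw [h4, hpi, h5]
    have hccU : (3 : ℝ) * (3 ^ Fintype.card U / 3 ^ Fintype.card ι) ≤ cc := by
      rw [hcc]
      have h9 : (3 : ℝ) ^ Fintype.card U ≤ 3 ^ (S₀.card + 2) :=
        pow_le_pow_right₀ (by norm_num) hcU
      gcongr
    rw [← hR] at h3
    obtain ⟨n, hn⟩ : ∃ n : ℝ, n = (((Fintype.piFinset C').filter fun p =>
          Q fun e => cs (p e.1.1) (p e.1.2)).card : ℝ) := ⟨_, rfl⟩
    obtain ⟨q, hq⟩ : ∃ q : ℝ, q = ((univ.filter Q).card : ℝ) / 3 ^ (prs ι).card := ⟨_, rfl⟩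
    obtain ⟨P, hP⟩ : ∃ P : ℝ, P = ∏ j, ((C' j).card : ℝ) := ⟨_, rfl⟩
    have hP0 : 0 ≤ P := by
      rw [hP]
      exact Finset.prod_nonneg fun j _ => by positivity
    have h2' : |q - c9| ≤ cc := by
      rw [hq, hQ]
      exact h2.trans hccU
    rw [← hn, ← hq, ← hP] at h3
    rw [← hn, ← hP]
    have h6 : |n - c9 * P| ≤ |n - q * P| + |q - c9| * P := by
      have h7 : n - c9 * P = (n - q * P) + (q - c9) * P := by ring
      have h8 : |(q - c9) * P| = |q - c9| * P := by rw [abs_mul, abs_of_nonneg hP0]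
      rw [h7, ← h8]
      exact abs_add_le _ _
    have h7 : |q - c9| * P ≤ cc * P := mul_le_mul_of_nonneg_right h2' hP0
    linarith
  -- sum over the labels
  obtain ⟨LL, hLL⟩ : ∃ LL : Finset (ι → S₀ → ZMod 3), LL = univ.filter (fun β => LNB S₀ β γ δ) :=
    ⟨_, rfl⟩
  have hfib : ∀ T : (ι → Ei) → Prop,
      (((Fintype.piFinset C).filter fun p => NdN S₀ (univ.image p) ∧ T p).card : ℝ) =
      ∑ β ∈ LL, (((Fintype.piFinset C).filter fun p =>
        (fun i => lb S₀ (p i)) = β ∧ T p).card : ℝ) := by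
    intro T
    have hnd : ∀ p ∈ Fintype.piFinset C, (NdN S₀ (univ.image p) ↔
        LNB S₀ (fun i => lb S₀ (p i)) γ δ) := by
      intro p hp
      rw [nd_iff, hγp p hp, hδp p hp]
    rw [Finset.card_eq_sum_card_fiberwise (f := fun (p : ι → Ei) (i : ι) => lb S₀ (p i))
      (t := LL) (by
        intro p hp
        rw [Finset.mem_coe, Finset.mem_filter] at hp
        rw [Finset.mem_coe, hLL, Finset.mem_filter]
        exact ⟨Finset.mem_univ _, (hnd p hp.1).1 hp.2.1⟩)]
    push_cast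
    refine Finset.sum_congr rfl fun β hβ => ?_
    rw [hLL, Finset.mem_filter] at hβ
    congr 2
    ext p
    simp only [Finset.mem_filter]
    constructor
    · rintro ⟨⟨h3, h4, h4'⟩, h5⟩
      exact ⟨h3, h5, h4'⟩
    · rintro ⟨h3, h4, h5⟩
      refine ⟨⟨h3, ?_, h5⟩, h4⟩
      rw [hnd p h3, h4]
      exact hβ.2
  have hf1 := hfib fun p => G M (S₀ ∪ univ.image p)
  have hf2 := hfib fun _ => True
  simp only [and_true] at hf2
  rw [← hcc, hf1, hf2, Finset.mul_sum, ← Finset.sum_sub_distrib]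
  refine (Finset.abs_sum_le_sum_abs _ _).trans ?_
  refine (Finset.sum_le_sum fun β hβ => h1 β (by
    rw [hLL] at hβ
    exact (Finset.mem_filter.1 hβ).2)).trans ?_
  rw [Finset.sum_add_distrib, ← Finset.mul_sum, Finset.sum_const, nsmul_eq_mul]
  have h5 : ((LL.card : ℕ) : ℝ) ≤ 3 ^ (S₀.card * Fintype.card ι) := by
    have h6 : LL.card ≤ Fintype.card (ι → S₀ → ZMod 3) :=
      Finset.card_le_univ _
    rw [Fintype.card_fun, Fintype.card_fun, ZMod.card, Fintype.card_coe, ← pow_mul] at h6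
    exact_mod_cast h6
  have h6 := mul_le_mul_of_nonneg_right h5 hR0
  rw [pow_add, mul_assoc, ← hR]
  linarith

end Pool.Agent.D0H50.JL
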