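import Pool.Agent.D0H50.JL.Cnd
import Pool.Agent.D0H50.JL.Gen
import Pool.Agent.D0H69.L0D.Box

/-!
# Project JL: the systems of the class of norm `1` modulo `9` as block systems

Adapted from the files `D0H69/L0D/Box.lean` of helper69, `D0H69/L3K/Box.lean` and `R419/KF/Box.lean`.
-/

set_option autoImplicit false

open scoped Classical

namespace Pool.Agent.D0H50.JL

open Finset
open Pool.Agent.Y692.QS (Ei)
open Pool.Agent.Y715.T.Rec (cs)
open Pool.Agent.Y715.T.RecG (Pq)
open Pool.Agent.Y703.XK (prs HB S_EQ S_LA GdA c9)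
open Pool.Agent.Y688.XK (lb cs_symm sum_un ext_sum HB_sub)
open Pool.Agent.R419.KF (wt wt_one wt_ne GdW gdw_iff)
open Pool.Agent.N883.FF (nq)
open Pool.Agent.D0H43.L3 (yq)
open Pool.Agent.D0H69.L3K (GdT)
open Pool.Agent.D0H69.L0D (NtS)
open Pool.Agent.D0H69.L0D.Box (Am Bm sg sg_self sg_ne ex_j0)
open Pool.Agent.D0H10.L9D.Box (LNB)

namespace BoxC

section one
variable {ι : Type} [Fintype ι] [LinearOrder ι] {M S₀ : Finset Ei} {p : ι → Ei}

theorem gdc_iff (t : ZMod 3) (j0 : ι) (hM : M ⊆ S₀) (hp : Function.Injective p) (hpr : ∀ k, Pq (p k))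
    (hS₀ : ∀ u ∈ S₀, Pq u) (hd : ∀ k, p k ∉ S₀)
    (hN : ∑ u : S₀, wt M u * nq u + ∑ l, nq (p l) = 0) :
    GdC t M (S₀ ∪ univ.image p) ↔ GdA (Am t M S₀)
      (Bm j0 M S₀ (fun k => lb S₀ (p k)) (fun k => nq (p k)))
      (Pool.Agent.Y703.XK.ext fun e : prs ι => cs (p e.1.1) (p e.1.2)) := by
  have hw : ∀ k, wt M (p k) = 1 := fun k => wt_one fun h => hd k (hM h)
  obtain ⟨y, hy⟩ : ∃ y : ZMod 3, y = t := ⟨_, rfl⟩
  rw [← hy]
  -- the rows of the block system
  have hrowu : ∀ (c : Option (Option S₀) → ZMod 3) (d : ι → ZMod 3) (u : S₀),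
      (∑ v, Am y M S₀ (some (some u)) v * (c v - c (some (some u))) +
        ∑ l, Bm j0 M S₀ (fun k => lb S₀ (p k)) (fun k => nq (p k))
          (some (some u)) l * (d l - c (some (some u)))) =
      wt M u * (∑ v : S₀, wt M v * cs u v * (c (some (some v)) - c (some (some u))) +
        ∑ l, cs u (p l) * (d l - c (some (some u))) + (c (some none) - c none) * nq u) := by
    intro c d u
    rw [Fintype.sum_option, Fintype.sum_option]
    have e1 : ∑ v : S₀, Am y M S₀ (some (some u)) (some (some v)) *
        (c (some (some v)) - c (some (some u))) =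
        wt M u * ∑ v : S₀, wt M v * cs u v * (c (some (some v)) - c (some (some u))) := by
      rw [Finset.mul_sum]
      refine Finset.sum_congr rfl fun v _ => ?_
      show wt M u * wt M v * cs u v * (c (some (some v)) - c (some (some u))) = _
      ring
    have e2 : ∑ l, Bm j0 M S₀ (fun k => lb S₀ (p k)) (fun k => nq (p k))
        (some (some u)) l * (d l - c (some (some u))) =
          wt M u * ∑ l, cs u (p l) * (d l - c (some (some u))) := by
      rw [Finset.mul_sum]
      refine Finset.sum_congr rfl fun l _ => ?_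
      show wt M u * cs u (p l) * (d l - c (some (some u))) = _
      ring
    have e3 : Am y M S₀ (some (some u)) none = -(wt M u * nq u) := rfl
    have e4 : Am y M S₀ (some (some u)) (some none) = wt M u * nq u := rfl
    rw [e1, e2, e3, e4]
    ring
  have hrowo : ∀ (c : Option (Option S₀) → ZMod 3) (d : ι → ZMod 3),
      (∑ v, Am y M S₀ (some none) v * (c v - c (some none)) +
        ∑ l, Bm j0 M S₀ (fun k => lb S₀ (p k)) (fun k => nq (p k))
          (some none) l * (d l - c (some none))) =
      ∑ v : S₀, wt M v * nq v * c (some (some v)) + ∑ l, nq (p l) * d l +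
        y * (c (some none) - c none) := by
    intro c d
    rw [Fintype.sum_option, Fintype.sum_option]
    have e1 : Am y M S₀ (some none) (some none) = 0 := rfl
    have e3 : Am y M S₀ (some none) none = -y := rfl
    have e2 : ∑ v : S₀, Am y M S₀ (some none) (some (some v)) *
        (c (some (some v)) - c (some none)) =
        ∑ v : S₀, wt M v * nq v * c (some (some v)) -
          (∑ v : S₀, wt M v * nq v) * c (some none) := by
      rw [Finset.sum_mul, ← Finset.sum_sub_distrib]
      refine Finset.sum_congr rfl fun v _ => ?_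
      show wt M v * nq v * (c (some (some v)) - c (some none)) = _
      ring
    have e4 : ∑ l, Bm j0 M S₀ (fun k => lb S₀ (p k)) (fun k => nq (p k))
        (some none) l * (d l - c (some none)) =
        ∑ l, nq (p l) * d l - (∑ l, nq (p l)) * c (some none) := by
      rw [Finset.sum_mul, ← Finset.sum_sub_distrib]
      refine Finset.sum_congr rfl fun l _ => ?_
      show nq (p l) * (d l - c (some none)) = _
      ring
    rw [e1, e2, e3, e4]
    linear_combination (-c (some none)) * hN
  have hrown : ∀ (c : Option (Option S₀) → ZMod 3) (d : ι → ZMod 3),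
      (∑ v, Am y M S₀ none v * (c v - c none) +
        ∑ l, Bm j0 M S₀ (fun k => lb S₀ (p k)) (fun k => nq (p k))
          none l * (d l - c none)) =
      -(∑ v : S₀, wt M v * nq v * c (some (some v)) + ∑ l, nq (p l) * d l +
        y * (c (some none) - c none)) + (d j0 - c none) := by
    intro c d
    rw [Fintype.sum_option, Fintype.sum_option]
    have e1 : Am y M S₀ none none = 0 := rfl
    have e3 : Am y M S₀ none (some none) = -y := rfl
    have e2 : ∑ v : S₀, Am y M S₀ none (some (some v)) * (c (some (some v)) - c none) =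
        -(∑ v : S₀, wt M v * nq v * c (some (some v))) +
          (∑ v : S₀, wt M v * nq v) * c none := by
      rw [Finset.sum_mul, ← Finset.sum_neg_distrib, ← Finset.sum_add_distrib]
      refine Finset.sum_congr rfl fun v _ => ?_
      show -(wt M v * nq v) * (c (some (some v)) - c none) = _
      ring
    have e4 : ∑ l, Bm j0 M S₀ (fun k => lb S₀ (p k)) (fun k => nq (p k))
        none l * (d l - c none) =
        -(∑ l, nq (p l) * d l) + (∑ l, nq (p l)) * c none + (d j0 - c none) := by
      have e5 : (d j0 - c none) = ∑ l, sg j0 l * (d l - c none) := by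
        rw [Finset.sum_eq_single j0]
        · rw [sg_self, one_mul]
        · intro b _ hb
          rw [sg_ne hb, zero_mul]
        · intro h
          exact absurd (Finset.mem_univ j0) h
      rw [e5, Finset.sum_mul, ← Finset.sum_neg_distrib, ← Finset.sum_add_distrib,
        ← Finset.sum_add_distrib]
      refine Finset.sum_congr rfl fun l _ => ?_
      show (-nq (p l) + sg j0 l) * (d l - c none) = _
      ring
    rw [e1, e2, e3, e4]
    linear_combination c none * hN
  have hrowk : ∀ (c : Option (Option S₀) → ZMod 3) (d : ι → ZMod 3) (k : ι),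
      (∑ u, Bm j0 M S₀ (fun k => lb S₀ (p k)) (fun k => nq (p k)) u k *
          (c u - d k) +
        ∑ l, Pool.Agent.Y703.XK.ext (fun e : prs ι => cs (p e.1.1) (p e.1.2)) k l *
          (d l - d k)) =
      ∑ u : S₀, wt M u * cs (p k) u * (c (some (some u)) - d k) +
        ∑ l, cs (p k) (p l) * (d l - d k) + (c (some none) - c none) * nq (p k) +
        sg j0 k * (c none - d k) := by
    intro c d k
    rw [Fintype.sum_option, Fintype.sum_option, ext_sum hpr k d]
    have e1 : Bm j0 M S₀ (fun k => lb S₀ (p k)) (fun k => nq (p k)) none k =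
      -nq (p k) + sg j0 k := rfl
    have e3 : Bm j0 M S₀ (fun k => lb S₀ (p k)) (fun k => nq (p k))
      (some none) k = nq (p k) := rfl
    have e2 : ∑ u : S₀, Bm j0 M S₀ (fun k => lb S₀ (p k)) (fun k => nq (p k))
        (some (some u)) k * (c (some (some u)) - d k) =
          ∑ u : S₀, wt M u * cs (p k) u * (c (some (some u)) - d k) := by
      refine Finset.sum_congr rfl fun u _ => ?_
      show wt M u * cs u (p k) * (c (some (some u)) - d k) = _
      rw [cs_symm (hpr k) (hS₀ u u.2)]
    rw [e1, e2, e3]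
    ring
  have hse : ∀ f : Ei → ZMod 3, ∑ x ∈ S₀ ∪ univ.image p, f x =
      ∑ u : S₀, f u + ∑ l, f (p l) := sum_un hp hd
  unfold GdC GdA
  constructor
  · intro h c d h1 h2
    have ho := h1 (some none)
    rw [hrowo] at ho
    have hn := h1 none
    rw [hrown, ho, neg_zero, zero_add] at hn
    have hcd : c none = d j0 := (sub_eq_zero.1 hn).symm
    obtain ⟨c', hc'⟩ : ∃ c' : Ei → ZMod 3, ∀ n, c' n = if h : n ∈ S₀ then
      c (some (some ⟨n, h⟩))
      else if h : ∃ l, p l = n then d h.choose else 0 := ⟨_, fun n => rfl⟩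
    have e1 : ∀ u : S₀, c' u = c (some (some u)) := by
      intro u
      rw [hc', dif_pos u.2]
    have e2 : ∀ l, c' (p l) = d l := by
      intro l
      have hex : ∃ l', p l' = p l := ⟨l, rfl⟩
      rw [hc', dif_neg (hd l), dif_pos hex]
      exact congrArg (fun l => d l) (hp hex.choose_spec)
    obtain ⟨h3, h3a⟩ := h c' (c (some none) - c none) (by
      intro x hx
      rw [sum_un hp hd]
      simp only [hw, one_mul, e1, e2]
      rw [Finset.mem_union, Finset.mem_image] at hx
      rcases hx with hx | ⟨k, -, rfl⟩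
      · have h4 := h1 (some (some ⟨x, hx⟩))
        rw [hrowu] at h4
        have h5 := (mul_eq_zero.1 h4).resolve_left (wt_ne M _)
        have h6 : c' x = c (some (some ⟨x, hx⟩)) := e1 ⟨x, hx⟩
        rw [h6]
        exact h5
      · have h4 := h2 k
        rw [hrowk] at h4
        have h7 : sg j0 k * (c none - d k) = 0 := by
          by_cases hk : k = j0
          · rw [hk, hcd, sub_self, mul_zero]
          · rw [sg_ne hk, zero_mul]
        rw [h7, add_zero] at h4
        rw [e2 k]
        exact h4) (by
      rw [hse]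
      simp only [hw, one_mul, e1, e2]
      rw [← ho, mul_comm y]
      congr 2
      · exact Finset.sum_congr rfl fun u _ => by ring
      · exact Finset.sum_congr rfl fun l _ => by ring)
    have hmem : ∀ l, p l ∈ S₀ ∪ univ.image p := fun l =>
      Finset.mem_union_right _ (Finset.mem_image_of_mem _ (Finset.mem_univ _))
    refine ⟨c none, fun u => ?_, fun l => ?_⟩
    · cases u with
      | none => rfl
      | some u =>
        cases u with
        | none => exact sub_eq_zero.1 h3a
        | some u =>
          have h4 := h3 u (Finset.mem_union_left _ u.2) (p j0) (hmem j0)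
          rw [e1, e2] at h4
          rw [h4, hcd]
    · have h4 := h3 (p l) (hmem l) (p j0) (hmem j0)
      rw [e2, e2] at h4
      rw [h4, hcd]
  · intro h v a hv ha
    rw [hse] at ha
    simp only [hw, one_mul] at ha
    obtain ⟨c, hc0, hca, hc1⟩ : ∃ c : Option (Option S₀) → ZMod 3, c none = v (p j0) ∧
        c (some none) = a + v (p j0) ∧ ∀ u : S₀, c (some (some u)) = v u :=
      ⟨fun o => o.elim (v (p j0)) fun o => o.elim (a + v (p j0)) fun u => v u, rfl, rfl,
        fun u => rfl⟩
    have hlast : ∑ v_1 : S₀, wt M v_1 * nq v_1 * v v_1 + ∑ l, nq (p l) * v (p l) + y * a = 0 := by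
      rw [← ha, mul_comm y]
      congr 2
      · exact Finset.sum_congr rfl fun u _ => by ring
      · exact Finset.sum_congr rfl fun l _ => by ring
    obtain ⟨t', ht1, ht2⟩ := h c (fun l => v (p l)) (by
      intro u
      cases u with
      | none =>
        rw [hrown]
        simp only [hc0, hc1, hca, add_sub_cancel_right]
        rw [hlast, sub_self, neg_zero, zero_add]
      | some u =>
        cases u with
        | none =>
          rw [hrowo]
          simp only [hc0, hc1, hca, add_sub_cancel_right]
          exact hlast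
        | some u =>
          rw [hrowu]
          simp only [hc0, hc1, hca, add_sub_cancel_right]
          have h2 := hv u (Finset.mem_union_left _ u.2)
          rw [sum_un hp hd] at h2
          simp only [hw, one_mul] at h2
          rw [h2, mul_zero]) (by
      intro k
      refine (hrowk c (fun l => v (p l)) k).trans ?_
      simp only [hc0, hc1, hca, add_sub_cancel_right]
      have h2 := hv (p k) (Finset.mem_union_right _ (Finset.mem_image_of_mem _ (Finset.mem_univ _)))
      rw [sum_un hp hd] at h2
      simp only [hw, one_mul] at h2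
      have h7 : sg j0 k * (v (p j0) - v (p k)) = 0 := by
        by_cases hk : k = j0
        · rw [hk, sub_self, mul_zero]
        · rw [sg_ne hk, zero_mul]
      rw [h2, h7, add_zero])
    have hall : ∀ x ∈ S₀ ∪ univ.image p, v x = t' := by
      intro x hx
      rw [Finset.mem_union, Finset.mem_image] at hx
      rcases hx with hx | ⟨k, -, rfl⟩
      · have := ht1 (some (some ⟨x, hx⟩))
        rw [hc1] at this
        exact this
      · exact ht2 k
    refine ⟨fun x hx x' hx' => by rw [hall x hx, hall x' hx'], ?_⟩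
    have h8 := ht1 (some none)
    have h9 := ht1 none
    rw [hca, ← h9, hc0] at h8
    exact add_eq_right.1 h8

end one

end BoxC

open BoxC in
/-- the norm and `yq` -/
theorem fy_cases {ι : Type} [Fintype ι] [LinearOrder ι] (y : ZMod 3) {M S₀ : Finset Ei}
    {γ δ : ι → ZMod 3} (hM : M ⊆ S₀) :
    (∀ p, Tup S₀ γ δ p → ¬ Fy y M (S₀ ∪ univ.image p)) ∨
      (∑ u : S₀, wt M u * nq u + ∑ l, γ l = 0 ∧
        ∀ p, Tup S₀ γ δ p → Fy y M (S₀ ∪ univ.image p)) := by
  have key : ∀ p, Tup S₀ γ δ p → (Fy y M (S₀ ∪ univ.image p) ↔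
      ∑ u : S₀, wt M u * nq u + ∑ l, γ l = 0 ∧ ∑ u : S₀, wt M u * yq u + ∑ l, δ l = y) := by
    rintro p ⟨h1, h2, h3, h4, h5⟩
    have hw : ∀ k, wt M (p k) = 1 := fun k => wt_one fun h => h3 k (hM h)
    unfold Fy NtS
    rw [sum_un h1 h3, sum_un h1 h3]
    simp only [hw, one_mul]
    rw [show (∑ l, nq (p l)) = ∑ l, γ l from
      Finset.sum_congr rfl fun l _ => congrFun h4 l, show (∑ l, yq (p l)) = ∑ l, δ l from
      Finset.sum_congr rfl fun l _ => congrFun h5 l]
  by_cases h : ∑ u : S₀, wt M u * nq u + ∑ l, γ l = 0 ∧ ∑ u : S₀, wt M u * yq u + ∑ l, δ l = y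
  · exact Or.inr ⟨h.1, fun p hp => (key p hp).2 h⟩
  · exact Or.inl fun p hp hF => h ((key p hp).1 hF)

open BoxC in
/-- the description of the condition `GdC` -/
theorem loc_C (y t : ZMod 3) : LocD (Fy y) (GdC t) := by
  intro ι _ _ M S₀ γ δ hM hS₀ hcard
  rcases fy_cases y (γ := γ) (δ := δ) hM with h | ⟨hneu, hF⟩
  · exact Or.inl h
  refine Or.inr ⟨hF, fun β hβ => ?_⟩
  obtain ⟨j0, hj0⟩ := ex_j0 β γ δ hβ hcard
  refine ⟨Option (Option S₀), inferInstance, Am t M S₀, Bm j0 M S₀ β γ, ?_, ?_, ?_, ?_⟩
  · rw [Fintype.card_option, Fintype.card_option, Fintype.card_coe]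
  · intro u v
    rcases u with _ | _ | u <;> rcases v with _ | _ | v
    · rfl
    · rfl
    · rfl
    · rfl
    · rfl
    · rfl
    · rfl
    · rfl
    · show wt M u * wt M v * cs u v = wt M v * wt M u * cs v u
      rw [cs_symm (hS₀ u u.2) (hS₀ v v.2), mul_comm (wt M u) (wt M v)]
  · intro w hw
    have hsum : ∀ k, ∑ u, w u * Bm j0 M S₀ β γ u k =
        (∑ u : S₀, w (some (some u)) * wt M u * β k u + (w (some none) - w none) * γ k) +
          w none * sg j0 k := by
      intro k
      rw [Fintype.sum_option, Fintype.sum_option]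
      have e1 : ∑ u : S₀, w (some (some u)) * Bm j0 M S₀ β γ (some (some u)) k =
          ∑ u : S₀, w (some (some u)) * wt M u * β k u := by
        refine Finset.sum_congr rfl fun u _ => ?_
        show w (some (some u)) * (wt M u * β k u) = _
        ring
      have e2 : Bm j0 M S₀ β γ none k = -γ k + sg j0 k := rfl
      have e3 : Bm j0 M S₀ β γ (some none) k = γ k := rfl
      rw [e1, e2, e3]
      ring
    by_cases h0 : w none = 0
    · obtain ⟨k, -, hk⟩ := hj0 (fun u => w (some (some u)) * wt M u)
        (w (some none) - w none) (by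
        by_cases h00 : w (some none) = 0
        · obtain ⟨u, hu⟩ := hw
          rcases u with _ | _ | u
          · exact absurd h0 hu
          · exact absurd h00 hu
          · exact Or.inl ⟨u, mul_ne_zero hu (wt_ne M u)⟩
        · refine Or.inr ?_
          rw [h0, sub_zero]
          exact h00)
      refine ⟨k, ?_⟩
      rw [hsum k, h0, zero_mul, add_zero]
      rw [h0] at hk
      exact hk
    · by_cases h00 : (∃ u : S₀, w (some (some u)) * wt M u ≠ 0) ∨ w (some none) - w none ≠ 0
      · obtain ⟨k, hkj, hk⟩ := hj0 (fun u => w (some (some u)) * wt M u)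
          (w (some none) - w none) h00
        refine ⟨k, ?_⟩
        rw [hsum k, sg_ne hkj, mul_zero, add_zero]
        exact hk
      · push Not at h00
        refine ⟨j0, ?_⟩
        rw [hsum j0, sg_self, h00.2, zero_mul, add_zero, mul_one,
          Finset.sum_eq_zero (fun u _ => by rw [h00.1 u, zero_mul]), zero_add]
        exact h0
  · rintro p ⟨h1, h2, h3, h4, h5⟩ hl
    rw [gdc_iff t j0 hM h1 h2 hS₀ h3 (by
      rw [← hneu]
      exact congrArg _ (Finset.sum_congr rfl fun l _ => congrFun h4 l)), h4]
    subst hl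
    exact Iff.rfl

/-- the description of the condition `GdW` -/
theorem loc_W (y : ZMod 3) : LocD (Fy y) GdW := by
  intro ι _ _ M S₀ γ δ hM hS₀ hcard
  rcases fy_cases y (γ := γ) (δ := δ) hM with h | ⟨-, hF⟩
  · exact Or.inl h
  refine Or.inr ⟨hF, fun β hβ => ?_⟩
  have hιne : Nonempty ι := Fintype.card_pos_iff.1 (by omega)
  obtain ⟨k₀⟩ := hιne
  refine ⟨S₀, inferInstance, fun u v => wt M u * wt M v * cs u v, fun u l => wt M u * β l u,
    ?_, ?_, ?_, ?_⟩
  · rw [Fintype.card_coe]
    omega
  · intro u v
    show wt M u * wt M v * cs u v = wt M v * wt M u * cs v u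
    rw [cs_symm (hS₀ u u.2) (hS₀ v v.2), mul_comm (wt M u) (wt M v)]
  · intro w hw
    obtain ⟨u, hu⟩ := hw
    obtain ⟨k, hk⟩ := hβ (fun u => w u * wt M u) 0 0 (Or.inl ⟨u, mul_ne_zero hu (wt_ne M u)⟩)
    refine ⟨k, fun h0 => hk ?_⟩
    rw [zero_mul, zero_mul, add_zero, add_zero, ← h0]
    exact Finset.sum_congr rfl fun u _ => mul_assoc _ _ _
  · rintro p ⟨h1, h2, h3, h4, h5⟩ hl
    rw [gdw_iff hM h1 h2 hS₀ h3 k₀]
    subst hl
    exact Iff.rfl

/-- the description of the condition `GdP` -/
theorem loc_P (r s : ZMod 3) (hs : s ≠ 0) : LocD Ft (GdP r s) := by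
  intro ι _ _ M S₀ γ δ hM hS₀ hcard
  refine Or.inr ⟨fun _ _ => trivial, fun β hβ => ?_⟩
  refine ⟨Option S₀, inferInstance, Pool.Agent.D0H69.L3K.Box.Am (qG r s) 1 M S₀,
    Pool.Agent.D0H69.L3K.Box.Bm 1 M S₀ β (fun k => r * γ k + s * δ k), ?_, ?_, ?_, ?_⟩
  · rw [Fintype.card_option, Fintype.card_coe]
    omega
  · intro u v
    cases u with
    | none => cases v with
      | none => rfl
      | some v => rfl
    | some u => cases v with
      | none => rfl
      | some v =>
        show wt M u * wt M v * cs u v = wt M v * wt M u * cs v u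
        rw [cs_symm (hS₀ u u.2) (hS₀ v v.2), mul_comm (wt M u) (wt M v)]
  · intro w hw
    obtain ⟨k, hk⟩ := hβ (fun u => w (some u) * wt M u) (w none * r) (w none * s) (by
      obtain ⟨u, hu⟩ := hw
      cases u with
      | none => exact Or.inr (Or.inr (mul_ne_zero hu hs))
      | some u => exact Or.inl ⟨u, mul_ne_zero hu (wt_ne M u)⟩)
    refine ⟨k, fun h0 => hk ?_⟩
    rw [← h0, Fintype.sum_option]
    have e1 : ∑ u : S₀, w (some u) * Pool.Agent.D0H69.L3K.Box.Bm 1 M S₀ β
        (fun k => r * γ k + s * δ k) (some u) k = ∑ u : S₀, w (some u) * wt M u * β k u := by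
      refine Finset.sum_congr rfl fun u _ => ?_
      show w (some u) * (wt M u * β k u) = _
      ring
    have e2 : Pool.Agent.D0H69.L3K.Box.Bm 1 M S₀ β (fun k => r * γ k + s * δ k) none k =
      1 * (r * γ k + s * δ k) := rfl
    rw [e1, e2]
    ring
  · rintro p ⟨h1, h2, h3, h4, h5⟩ hl
    have e1 : GdP r s M (S₀ ∪ univ.image p) ↔ GdT (qG r s) 1 M (S₀ ∪ univ.image p) := by
      unfold GdP GdT
      simp only [one_mul]
    have e2 : (fun k => qG r s (p k)) = fun k => r * γ k + s * δ k := by
      funext k
      unfold qG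
      rw [← h4, ← h5]
    rw [e1, Pool.Agent.D0H69.L3K.Box.gdb_iff hM h1 h2 hS₀ h3, e2]
    subst hl
    exact Iff.rfl

end Pool.Agent.D0H50.JL
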