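import Pool.Agent.D0H50.JL.Cnd
import Pool.Agent.D0H50.JL.Gen
import Pool.Agent.D0H10.L9D.Box

/-!
# Project JL: the systems with potential and border as block systems

Adapted from the file `D0H10/L9D/Box.lean` of helper10.
-/

set_option autoImplicit false

open scoped Classical

namespace Pool.Agent.D0H50.JL

open Finset
open Pool.Agent.Y692.QS (Ei)
open Pool.Agent.Y715.T.Rec (cs)
open Pool.Agent.Y715.T.RecG (Pq)
open Pool.Agent.Y703.XK (prs HB S_EQ S_LA GdA c9)
open Pool.Agent.Y688.XK (lb cs_symm sum_un ext_sum HB_sub ez0 ez0_coe)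
open Pool.Agent.R419.KF (wt wt_one wt_ne)
open Pool.Agent.N883.FF (nq)
open Pool.Agent.D0H43.L3 (yq)
open Pool.Agent.D0H69.L3K.Box (lap_sum)
open Pool.Agent.D0H10.L9D.Box (LNB)

namespace BoxG

/-- the matrix of the small primes, of `ω` and of `9` -/
noncomputable def Am (r s z : ZMod 3) (M S₀ : Finset Ei) :
    Option (Option S₀) → Option (Option S₀) → ZMod 3
  | some (some u), some (some v) => wt M u * wt M v * cs u v
  | some none, some (some u) => wt M u * nq u
  | some (some u), some none => wt M u * nq u
  | none, some (some u) => wt M u * ((r - 1) * nq u + s * yq u)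
  | some (some u), none => wt M u * ((r - 1) * nq u + s * yq u)
  | none, some none => z
  | some none, none => z
  | some none, some none => 0
  | none, none => 0

/-- the matrix of the labels -/
noncomputable def Bm {ι : Type} (r s : ZMod 3) (M S₀ : Finset Ei) (β : ι → S₀ → ZMod 3)
    (γ δ : ι → ZMod 3) : Option (Option S₀) → ι → ZMod 3
  | some (some u), l => wt M u * β l u
  | some none, l => γ l
  | none, l => (r - 1) * γ l + s * δ l

/-- the entry at `ω`, `9` -/
noncomputable def zz0 {ι : Type} [Fintype ι] (t : ZMod 3) (M S₀ : Finset Ei) (γ : ι → ZMod 3) :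
    ZMod 3 := t - (∑ u : S₀, wt M u * nq u + ∑ l, γ l)

section one
variable {ι : Type} [Fintype ι] [LinearOrder ι] {r s t : ZMod 3} {M S₀ : Finset Ei} {p : ι → Ei}

theorem gdb_iff (hM : M ⊆ S₀) (hp : Function.Injective p) (hpr : ∀ k, Pq (p k))
    (hS₀ : ∀ u ∈ S₀, Pq u) (hd : ∀ k, p k ∉ S₀) :
    GdG r s t M (S₀ ∪ univ.image p) ↔ GdA (Am r s (zz0 t M S₀ fun k => nq (p k)) M S₀)
      (Bm r s M S₀ (fun k => lb S₀ (p k)) (fun k => nq (p k)) (fun k => yq (p k)))
      (Pool.Agent.Y703.XK.ext fun e : prs ι => cs (p e.1.1) (p e.1.2)) := by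
  have hw : ∀ k, wt M (p k) = 1 := fun k => wt_one fun h => hd k (hM h)
  have hPS : ∀ x ∈ S₀ ∪ univ.image p, Pq x := by
    intro x hx
    rw [Finset.mem_union, Finset.mem_image] at hx
    rcases hx with hx | ⟨k, -, rfl⟩
    · exact hS₀ x hx
    · exact hpr k
  obtain ⟨z, hz⟩ : ∃ z : ZMod 3, z = zz0 t M S₀ fun k => nq (p k) := ⟨_, rfl⟩
  have hz' : z = t - (∑ u : S₀, wt M u * nq u + ∑ l, nq (p l)) := hz
  rw [← hz]
  -- the rows of the block system
  have hrowu : ∀ (c : Option (Option S₀) → ZMod 3) (d : ι → ZMod 3) (u : S₀),
      (∑ v, Am r s z M S₀ (some (some u)) v * (c v - c (some (some u))) +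
        ∑ l, Bm r s M S₀ (fun k => lb S₀ (p k)) (fun k => nq (p k)) (fun k => yq (p k))
          (some (some u)) l * (d l - c (some (some u)))) =
      wt M u * (∑ v : S₀, wt M v * cs u v * (c (some (some v)) - c (some (some u))) +
        ∑ l, cs u (p l) * (d l - c (some (some u))) + (c (some none) - c none) * nq u -
          qG r s u * (c (some (some u)) - c none)) := by
    intro c d u
    rw [Fintype.sum_option, Fintype.sum_option]
    have e1 : ∑ v : S₀, Am r s z M S₀ (some (some u)) (some (some v)) *
        (c (some (some v)) - c (some (some u))) =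
        wt M u * ∑ v : S₀, wt M v * cs u v * (c (some (some v)) - c (some (some u))) := by
      rw [Finset.mul_sum]
      refine Finset.sum_congr rfl fun v _ => ?_
      show wt M u * wt M v * cs u v * (c (some (some v)) - c (some (some u))) = _
      ring
    have e2 : ∑ l, Bm r s M S₀ (fun k => lb S₀ (p k)) (fun k => nq (p k)) (fun k => yq (p k))
        (some (some u)) l * (d l - c (some (some u))) =
          wt M u * ∑ l, cs u (p l) * (d l - c (some (some u))) := by
      rw [Finset.mul_sum]
      refine Finset.sum_congr rfl fun l _ => ?_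
      show wt M u * cs u (p l) * (d l - c (some (some u))) = _
      ring
    have e3 : Am r s z M S₀ (some (some u)) none = wt M u * ((r - 1) * nq u + s * yq u) := rfl
    have e4 : Am r s z M S₀ (some (some u)) (some none) = wt M u * nq u := rfl
    rw [e1, e2, e3, e4]
    unfold qG
    ring
  have hrowo : ∀ (c : Option (Option S₀) → ZMod 3) (d : ι → ZMod 3),
      (∑ v, Am r s z M S₀ (some none) v * (c v - c (some none)) +
        ∑ l, Bm r s M S₀ (fun k => lb S₀ (p k)) (fun k => nq (p k)) (fun k => yq (p k))
          (some none) l * (d l - c (some none))) =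
      ∑ v : S₀, wt M v * nq v * (c (some (some v)) - c none) + ∑ l, nq (p l) * (d l - c none) -
        t * (c (some none) - c none) := by
    intro c d
    rw [Fintype.sum_option, Fintype.sum_option]
    have e1 : Am r s z M S₀ (some none) (some none) = 0 := rfl
    have e3 : Am r s z M S₀ (some none) none = z := rfl
    have e2 : ∑ v : S₀, Am r s z M S₀ (some none) (some (some v)) *
        (c (some (some v)) - c (some none)) =
        ∑ v : S₀, wt M v * nq v * (c (some (some v)) - c none) -
          (∑ v : S₀, wt M v * nq v) * (c (some none) - c none) := by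
      rw [Finset.sum_mul, ← Finset.sum_sub_distrib]
      refine Finset.sum_congr rfl fun v _ => ?_
      show wt M v * nq v * (c (some (some v)) - c (some none)) = _
      ring
    have e4 : ∑ l, Bm r s M S₀ (fun k => lb S₀ (p k)) (fun k => nq (p k)) (fun k => yq (p k))
        (some none) l * (d l - c (some none)) =
        ∑ l, nq (p l) * (d l - c none) - (∑ l, nq (p l)) * (c (some none) - c none) := by
      rw [Finset.sum_mul, ← Finset.sum_sub_distrib]
      refine Finset.sum_congr rfl fun l _ => ?_
      show nq (p l) * (d l - c (some none)) = _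
      ring
    rw [e1, e2, e3, e4, hz']
    ring
  have hrown : ∀ (c : Option (Option S₀) → ZMod 3) (d : ι → ZMod 3),
      (∑ v, Am r s z M S₀ none v * (c v - c none) +
        ∑ l, Bm r s M S₀ (fun k => lb S₀ (p k)) (fun k => nq (p k)) (fun k => yq (p k))
          none l * (d l - c none)) =
      (∑ v : S₀, wt M v * qG r s v * (c (some (some v)) - c none) +
        ∑ l, qG r s (p l) * (d l - c none)) -
      (∑ v : S₀, wt M v * nq v * (c (some (some v)) - c none) +
        ∑ l, nq (p l) * (d l - c none)) + z * (c (some none) - c none) := by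
    intro c d
    rw [Fintype.sum_option, Fintype.sum_option]
    have e1 : Am r s z M S₀ none none = 0 := rfl
    have e3 : Am r s z M S₀ none (some none) = z := rfl
    have e2 : ∑ v : S₀, Am r s z M S₀ none (some (some v)) * (c (some (some v)) - c none) =
        ∑ v : S₀, wt M v * qG r s v * (c (some (some v)) - c none) -
          ∑ v : S₀, wt M v * nq v * (c (some (some v)) - c none) := by
      rw [← Finset.sum_sub_distrib]
      refine Finset.sum_congr rfl fun v _ => ?_
      show wt M v * ((r - 1) * nq v + s * yq v) * (c (some (some v)) - c none) = _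
      unfold qG
      ring
    have e4 : ∑ l, Bm r s M S₀ (fun k => lb S₀ (p k)) (fun k => nq (p k)) (fun k => yq (p k))
        none l * (d l - c none) =
        ∑ l, qG r s (p l) * (d l - c none) - ∑ l, nq (p l) * (d l - c none) := by
      rw [← Finset.sum_sub_distrib]
      refine Finset.sum_congr rfl fun l _ => ?_
      show ((r - 1) * nq (p l) + s * yq (p l)) * (d l - c none) = _
      unfold qG
      ring
    rw [e1, e2, e3, e4]
    ring
  have hrowk : ∀ (c : Option (Option S₀) → ZMod 3) (d : ι → ZMod 3) (k : ι),
      (∑ u, Bm r s M S₀ (fun k => lb S₀ (p k)) (fun k => nq (p k)) (fun k => yq (p k)) u k *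
          (c u - d k) +
        ∑ l, Pool.Agent.Y703.XK.ext (fun e : prs ι => cs (p e.1.1) (p e.1.2)) k l *
          (d l - d k)) =
      ∑ u : S₀, wt M u * cs (p k) u * (c (some (some u)) - d k) +
        ∑ l, cs (p k) (p l) * (d l - d k) + (c (some none) - c none) * nq (p k) -
        qG r s (p k) * (d k - c none) := by
    intro c d k
    rw [Fintype.sum_option, Fintype.sum_option, ext_sum hpr k d]
    have e1 : Bm r s M S₀ (fun k => lb S₀ (p k)) (fun k => nq (p k)) (fun k => yq (p k)) none k =
      (r - 1) * nq (p k) + s * yq (p k) := rfl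
    have e3 : Bm r s M S₀ (fun k => lb S₀ (p k)) (fun k => nq (p k)) (fun k => yq (p k))
      (some none) k = nq (p k) := rfl
    have e2 : ∑ u : S₀, Bm r s M S₀ (fun k => lb S₀ (p k)) (fun k => nq (p k)) (fun k => yq (p k))
        (some (some u)) k * (c (some (some u)) - d k) =
          ∑ u : S₀, wt M u * cs (p k) u * (c (some (some u)) - d k) := by
      refine Finset.sum_congr rfl fun u _ => ?_
      show wt M u * cs u (p k) * (c (some (some u)) - d k) = _
      rw [cs_symm (hpr k) (hS₀ u u.2)]
    rw [e1, e2, e3]
    unfold qG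
    ring
  unfold GdG GdA
  constructor
  · intro h c d h1 h2
    obtain ⟨c', hc'⟩ : ∃ c' : Ei → ZMod 3, ∀ n, c' n = if h : n ∈ S₀ then
      c (some (some ⟨n, h⟩)) - c none
      else if h : ∃ l, p l = n then d h.choose - c none else 0 := ⟨_, fun n => rfl⟩
    have e1 : ∀ u : S₀, c' u = c (some (some u)) - c none := by
      intro u
      rw [hc', dif_pos u.2]
    have e2 : ∀ l, c' (p l) = d l - c none := by
      intro l
      have hex : ∃ l', p l' = p l := ⟨l, rfl⟩
      rw [hc', dif_neg (hd l), dif_pos hex]
      exact congrArg (fun l => d l - c none) (hp hex.choose_spec)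
    obtain ⟨h3, h3a⟩ := h c' (c (some none) - c none) (by
      intro x hx
      rw [sum_un hp hd]
      simp only [hw, one_mul, e1, e2]
      rw [Finset.mem_union, Finset.mem_image] at hx
      rcases hx with hx | ⟨k, -, rfl⟩
      · have h4 := h1 (some (some ⟨x, hx⟩))
        rw [hrowu] at h4
        have h5 := (mul_eq_zero.1 h4).resolve_left (wt_ne M _)
        have h6 : c' x = c (some (some ⟨x, hx⟩)) - c none := e1 ⟨x, hx⟩
        rw [h6]
        rw [← sub_eq_zero, ← h5]
        simp only [sub_sub_sub_cancel_right]
      · have h4 := h2 k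
        rw [hrowk] at h4
        rw [e2 k, ← sub_eq_zero, ← h4]
        simp only [sub_sub_sub_cancel_right]) (by
      have h4 := h1 (some none)
      rw [hrowo] at h4
      rw [sum_un hp hd]
      simp only [hw, one_mul, e1, e2]
      rw [← sub_eq_zero, ← h4]
      congr 2
      · exact Finset.sum_congr rfl fun u _ => by ring
      · exact Finset.sum_congr rfl fun l _ => by ring)
    refine ⟨c none, fun u => ?_, fun l => ?_⟩
    · cases u with
      | none => rfl
      | some u =>
        cases u with
        | none => exact sub_eq_zero.1 h3a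
        | some u =>
          have h4 := h3 u (Finset.mem_union_left _ u.2)
          rw [e1] at h4
          exact sub_eq_zero.1 h4
    · have h4 := h3 (p l) (Finset.mem_union_right _ (Finset.mem_image_of_mem _ (Finset.mem_univ _)))
      rw [e2] at h4
      exact sub_eq_zero.1 h4
  · intro h v a hv ha
    -- the row of `9`
    have hn : ∑ x ∈ S₀ ∪ univ.image p, wt M x * qG r s x * v x =
        a * ∑ x ∈ S₀ ∪ univ.image p, wt M x * nq x := by
      have h1 := lap_sum (S₀ ∪ univ.image p) (fun x y => wt M x * wt M y * cs x y)
        (fun x hx y hy => by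
          show wt M x * wt M y * cs x y = wt M y * wt M x * cs y x
          rw [cs_symm (hPS x hx) (hPS y hy)]
          ring) v
      have h2 : ∑ x ∈ S₀ ∪ univ.image p, wt M x * qG r s x * v x -
          a * ∑ x ∈ S₀ ∪ univ.image p, wt M x * nq x = ∑ x ∈ S₀ ∪ univ.image p,
            ∑ y ∈ S₀ ∪ univ.image p, wt M x * wt M y * cs x y * (v y - v x) := by
        rw [Finset.mul_sum, ← Finset.sum_sub_distrib]
        refine Finset.sum_congr rfl fun x hx => ?_
        have h2 := hv x hx
        calc wt M x * qG r s x * v x - a * (wt M x * nq x) =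
            wt M x * (qG r s x * v x - a * nq x) := by ring
          _ = wt M x * ∑ ρ ∈ S₀ ∪ univ.image p, wt M ρ * cs x ρ * (v ρ - v x) := by
              rw [← h2, add_sub_cancel_right]
          _ = _ := by
              rw [Finset.mul_sum]
              exact Finset.sum_congr rfl fun y _ => by ring
      rw [h1] at h2
      exact sub_eq_zero.1 h2
    obtain ⟨c, hc0, hca, hc1⟩ : ∃ c : Option (Option S₀) → ZMod 3, c none = 0 ∧
        c (some none) = a ∧ ∀ u : S₀, c (some (some u)) = v u :=
      ⟨fun o => o.elim 0 fun o => o.elim a fun u => v u, rfl, rfl, fun u => rfl⟩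
    have hse : ∀ f : Ei → ZMod 3, ∑ x ∈ S₀ ∪ univ.image p, f x =
        ∑ u : S₀, f u + ∑ l, f (p l) := sum_un hp hd
    rw [hse, hse] at hn
    simp only [hw, one_mul] at hn
    rw [hse] at ha
    simp only [hw, one_mul] at ha
    obtain ⟨t', ht1, ht2⟩ := h c (fun l => v (p l)) (by
      intro u
      cases u with
      | none =>
        rw [hrown]
        simp only [hc0, hc1, hca, sub_zero]
        rw [hn, hz']
        have e1 : ∑ v_1 : S₀, wt M v_1 * nq v_1 * v v_1 + ∑ l, nq (p l) * v (p l) = t * a := by
          rw [← ha]
          congr 1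
          · exact Finset.sum_congr rfl fun u _ => by ring
          · exact Finset.sum_congr rfl fun l _ => by ring
        rw [e1]
        ring
      | some u =>
        cases u with
        | none =>
          rw [hrowo]
          simp only [hc0, hc1, hca, sub_zero]
          rw [← ha, sub_eq_zero]
          congr 1
          · exact Finset.sum_congr rfl fun u _ => by ring
          · exact Finset.sum_congr rfl fun l _ => by ring
        | some u =>
          rw [hrowu]
          simp only [hc0, hc1, hca, sub_zero]
          have h2 := hv u (Finset.mem_union_left _ u.2)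
          rw [sum_un hp hd] at h2
          simp only [hw, one_mul] at h2
          rw [h2, sub_self, mul_zero]) (by
      intro k
      refine (hrowk c (fun l => v (p l)) k).trans ?_
      simp only [hc0, hc1, hca, sub_zero]
      have h2 := hv (p k) (Finset.mem_union_right _ (Finset.mem_image_of_mem _ (Finset.mem_univ _)))
      rw [sum_un hp hd] at h2
      simp only [hw, one_mul] at h2
      rw [h2, sub_self])
    have ht : t' = 0 := by rw [← ht1 none, hc0]
    refine ⟨?_, ?_⟩
    · intro x hx
      rw [Finset.mem_union, Finset.mem_image] at hx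
      rcases hx with hx | ⟨k, -, rfl⟩
      · have := ht1 (some (some ⟨x, hx⟩))
        rw [hc1, ht] at this
        exact this
      · have := ht2 k
        rw [ht] at this
        exact this
    · have := ht1 (some none)
      rw [hca, ht] at this
      exact this

end one

end BoxG

open BoxG in
/-- the description of the condition `GdG` -/
theorem loc_G (r s t : ZMod 3) (hs : s ≠ 0) : LocD Ft (GdG r s t) := by
  intro ι _ _ M S₀ γ δ hM hS₀ hcard
  refine Or.inr ⟨fun _ _ => trivial, fun β hβ => ?_⟩
  refine ⟨Option (Option S₀), inferInstance, Am r s (zz0 t M S₀ γ) M S₀, Bm r s M S₀ β γ δ,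
    ?_, ?_, ?_, ?_⟩
  · rw [Fintype.card_option, Fintype.card_option, Fintype.card_coe]
  · intro u v
    rcases u with _ | _ | u <;> rcases v with _ | _ | v
    · rfl
    · rfl
    · rfl
    · rfl
    · rfl
    · rfl
    · rfl
    · rfl
    · show wt M u * wt M v * cs u v = wt M v * wt M u * cs v u
      rw [cs_symm (hS₀ u u.2) (hS₀ v v.2), mul_comm (wt M u) (wt M v)]
  · intro w hw
    obtain ⟨k, hk⟩ := hβ (fun u => w (some (some u)) * wt M u)
      (w (some none) + w none * (r - 1)) (w none * s) (by
      by_cases h0 : w none = 0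
      · by_cases h00 : w (some none) = 0
        · obtain ⟨u, hu⟩ := hw
          rcases u with _ | _ | u
          · exact absurd h0 hu
          · exact absurd h00 hu
          · exact Or.inl ⟨u, mul_ne_zero hu (wt_ne M u)⟩
        · refine Or.inr (Or.inl ?_)
          rw [h0, zero_mul, add_zero]
          exact h00
      · exact Or.inr (Or.inr (mul_ne_zero h0 hs)))
    refine ⟨k, fun h0 => hk ?_⟩
    rw [← h0, Fintype.sum_option, Fintype.sum_option]
    have e1 : ∑ u : S₀, w (some (some u)) * Bm r s M S₀ β γ δ (some (some u)) k =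
        ∑ u : S₀, w (some (some u)) * wt M u * β k u := by
      refine Finset.sum_congr rfl fun u _ => ?_
      show w (some (some u)) * (wt M u * β k u) = _
      ring
    have e2 : Bm r s M S₀ β γ δ none k = (r - 1) * γ k + s * δ k := rfl
    have e3 : Bm r s M S₀ β γ δ (some none) k = γ k := rfl
    rw [e1, e2, e3]
    ring
  · rintro p ⟨h1, h2, h3, h4, h5⟩ hl
    rw [gdb_iff hM h1 h2 hS₀ h3, h4, h5]
    subst hl
    exact Iff.rfl

end Pool.Agent.D0H50.JL
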