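import Pool.Agent.D0H50.JL.Stm
import Pool.Agent.R419.KF.Defs

/-!
# Project JL: the conditions
-/

set_option autoImplicit false
set_option linter.unusedVariables false

open scoped Classical

namespace Pool.Agent.D0H50.JL

open Finset
open Pool.Agent.Y692.QS (Ei w nr toC)
open Pool.Agent.Y715.T.Rec (cs)
open Pool.Agent.R419.KF (wt)
open Pool.Agent.N883.FF (nq)
open Pool.Agent.D0H43.L3 (yq)
open Pool.Agent.D0H69.L0D (NtS)

/-- the potential -/
def qG (r s : ZMod 3) (π : Ei) : ZMod 3 := r * nq π + s * yq π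

/-- all solutions of the system with the potential `r nq + s yq` are zero -/
def GdP (r s : ZMod 3) (M S : Finset Ei) : Prop :=
  ∀ v : Ei → ZMod 3, (∀ π ∈ S, ∑ ρ ∈ S, wt M ρ * cs π ρ * (v ρ - v π) = qG r s π * v π) →
    ∀ π ∈ S, v π = 0

/-- all solutions of the system with the potential `r nq + s yq`, the border `nq` and the corner `t`
are zero -/
def GdG (r s t : ZMod 3) (M S : Finset Ei) : Prop :=
  ∀ (v : Ei → ZMod 3) (a : ZMod 3),
    (∀ π ∈ S, ∑ ρ ∈ S, wt M ρ * cs π ρ * (v ρ - v π) + a * nq π = qG r s π * v π) →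
    ∑ ρ ∈ S, wt M ρ * v ρ * nq ρ = t * a → (∀ π ∈ S, v π = 0) ∧ a = 0

/-- all solutions of the system without potential, with the border `nq` and the corner `t` are
constant -/
def GdC (t : ZMod 3) (M S : Finset Ei) : Prop :=
  ∀ (v : Ei → ZMod 3) (a : ZMod 3),
    (∀ π ∈ S, ∑ ρ ∈ S, wt M ρ * cs π ρ * (v ρ - v π) + a * nq π = 0) →
    ∑ ρ ∈ S, wt M ρ * v ρ * nq ρ + a * t = 0 →
    (∀ π ∈ S, ∀ ρ ∈ S, v π = v ρ) ∧ a = 0

/-- the element has `nq = 0` and `yq = y` -/
def Fy (y : ZMod 3) (M S : Finset Ei) : Prop := NtS M S ∧ ∑ π ∈ S, wt M π * yq π = y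

/-- no condition -/
def Ft (M S : Finset Ei) : Prop := True

end Pool.Agent.D0H50.JL
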