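import Pool.Agent.N883.FF.Den3
import Pool.Agent.N883.FF.Lim
import Pool.Agent.D0H43.L3.Chi
import Pool.Agent.D0H50.JL.Cnd

/-!
# Project JL: the cube-free primary elements are equidistributed in the classes modulo nine

Adapted from `N883/FF/Den3.lean` of helper169: the classes of norm `1` modulo `9` and given `yq`.
-/

set_option autoImplicit false
set_option linter.unusedVariables false

open scoped Classical

namespace Pool.Agent.D0H50.JL

open Finset
open Pool.Agent.Y692.QS (Ei w nr toC nr_mul nr_nonneg)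
open Pool.Agent.Y715.T.RecG (Pq)
open Pool.Agent.Y699.E (ez nrm QB ZB PB prm mem_ZB mem_QB csum nrm_cast nrm_eq' nrm_mul nrm_ne nrm_pos'
  prm_mul prm_cancel prm_ne_zero prm_one norm_ez ez_add ez_ne ez_zero sum_ez norm_le_of_dvd
  exists_PP not_dvd_three card_ZB_le pq_ne)
open Pool.Agent.N883.FF (nq ClP)
open Pool.Agent.N883.FF.Den3 (G q0 q0_ne q0_cop nine_ne prm_per nq_per nq_mul CF CF_sub diff_card
  card_CF nq_zero)
open Pool.Agent.D0H43.L3 (yq)
open Pool.Agent.D0H43.L3.Chi (yq_mul yq_one nq_one tq_congr)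

/-- a cubic character modulo nine on the primary elements -/
structure ChA (χ : Ei → ZMod 3) : Prop where
  mul : ∀ a b : Ei, prm a → prm b → χ (a * b) = χ a + χ b
  per : ∀ a b : Ei, (9 : Ei) ∣ a - b → prm a → χ a = χ b
  ex : ∃ x : Ei, χ (1 + 3 * x) ≠ 0

lemma cop_prm {a : Ei} (h : prm a) : IsCoprime a 3 := by
  obtain ⟨c, hc⟩ := h
  exact ⟨1, -c, by linear_combination hc⟩

lemma yq_per {a b : Ei} (h : (9 : Ei) ∣ a - b) : yq a = yq b := by
  obtain ⟨t, ht⟩ := h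
  have h1 := tq_congr 0 ht
  unfold Pool.Agent.D0H43.L3.tq at h1
  rw [zero_mul, zero_mul, zero_add, zero_add] at h1
  exact h1

theorem cha (t s : ZMod 3) (h : t ≠ 0 ∨ s ≠ 0) : ChA (fun a => t * nq a + s * yq a) := by
  refine ⟨fun a b ha hb => ?_, fun a b hab ha => ?_, ?_⟩
  · rw [nq_mul ha hb, yq_mul (cop_prm ha) (cop_prm hb)]
    ring
  · rw [nq_per hab ha, yq_per hab]
  · by_cases ht : t = 0
    · refine ⟨w, ?_⟩
      rw [ht, zero_mul, zero_add, yq_one]
      have h1 : (w : Ei).im = 1 := rfl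
      rw [h1, Int.cast_one, mul_one]
      exact h.resolve_left fun h' => h' ht
    · refine ⟨1, ?_⟩
      rw [nq_one, yq_one]
      have h1 : (1 : Ei).re = 1 := by decide
      have h2 : (1 : Ei).im = 0 := by decide
      rw [h1, h2, add_zero, Int.cast_one, Int.cast_zero, mul_zero, add_zero, mul_neg, mul_one]
      exact neg_ne_zero.2 ht

/-- cancellation of the character sum -/
theorem csum9 (P : ℕ) {χ : Ei → ZMod 3} (hχ : ChA χ) (V : ℕ) :
    ‖∑ a ∈ (ZB V).filter (G P), ez (χ a)‖ ≤ 3 * nrm (9 * q0 P) * (3 * Real.sqrt V + 1) := by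
  rw [sum_filter]
  obtain ⟨x, y, hxy⟩ := q0_cop P
  obtain ⟨g, hg⟩ := hχ.ex
  set c : Ei := 1 + 3 * g * (x * q0 P) with hc
  have hc4 : (9 : Ei) ∣ (1 + 3 * g) - c := ⟨3 * g * y, by
    rw [hc]; linear_combination (-3 * g : Ei) * hxy⟩
  have hprm : prm c := prm_per hc4 ⟨g, by ring⟩
  have hnq : χ c ≠ 0 := by
    rw [← hχ.per _ _ hc4 ⟨g, by ring⟩]
    exact hg
  have hcop0 : IsCoprime c (q0 P) := ⟨1, -(3 * g * x), by rw [hc]; ring⟩
  have hcop9 : IsCoprime c 9 := by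
    have h9 : (9 : Ei) = 3 ^ 2 := by norm_num
    rw [h9]
    exact (cop_prm hprm).pow_right
  have hz : ez (χ c) ≠ 1 := ez_ne hnq
  have hGc : ∀ a, G P (c * a) ↔ G P a := by
    intro a
    unfold G
    refine and_congr ⟨fun h => prm_cancel hprm h, fun h => prm_mul hprm h⟩ ?_
    refine forall₂_congr fun π hπ => not_congr ?_
    have h1 : IsCoprime (π ^ 3) c := by
      have h2 : π ^ 3 ∣ q0 P := dvd_prod_of_mem (fun π => π ^ 3) hπ
      exact (hcop0.symm).of_isCoprime_of_dvd_left h2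
    exact ⟨fun h => h1.dvd_of_dvd_mul_left h, fun h => h.mul_left _⟩
  refine csum (mul_ne_zero nine_ne (q0_ne P)) ?_ ?_ (IsCoprime.mul_right hcop9 hcop0) hz ?_ V
  · intro a b hab
    have h9 : (9 : Ei) ∣ a - b := (dvd_mul_right _ _).trans hab
    have h0 : q0 P ∣ a - b := (dvd_mul_left _ _).trans hab
    have hG : ∀ a b : Ei, (9 : Ei) * q0 P ∣ a - b → G P a → G P b := by
      intro a b hab h
      have h9 : (9 : Ei) ∣ a - b := (dvd_mul_right _ _).trans hab
      have h0 : q0 P ∣ a - b := (dvd_mul_left _ _).trans hab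
      refine ⟨prm_per h9 h.1, fun π hπ hd => h.2 π hπ ?_⟩
      have h2 : π ^ 3 ∣ q0 P := dvd_prod_of_mem (fun π => π ^ 3) hπ
      have h3 : a = (a - b) + b := by ring
      rw [h3]
      exact dvd_add (h2.trans h0) hd
    by_cases hGa : G P a
    · rw [if_pos hGa, if_pos (hG a b hab hGa), hχ.per a b h9 hGa.1]
    · have hGb : ¬ G P b := fun h => hGa (hG b a (by rw [← neg_sub]; exact (dvd_neg).2 hab) h)
      rw [if_neg hGa, if_neg hGb]
  · intro a
    split_ifs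
    · rw [norm_ez]
    · rw [norm_zero]; norm_num
  · intro a
    by_cases h : G P a
    · rw [if_pos h, if_pos ((hGc a).2 h), hχ.mul c a hprm h.1, ez_add]
    · rw [if_neg h, if_neg (fun hh => h ((hGc a).1 hh)), mul_zero]

/-- the character sums over the cube-free elements are small -/
theorem small9 {χ : Ei → ZMod 3} (hχ : ChA χ) : ∀ ε : ℝ, 0 < ε → ∃ X₀ : ℕ, ∀ X : ℕ, X₀ ≤ X →
    ‖∑ a ∈ CF X, ez (χ a)‖ ≤ ε * X := by
  intro ε hε
  obtain ⟨C, hC, hD⟩ := diff_card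
  obtain ⟨P, hP⟩ := exists_nat_ge (2 * C / ε + 1)
  have hP1 : 1 ≤ P := by
    have : (1 : ℝ) ≤ P := le_trans (by have : 0 ≤ 2 * C / ε := by positivity
                                       linarith) hP
    exact_mod_cast this
  have hP0 : (0 : ℝ) < P := by exact_mod_cast hP1
  set K : ℝ := 3 * nrm (9 * q0 P) with hK
  have hK0 : 0 ≤ K := by rw [hK]; positivity
  obtain ⟨X₀, hX₀⟩ := exists_nat_ge ((8 * K / ε) ^ 2 + 1)
  refine ⟨X₀, fun X hX => ?_⟩
  have hX1 : (8 * K / ε) ^ 2 + 1 ≤ (X : ℝ) := hX₀.trans (by exact_mod_cast hX)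
  have hXone : (1 : ℝ) ≤ X := by nlinarith [sq_nonneg (8 * K / ε)]
  have hsq : 8 * K / ε ≤ Real.sqrt X := by
    refine Real.le_sqrt_of_sq_le ?_
    linarith
  have hs1 : 1 ≤ Real.sqrt X := Real.one_le_sqrt.2 hXone
  have hss : Real.sqrt X * Real.sqrt X = X := Real.mul_self_sqrt (by positivity)
  have h1 : ∑ a ∈ CF X, ez (χ a) = ∑ a ∈ (ZB X).filter (G P), ez (χ a) -
      ∑ a ∈ ((ZB X).filter (G P)) \ CF X, ez (χ a) := by
    rw [← sum_sdiff (CF_sub X P)]
    ring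
  have h2 : ‖∑ a ∈ ((ZB X).filter (G P)) \ CF X, ez (χ a)‖ ≤ ε / 2 * X := by
    calc _ ≤ ∑ a ∈ ((ZB X).filter (G P)) \ CF X, ‖ez (χ a)‖ := norm_sum_le _ _
      _ = ((((ZB X).filter (G P)) \ CF X).card : ℝ) := by
          rw [sum_congr rfl (fun a _ => norm_ez _), sum_const, nsmul_eq_mul, mul_one]
      _ ≤ C * X / P := hD X P hP1
      _ ≤ ε / 2 * X := by
          rw [div_le_iff₀ hP0]
          have h3 : 2 * C / ε ≤ P := by linarith
          rw [div_le_iff₀ hε] at h3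
          nlinarith
  have h3 : ‖∑ a ∈ (ZB X).filter (G P), ez (χ a)‖ ≤ ε / 2 * X := by
    refine (csum9 P hχ X).trans ?_
    rw [← hK]
    have h4 : 8 * K ≤ Real.sqrt X * ε := by
      rwa [div_le_iff₀ hε] at hsq
    calc K * (3 * Real.sqrt X + 1) ≤ K * (4 * Real.sqrt X) := by
          refine mul_le_mul_of_nonneg_left ?_ hK0
          linarith
      _ = (8 * K) * Real.sqrt X / 2 := by ring
      _ ≤ (Real.sqrt X * ε) * Real.sqrt X / 2 := by
          gcongr
      _ = ε / 2 * (Real.sqrt X * Real.sqrt X) := by ring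
      _ = ε / 2 * X := by rw [hss]
  rw [h1]
  calc _ ≤ _ := norm_sub_le _ _
    _ ≤ ε / 2 * X + ε / 2 * X := add_le_add h3 h2
    _ = ε * X := by ring

theorem card_CF9 (y : ZMod 3) (X : ℕ) :
    {D : Ei | nr D ≤ X ∧ ClP D ∧ ((9 : ℤ) ∣ nr D - 1 ∧ yq D = y)}.ncard =
    ((CF X).filter fun D => nq D = 0 ∧ yq D = y).card := by
  rw [← Set.ncard_coe_finset]
  congr 1
  ext D
  unfold CF
  rw [coe_filter, Set.mem_ofPred_eq, Set.mem_ofPred_eq, mem_filter, mem_ZB, and_assoc]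
  have h1 : nr D ≤ X ↔ nrm D ≤ X := by
    rw [← nrm_cast]
    exact Nat.cast_le
  rw [h1]
  constructor
  · rintro ⟨h2, h3, h4, h5⟩
    exact ⟨h2, h3, (nq_zero h3.1).2 h4, h5⟩
  · rintro ⟨h2, h3, h4, h5⟩
    exact ⟨h2, h3, (nq_zero h3.1).1 h4, h5⟩

theorem nine_card (y : ZMod 3) (X : ℕ) :
    (9 : ℂ) * (((CF X).filter fun D => nq D = 0 ∧ yq D = y).card : ℂ) =
    ∑ p : ZMod 3 × ZMod 3, ez (-(p.2 * y)) * ∑ a ∈ CF X, ez (p.1 * nq a + p.2 * yq a) := by
  have h1 : ∀ a : Ei, ∑ p : ZMod 3 × ZMod 3, ez (-(p.2 * y)) * ez (p.1 * nq a + p.2 * yq a) =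
      if nq a = 0 ∧ yq a = y then 9 else 0 := by
    intro a
    have h2 : ∀ p : ZMod 3 × ZMod 3, ez (-(p.2 * y)) * ez (p.1 * nq a + p.2 * yq a) =
        ez (p.1 * nq a) * ez (p.2 * (yq a - y)) := by
      intro p
      rw [← ez_add, ← ez_add]
      congr 1
      ring
    simp only [h2]
    rw [Fintype.sum_prod_type]
    simp only [← mul_sum, sum_ez]
    rw [← sum_mul, sum_ez]
    by_cases h3 : nq a = 0
    · by_cases h4 : yq a = y
      · rw [if_pos h3, if_pos (sub_eq_zero.2 h4), if_pos ⟨h3, h4⟩]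
        norm_num
      · rw [if_pos h3, if_neg (sub_ne_zero.2 h4), mul_zero, if_neg (fun h => h4 h.2)]
    · rw [if_neg h3, zero_mul, if_neg (fun h => h3 h.1)]
  simp only [mul_sum]
  rw [sum_comm]
  rw [sum_congr rfl fun a _ => h1 a, ← sum_filter, sum_const, nsmul_eq_mul, mul_comm]

/-- **The classes modulo nine.** -/
theorem den9 (y : ZMod 3) : Filter.Tendsto (fun X : ℕ =>
    ({D : Ei | nr D ≤ X ∧ ClP D ∧ ((9 : ℤ) ∣ nr D - 1 ∧ yq D = y)}.ncard : ℝ) /
      (Pool.Agent.N883.FF.PP X : ℝ)) Filter.atTop (nhds (1 / 9)) := by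
  obtain ⟨⟨c, hc, X₀, hcnt⟩, -⟩ := Pool.Agent.N883.FF.den3
  rw [Metric.tendsto_atTop]
  intro ε hε
  have hsm : ∀ p : ZMod 3 × ZMod 3, ∃ X₀ : ℕ, ∀ X : ℕ, X₀ ≤ X → p ≠ 0 →
      ‖∑ a ∈ CF X, ez (p.1 * nq a + p.2 * yq a)‖ ≤ c * ε * X := by
    intro p
    by_cases hp : p = 0
    · exact ⟨0, fun X _ h => absurd hp h⟩
    · have h1 : p.1 ≠ 0 ∨ p.2 ≠ 0 := by
        by_contra hno
        push Not at hno
        exact hp (Prod.ext hno.1 hno.2)
      obtain ⟨X₁, h2⟩ := small9 (cha p.1 p.2 h1) (c * ε) (by positivity)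
      exact ⟨X₁, fun X hX _ => h2 X hX⟩
  choose Xp hXp using hsm
  refine ⟨max (max X₀ 1) (∑ p : ZMod 3 × ZMod 3, Xp p), fun X hX => ?_⟩
  have hX0 : X₀ ≤ X := le_trans (le_trans (le_max_left _ _) (le_max_left _ _)) hX
  have hXp1 : 1 ≤ X := le_trans (le_trans (le_max_right _ _) (le_max_left _ _)) hX
  have hXall : ∀ p, Xp p ≤ X := fun p =>
    (Finset.single_le_sum (f := Xp) (fun _ _ => Nat.zero_le _) (Finset.mem_univ p)).trans
      ((le_max_right _ _).trans hX)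
  have hPP : (Pool.Agent.N883.FF.PP X : ℝ) = ((CF X).card : ℝ) := by
    unfold Pool.Agent.N883.FF.PP
    rw [card_CF]
  rw [card_CF9, hPP, Real.dist_eq]
  have hl := hcnt X hX0
  rw [card_CF] at hl
  have hXr : (0 : ℝ) < X := by exact_mod_cast hXp1
  have hn : (0 : ℝ) < ((CF X).card : ℝ) := lt_of_lt_of_le (by positivity) hl
  set n : ℝ := ((CF X).card : ℝ) with hn'
  set m : ℝ := (((CF X).filter fun D => nq D = 0 ∧ yq D = y).card : ℝ) with hm'
  have h3 : |9 * m - n| ≤ 8 * (c * ε * X) := by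
    have h4 := nine_card y X
    have hsplit := Finset.add_sum_erase (Finset.univ : Finset (ZMod 3 × ZMod 3))
      (fun p => ez (-(p.2 * y)) * ∑ a ∈ CF X, ez (p.1 * nq a + p.2 * yq a))
      (Finset.mem_univ (0 : ZMod 3 × ZMod 3))
    have h00 : ez (-((0 : ZMod 3 × ZMod 3).2 * y)) *
        ∑ a ∈ CF X, ez ((0 : ZMod 3 × ZMod 3).1 * nq a + (0 : ZMod 3 × ZMod 3).2 * yq a) =
        ((CF X).card : ℂ) := by
      simp only [Prod.fst_zero, Prod.snd_zero, zero_mul, neg_zero, add_zero, ez_zero, one_mul,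
        sum_const, nsmul_eq_mul, mul_one]
    rw [h00] at hsplit
    have h5 : ((9 * m - n : ℝ) : ℂ) =
        ∑ p ∈ (Finset.univ : Finset (ZMod 3 × ZMod 3)).erase 0,
          ez (-(p.2 * y)) * ∑ a ∈ CF X, ez (p.1 * nq a + p.2 * yq a) := by
      rw [hm', hn']
      push_cast
      linear_combination h4 - hsplit
    rw [← Real.norm_eq_abs, ← Complex.norm_real, h5]
    refine (norm_sum_le _ _).trans ?_
    have h6 : ∀ p ∈ (Finset.univ : Finset (ZMod 3 × ZMod 3)).erase 0,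
        ‖ez (-(p.2 * y)) * ∑ a ∈ CF X, ez (p.1 * nq a + p.2 * yq a)‖ ≤ c * ε * X := by
      intro p hp
      rw [norm_mul, norm_ez, one_mul]
      exact hXp p X (hXall p) (Finset.ne_of_mem_erase hp)
    refine (Finset.sum_le_sum h6).trans ?_
    rw [Finset.sum_const, nsmul_eq_mul, Finset.card_erase_of_mem (Finset.mem_univ _)]
    have : (Finset.univ : Finset (ZMod 3 × ZMod 3)).card = 9 := by decide
    rw [this]
    norm_num
  have h6 : m / n - 1 / 9 = (9 * m - n) / (9 * n) := by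
    field_simp
  rw [h6, abs_div, abs_of_pos (by positivity : (0 : ℝ) < 9 * n), div_lt_iff₀ (by positivity)]
  calc |9 * m - n| ≤ 8 * (c * ε * X) := h3
    _ = 8 * ε * (c * X) := by ring
    _ ≤ 8 * ε * n := by gcongr
    _ < ε * (9 * n) := by nlinarith

end Pool.Agent.D0H50.JL
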