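import Pool.Agent.D0H50.JL.LimJ
import Pool.Agent.D0H69.L0F.End
import Pool.Agent.Y696.CTE.Fin

/-!
# Project JL: the joint law over `ℚ(√-3)`, and the curve `y² + y = x³` over `K(∛D)`
-/

set_option autoImplicit false
set_option linter.unusedVariables false
set_option linter.unusedSectionVars false

open scoped Classical

namespace Pool.Agent.D0H50.JL

open NumberField Filter Topology
open Pool.Agent.Y692.QS (Ei w nr toC nr_mul)
open Pool.Agent.Y703.XK (c9)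
open Pool.Agent.Y715.T.Gi (lam)
open Pool.Agent.Y696.CTK (Tri ED)
open Pool.Agent.Y696.XK (img_ncard)
open Pool.Agent.D0H10.KH
open Pool.Agent.TH841.NF.D (Sha)

/-- **The joint law.** -/
theorem finalJ (K : Type) [Field K] [NumberField K] [IsCyclotomicExtension {3} ℚ K] :
    Tendsto (fun X : ℕ =>
      ({D : 𝓞 K | Algebra.norm ℤ D ≤ X ∧ FamH D ∧ (Tri D ∧ Tri (D ^ 2))}.ncard : ℝ) /
        ({D : 𝓞 K | Algebra.norm ℤ D ≤ X ∧ FamH D}.ncard : ℝ)) atTop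
      (𝓝 (103 / 117 * ∏' i : ℕ, (1 - (1 / 3 : ℝ) ^ (2 * i + 1)))) ∧
    (∀ a : ℕ, a = 1 ∨ a = 2 → Tendsto (fun X : ℕ =>
      ({D : 𝓞 K | Algebra.norm ℤ D ≤ X ∧ FamH D ∧ ExtH a D ∧ (Tri D ∧ Tri (D ^ 2))}.ncard : ℝ) /
        ({D : 𝓞 K | Algebra.norm ℤ D ≤ X ∧ FamH D ∧ ExtH a D}.ncard : ℝ)) atTop
      (𝓝 (2 / 3 * ∏' i : ℕ, (1 - (1 / 3 : ℝ) ^ (2 * i + 1))))) ∧
    Tendsto (fun X : ℕ =>
      ({D : 𝓞 K | Algebra.norm ℤ D ≤ X ∧ FamH D ∧ ExcH D ∧ (Tri D ∧ Tri (D ^ 2))}.ncard : ℝ) /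
        ({D : 𝓞 K | Algebra.norm ℤ D ≤ X ∧ FamH D ∧ ExcH D}.ncard : ℝ)) atTop
      (𝓝 (7 / 9 * ∏' i : ℕ, (1 - (1 / 3 : ℝ) ^ (2 * i + 1)))) ∧
    (∀ D : 𝓞 K, FamH D → ¬ ExtH 1 D → ¬ ExtH 2 D → ¬ ExcH D → (Tri D ↔ Tri (D ^ 2))) := by
  obtain ⟨⟨j, hj⟩, -⟩ := Pool.Agent.Y455.CTK.jex K
  have htt : ∀ D : Ei, TT j D ↔ (Tri (j D) ∧ Tri ((j D) ^ 2)) := by
    intro D
    unfold TT
    rw [map_pow]
  have e2 : ∀ X : ℕ, {D : 𝓞 K | Algebra.norm ℤ D ≤ X ∧ FamH D}.ncard =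
      {D : Ei | nr D ≤ X ∧ CFam D}.ncard := fun X =>
    img_ncard j hj X CFam FamH fun D => (famH_iff j D).symm
  have e1 : ∀ X : ℕ, {D : 𝓞 K | Algebra.norm ℤ D ≤ X ∧ FamH D ∧ (Tri D ∧ Tri (D ^ 2))}.ncard =
      {D : Ei | nr D ≤ X ∧ CFam D ∧ TT j D}.ncard := fun X =>
    img_ncard j hj X (fun D => CFam D ∧ TT j D)
      (fun D => FamH D ∧ (Tri D ∧ Tri (D ^ 2)))
      fun D => and_congr (famH_iff j D).symm (htt D)
  have e3 : ∀ (a X : ℕ), {D : 𝓞 K | Algebra.norm ℤ D ≤ X ∧ FamH D ∧ ExtH a D ∧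
      (Tri D ∧ Tri (D ^ 2))}.ncard =
      {D : Ei | nr D ≤ X ∧ CFam D ∧ ((lam ^ a ∣ D ∧ ¬ lam ^ (a + 1) ∣ D) ∧
        TT j D)}.ncard := fun a X =>
    img_ncard j hj X (fun D => CFam D ∧ ((lam ^ a ∣ D ∧ ¬ lam ^ (a + 1) ∣ D) ∧ TT j D))
      (fun D => FamH D ∧ ExtH a D ∧ (Tri D ∧ Tri (D ^ 2)))
      fun D => and_congr (famH_iff j D).symm (and_congr (extH_iff j a D).symm (htt D))
  have e4 : ∀ (a X : ℕ), {D : 𝓞 K | Algebra.norm ℤ D ≤ X ∧ FamH D ∧ ExtH a D}.ncard =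
      {D : Ei | nr D ≤ X ∧ CFam D ∧ (lam ^ a ∣ D ∧ ¬ lam ^ (a + 1) ∣ D)}.ncard := fun a X =>
    img_ncard j hj X (fun D => CFam D ∧ (lam ^ a ∣ D ∧ ¬ lam ^ (a + 1) ∣ D))
      (fun D => FamH D ∧ ExtH a D)
      fun D => and_congr (famH_iff j D).symm (extH_iff j a D).symm
  have e5 : ∀ X : ℕ, {D : 𝓞 K | Algebra.norm ℤ D ≤ X ∧ FamH D ∧ ExcH D ∧
      (Tri D ∧ Tri (D ^ 2))}.ncard =
      {D : Ei | nr D ≤ X ∧ CFam D ∧ (ExcE D ∧ TT j D)}.ncard := fun X =>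
    img_ncard j hj X (fun D => CFam D ∧ (ExcE D ∧ TT j D))
      (fun D => FamH D ∧ ExcH D ∧ (Tri D ∧ Tri (D ^ 2)))
      fun D => and_congr (famH_iff j D).symm (and_congr (excH_iff j D).symm (htt D))
  have e6 : ∀ X : ℕ, {D : 𝓞 K | Algebra.norm ℤ D ≤ X ∧ FamH D ∧ ExcH D}.ncard =
      {D : Ei | nr D ≤ X ∧ CFam D ∧ ExcE D}.ncard := fun X =>
    img_ncard j hj X (fun D => CFam D ∧ ExcE D) (fun D => FamH D ∧ ExcH D)
      fun D => and_congr (famH_iff j D).symm (excH_iff j D).symm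
  refine ⟨?_, ?_, ?_, ?_⟩
  · simp only [e1, e2]
    exact lim_allJ j hj
  · intro a ha
    simp only [e3, e4]
    exact lim_clsJ j a ha
  · simp only [e5, e6]
    exact lim_excJ' j
  · intro D hD h1 h2 hx
    obtain ⟨D, rfl⟩ := j.surjective D
    obtain ⟨b, a, z, ha, hz, rfl⟩ := dec ((famH_iff j D).1 hD)
    rw [excH_iff] at hx
    rw [extH_iff] at h1 h2
    have hl := fam_lam hz
    have key : ∀ m : ℕ, lam ^ m ∣ sg b * (lam ^ a * z) ↔ m ≤ a := by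
      intro m
      rw [(sg_unit b).dvd_mul_left]
      constructor
      · intro h
        by_contra hlt
        push Not at hlt
        obtain ⟨c, rfl⟩ : ∃ c, m = a + (c + 1) := ⟨m - a - 1, by omega⟩
        rw [pow_add] at h
        have h5 := (mul_dvd_mul_iff_left
          (pow_ne_zero a Pool.Agent.Y715.T.Gi.prime_lam.ne_zero)).1 h
        exact hl ((dvd_pow_self lam (Nat.succ_ne_zero c)).trans h5)
      · exact fun h => (pow_dvd_pow lam h).mul_right _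
    have ha0 : a = 0 := by
      rw [key, key] at h1 h2
      omega
    subst ha0
    rw [exc_iff hz b, not_not] at hx
    obtain ⟨i, n, π, e, hdt, rfl⟩ := Pool.Agent.N883.FF.fam_data hz
    have hpB : Pool.Agent.N883.FF.pB π e i = w ^ i.val * Pool.Agent.Y703.CT.pD π e := rfl
    rw [hpB] at hz hx ⊢
    have h := sq0 j hdt i (nx_i hdt hx) b
    rw [map_pow] at h
    exact h.symm

/-! ### the fixed curve over `K(∛D)` -/

/-- an element of the family is not a cube -/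
theorem not_cube {K : Type} [Field K] [NumberField K] {D : 𝓞 K} (hD : FamH D) (b : K) :
    b ^ 3 ≠ (D : K) := by
  intro h
  have h1 : _root_.IsIntegral ℤ b := by
    have h2 : _root_.IsIntegral ℤ (b ^ 3) := by
      rw [h]
      exact NumberField.RingOfIntegers.isIntegral_coe D
    exact _root_.IsIntegral.of_pow (by norm_num : 0 < 3) h2
  obtain ⟨b', hb'⟩ : ∃ b' : 𝓞 K, (b' : K) = b := ⟨⟨b, h1⟩, rfl⟩
  have h3 : b' ^ 3 = D := by
    apply NumberField.RingOfIntegers.coe_injective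
    rw [map_pow]
    change (b' : K) ^ 3 = (D : K)
    rw [hb', h]
  have h4 : IsUnit b' := hD.2 b' (dvd_of_eq h3)
  apply hD.1
  rw [← h3]
  exact (h4.pow 3).dvd

/-- the field `K(∛D)` exists -/
theorem ex_field {K : Type} [Field K] [NumberField K] {D : 𝓞 K} (hD : FamH D) :
    ∃ (F : Type) (_ : Field F) (_ : NumberField F) (_ : Algebra K F),
      Module.finrank K F = 3 ∧ ∃ θ : F, θ ^ 3 = algebraMap K F (D : K) := by
  have hirr : Irreducible (Polynomial.X ^ 3 - Polynomial.C (D : K) : Polynomial K) :=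
    X_pow_sub_C_irreducible_of_prime Nat.prime_three fun b => not_cube hD b
  haveI := Fact.mk hirr
  have hne : (Polynomial.X ^ 3 - Polynomial.C (D : K) : Polynomial K) ≠ 0 := hirr.ne_zero
  haveI : FiniteDimensional K (AdjoinRoot (Polynomial.X ^ 3 - Polynomial.C (D : K))) :=
    (AdjoinRoot.powerBasis hne).finite
  haveI : NumberField (AdjoinRoot (Polynomial.X ^ 3 - Polynomial.C (D : K))) :=
    NumberField.of_module_finite K _
  refine ⟨AdjoinRoot (Polynomial.X ^ 3 - Polynomial.C (D : K)), inferInstance, inferInstance,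
    inferInstance, ?_, AdjoinRoot.root _, ?_⟩
  · rw [(AdjoinRoot.powerBasis hne).finrank, AdjoinRoot.powerBasis_dim]
    exact Polynomial.natDegree_X_pow_sub_C
  · have h1 := AdjoinRoot.eval₂_root (Polynomial.X ^ 3 - Polynomial.C (D : K))
    rw [Polynomial.eval₂_sub, Polynomial.eval₂_pow, Polynomial.eval₂_X, Polynomial.eval₂_C,
      sub_eq_zero] at h1
    exact h1

/-- **The curve `y² + y = x³` over `K(∛D)`.** -/
theorem over_F {K : Type} [Field K] [NumberField K] [IsCyclotomicExtension {3} ℚ K] {D : 𝓞 K}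
    (hD : FamH D) (h1 : Tri D) (h2 : Tri (D ^ 2)) (F : Type) [Field F] [NumberField F]
    [Algebra K F] (hdeg : Module.finrank K F = 3) (θ : F) (hθ : θ ^ 3 = algebraMap K F (D : K)) :
    IsGalois K F ∧ Finite (ED (1 : F)).toAffine.Point ∧
      ∀ (n : ℕ) (x : Sha (ED (1 : F))), 3 ^ n • x = 0 → 3 • x = 0 := by
  obtain ⟨⟨j, hj⟩, -⟩ := Pool.Agent.Y455.CTK.jex K
  obtain ⟨D, rfl⟩ := j.surjective D
  obtain ⟨θ', -, hθ'⟩ := Pool.Agent.Y696.CTE.root_int hθ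
  have hc := (famH_iff j D).1 hD
  have hncube : ∀ x : Ei, x ^ 3 ≠ D := by
    intro x hx
    have h3 : IsUnit x := hc.2 x (dvd_of_eq hx)
    apply hc.1
    rw [← hx]
    exact (h3.pow 3).dvd
  have hC : Pool.Agent.Y696.CTE.Cub j D θ' := ⟨hdeg, hθ', by
    rintro rfl
    exact hncube 0 (by rw [zero_pow three_ne_zero]), hncube⟩
  have P := Pool.Agent.Y696.CTE.partsE
  rw [← map_pow] at h2
  refine ⟨(P.gal K F j D θ' hC).1, ?_, ?_⟩
  · exact P.mwf K F j D θ' hC Pool.Agent.Y696.CTE.fin_one h1.1 h2.1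
  · exact P.shf K F j D θ' hC (P.sh1 K j) h1.2 h2.2

end Pool.Agent.D0H50.JL
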