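import Pool.Agent.D0H50.JL.Ker
import Pool.Agent.D0H50.JL.Den9
import Pool.Agent.D0H69.L0D.Tot

/-!
# Project JL: the joint law in the class of norm `1` modulo `9`
-/

set_option autoImplicit false
set_option linter.unusedVariables false

open scoped Classical

namespace Pool.Agent.D0H50.JL

open Finset Filter
open Pool.Agent.Y692.QS (Ei w nr toC)
open Pool.Agent.Y715.T.Rec (cs)
open Pool.Agent.Y715.T.RecG (Pq)
open Pool.Agent.Y703.CT (Dt pD)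
open Pool.Agent.Y703.XK (c9)
open Pool.Agent.Y699.E (prm PS_prod prm_one prm_mul)
open Pool.Agent.R419.KF (wt el)
open Pool.Agent.N883.FF (nq ClU ClP PP)
open Pool.Agent.D0H43.L3 (yq)
open Pool.Agent.D0H43.L3.Chi (yq_mul yq_one)
open Pool.Agent.D0H69.L0 (KerM Ntl)
open Pool.Agent.D0H69.L0D (NtS)
open Pool.Agent.D0H69.L3K (fin_nr)

lemma yq_one' : yq 1 = 0 := by
  have h := yq_one 0
  rw [mul_zero, add_zero] at h
  rw [h]
  decide

theorem yq_prod {S : Finset Ei} (hS : ∀ q ∈ S, Pq q) :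
    yq (∏ π ∈ S, π) = ∑ π ∈ S, yq π := by
  induction S using Finset.induction_on with
  | empty => rw [prod_empty, sum_empty, yq_one']
  | insert a S ha ih =>
    have h1 : ∀ q ∈ S, Pq q := fun q hq => hS q (mem_insert_of_mem hq)
    rw [prod_insert ha, sum_insert ha, yq_mul (cop_prm (hS a (mem_insert_self _ _)).three)
      (cop_prm (PS_prod h1).1.prm), ih h1]

/-- the class of an element -/
theorem fy_el {M S : Finset Ei} (h : ClU M S) (y : ZMod 3) :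
    ((9 : ℤ) ∣ nr (el M S) - 1 ∧ yq (el M S) = y) ↔ Fy y M S := by
  unfold Fy
  rw [Pool.Agent.D0H69.L0D.Tot.nt_iff h]
  obtain ⟨hS, hM⟩ := h
  have hM' : ∀ q ∈ M, Pq q := fun q hq => hS q (hM hq)
  have h1 : yq (el M S) = ∑ π ∈ S, wt M π * yq π := by
    unfold el
    rw [yq_mul (cop_prm (PS_prod hS).1.prm) (cop_prm (PS_prod hM').1.prm), yq_prod hS,
      yq_prod hM']
    have h2 : ∑ π ∈ M, yq π = ∑ π ∈ S, if π ∈ M then yq π else 0 := by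
      rw [sum_ite_mem, inter_eq_right.2 hM]
    rw [h2, ← sum_add_distrib]
    refine sum_congr rfl fun q _ => ?_
    unfold wt
    split_ifs
    · ring
    · ring
  rw [h1]

theorem kerC_pair {J : Type} [Fintype J] (π : J → Ei) (e : J → ZMod 3) {y : ZMod 3}
    (hy : y ≠ 0) : (KerC y π e ∧ KerC (-y) π e) ↔ (KerC 1 π e ∧ KerC 2 π e) := by
  have h : ∀ y : ZMod 3, y ≠ 0 → (y = 1 ∧ -y = 2) ∨ (y = 2 ∧ -y = 1) := by decide
  rcases h y hy with ⟨h1, h2⟩ | ⟨h1, h2⟩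
  · rw [h2, h1]
  · rw [h2, h1]
    exact and_comm

/-- the part with `yq = y` -/
theorem joint_y (y : ZMod 3) (T : Ei → Prop)
    (hT : ∀ (n : ℕ) (π : Fin (n + 1) → Ei) (e : Fin (n + 1) → ZMod 3), Dt π e → Ntl π e →
      (T (pD π e) ↔ KerM π e ∧ KerM π (fun k => -e k))) :
    Tendsto (fun X : ℕ => ({D : Ei | nr D ≤ X ∧ ClP D ∧
      (((9 : ℤ) ∣ nr D - 1 ∧ yq D = y) ∧ T D)}.ncard : ℝ) / (PP X : ℝ)) atTop
      (nhds ((if y = 0 then c9 else 2 / 3 * c9) * (1 / 9))) := by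
  by_cases hy : y = 0
  · rw [if_pos hy]
    subst hy
    refine lim_elt err_C0 _ T (fun M S h => fy_el h 0) (fun M S hMS hne hF => ?_) (den9 0)
    obtain ⟨n, π, hdt, hel, hinj, himg⟩ := datt hMS hne
    obtain ⟨hN, hy⟩ := (fy_ker hinj himg 0).1 hF
    rw [hel, hT n π _ hdt hN, kerM_iff, kerM_neg, hy, neg_zero, and_self, gdC_ker hinj himg]
  · rw [if_neg hy]
    refine lim_elt (err_C y) _ T (fun M S h => fy_el h y) (fun M S hMS hne hF => ?_) (den9 y)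
    obtain ⟨n, π, hdt, hel, hinj, himg⟩ := datt hMS hne
    obtain ⟨hN, hy'⟩ := (fy_ker hinj himg y).1 hF
    rw [hel, hT n π _ hdt hN, kerM_iff, kerM_neg, hy', kerC_pair _ _ hy, gdC_ker hinj himg,
      gdC_ker hinj himg]

/-- **The joint law in the class of norm `1` modulo `9`.** -/
theorem joint_M (T : Ei → Prop)
    (hT : ∀ (n : ℕ) (π : Fin (n + 1) → Ei) (e : Fin (n + 1) → ZMod 3), Dt π e → Ntl π e →
      (T (pD π e) ↔ KerM π e ∧ KerM π (fun k => -e k))) :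
    Tendsto (fun X : ℕ => ({D : Ei | nr D ≤ X ∧ ClP D ∧ ((9 : ℤ) ∣ nr D - 1 ∧ T D)}.ncard : ℝ) /
      (PP X : ℝ)) atTop (nhds (7 / 27 * c9)) := by
  have h := ((joint_y 0 T hT).add (joint_y 1 T hT)).add (joint_y 2 T hT)
  have e1 : (if (0 : ZMod 3) = 0 then c9 else 2 / 3 * c9) * (1 / 9) +
      (if (1 : ZMod 3) = 0 then c9 else 2 / 3 * c9) * (1 / 9) +
      (if (2 : ZMod 3) = 0 then c9 else 2 / 3 * c9) * (1 / 9) = 7 / 27 * c9 := by
    rw [if_pos rfl, if_neg (by decide), if_neg (by decide)]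
    ring
  rw [e1] at h
  refine h.congr fun X => ?_
  rw [← add_div, ← add_div]
  congr 1
  have hfin : ∀ y : ZMod 3, {D : Ei | nr D ≤ X ∧ ClP D ∧
      (((9 : ℤ) ∣ nr D - 1 ∧ yq D = y) ∧ T D)}.Finite := fun y =>
    (fin_nr X).subset fun D hD => hD.1
  have h1 : {D : Ei | nr D ≤ X ∧ ClP D ∧ ((9 : ℤ) ∣ nr D - 1 ∧ T D)} =
      ({D : Ei | nr D ≤ X ∧ ClP D ∧ (((9 : ℤ) ∣ nr D - 1 ∧ yq D = 0) ∧ T D)} ∪
        {D : Ei | nr D ≤ X ∧ ClP D ∧ (((9 : ℤ) ∣ nr D - 1 ∧ yq D = 1) ∧ T D)}) ∪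
          {D : Ei | nr D ≤ X ∧ ClP D ∧ (((9 : ℤ) ∣ nr D - 1 ∧ yq D = 2) ∧ T D)} := by
    ext D
    have hy : ∀ y : ZMod 3, y = 0 ∨ y = 1 ∨ y = 2 := by decide
    constructor
    · rintro ⟨a, b, c, d⟩
      rcases hy (yq D) with h | h | h
      · exact Or.inl (Or.inl ⟨a, b, ⟨c, h⟩, d⟩)
      · exact Or.inl (Or.inr ⟨a, b, ⟨c, h⟩, d⟩)
      · exact Or.inr ⟨a, b, ⟨c, h⟩, d⟩
    · rintro ((⟨a, b, ⟨c, -⟩, d⟩ | ⟨a, b, ⟨c, -⟩, d⟩) | ⟨a, b, ⟨c, -⟩, d⟩)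
      · exact ⟨a, b, c, d⟩
      · exact ⟨a, b, c, d⟩
      · exact ⟨a, b, c, d⟩
  have hd : ∀ y y' : ZMod 3, y ≠ y' → Disjoint
      {D : Ei | nr D ≤ X ∧ ClP D ∧ (((9 : ℤ) ∣ nr D - 1 ∧ yq D = y) ∧ T D)}
      {D : Ei | nr D ≤ X ∧ ClP D ∧ (((9 : ℤ) ∣ nr D - 1 ∧ yq D = y') ∧ T D)} := by
    intro y y' hyy
    rw [Set.disjoint_left]
    rintro D ⟨-, -, ⟨-, h3⟩, -⟩ ⟨-, -, ⟨-, h4⟩, -⟩
    exact hyy (h3.symm.trans h4)
  rw [h1, Set.ncard_union_eq (Disjoint.union_left (hd 0 2 (by decide)) (hd 1 2 (by decide)))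
    ((hfin 0).union (hfin 1)) (hfin 2), Set.ncard_union_eq (hd 0 1 (by decide)) (hfin 0) (hfin 1)]
  push_cast
  rfl

end Pool.Agent.D0H50.JL
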