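import Pool.Agent.D0H50.JL.Tot
import Pool.Agent.D0H69.L0.Defs

/-!
# Project JL: the kernels of the twists by `D` and `D²`
-/

set_option autoImplicit false
set_option linter.unusedVariables false

open scoped Classical

namespace Pool.Agent.D0H50.JL

open Finset
open Pool.Agent.Y692.QS (Ei w nr toC)
open Pool.Agent.Y715.T.Rec (cs)
open Pool.Agent.Y703.CT (Dt pD)
open Pool.Agent.R419.KF (wt el)
open Pool.Agent.N883.FF (nq ClU)
open Pool.Agent.D0H43.L3 (KerT tq yq)
open Pool.Agent.D0H43.L9 (KerN qN)
open Pool.Agent.D0H69.L0 (KerM Ntl)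
open Pool.Agent.D0H69.L0D (NtS)

section ker
variable {J : Type} [Fintype J]

/-- the kernel with potential is trivial -/
def KerP (r s : ZMod 3) (π : J → Ei) (e : J → ZMod 3) : Prop :=
  ∀ v : J → ZMod 3, (∀ j, ∑ k, e k * cs (π j) (π k) * (v k - v j) = qG r s (π j) * v j) →
    ∀ j, v j = 0

/-- the kernel with potential and border is trivial -/
def KerG (r s t : ZMod 3) (π : J → Ei) (e : J → ZMod 3) : Prop :=
  ∀ (v : J → ZMod 3) (a : ZMod 3),
    (∀ j, ∑ k, e k * cs (π j) (π k) * (v k - v j) + a * nq (π j) = qG r s (π j) * v j) →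
    ∑ k, e k * v k * nq (π k) = t * a → (∀ j, v j = 0) ∧ a = 0

/-- the kernel with border consists of the constants -/
def KerC (t : ZMod 3) (π : J → Ei) (e : J → ZMod 3) : Prop :=
  ∀ (v : J → ZMod 3) (a : ZMod 3),
    (∀ j, ∑ k, e k * cs (π j) (π k) * (v k - v j) + a * nq (π j) = 0) →
    ∑ k, e k * v k * nq (π k) + a * t = 0 → (∀ i j, v i = v j) ∧ a = 0

theorem forall_res {π : J → Ei} (hinj : Function.Injective π) (Φ : (J → ZMod 3) → Prop) :
    (∀ v' : Ei → ZMod 3, Φ (fun j => v' (π j))) ↔ ∀ v, Φ v := by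
  constructor
  · intro h v
    obtain ⟨v', hv'⟩ : ∃ v' : Ei → ZMod 3, (fun j => v' (π j)) = v :=
      ⟨fun x => if h : ∃ j, π j = x then v h.choose else 0, by
        funext j
        have hex : ∃ j', π j' = π j := ⟨j, rfl⟩
        show (if h : ∃ j', π j' = π j then v h.choose else 0) = v j
        rw [dif_pos hex]
        exact congrArg v (hinj hex.choose_spec)⟩
    rw [← hv']
    exact h v'
  · exact fun h v' => h _

variable {π : J → Ei} {M S : Finset Ei}

theorem sum_res (hinj : Function.Injective π) (himg : univ.image π = S) (f : Ei → ZMod 3) :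
    ∑ q ∈ S, f q = ∑ i, f (π i) := by
  rw [← himg, sum_image fun a _ b _ h => hinj h]

theorem ball_res (himg : univ.image π = S) (P : Ei → Prop) : (∀ q ∈ S, P q) ↔ ∀ j, P (π j) := by
  constructor
  · intro h j
    exact h _ (by rw [← himg]; exact mem_image_of_mem _ (mem_univ _))
  · intro h q hq
    rw [← himg, mem_image] at hq
    obtain ⟨j, -, rfl⟩ := hq
    exact h j

theorem gdP_ker (hinj : Function.Injective π) (himg : univ.image π = S) (r s : ZMod 3) :
    GdP r s M S ↔ KerP r s π (fun i => wt M (π i)) := by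
  unfold GdP KerP
  rw [← forall_res hinj]
  refine forall_congr' fun v => ?_
  rw [ball_res himg, ball_res himg]
  simp only [sum_res hinj himg]

theorem gdG_ker (hinj : Function.Injective π) (himg : univ.image π = S) (r s t : ZMod 3) :
    GdG r s t M S ↔ KerG r s t π (fun i => wt M (π i)) := by
  unfold GdG KerG
  rw [← forall_res hinj]
  refine forall_congr' fun v => forall_congr' fun a => ?_
  rw [ball_res himg, ball_res himg]
  simp only [sum_res hinj himg]

theorem gdC_ker (hinj : Function.Injective π) (himg : univ.image π = S) (t : ZMod 3) :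
    GdC t M S ↔ KerC t π (fun i => wt M (π i)) := by
  unfold GdC KerC
  rw [← forall_res hinj]
  refine forall_congr' fun v => forall_congr' fun a => ?_
  rw [ball_res himg, ball_res himg]
  simp only [sum_res hinj himg, ball_res himg]

/-! ### the kernels of the twists -/

variable (π) (e : J → ZMod 3) (i : ZMod 3)

theorem kerT_iff : KerT π e i ↔ KerP i 1 π e := by
  unfold KerT KerP
  have h : ∀ j, tq i (π j) = qG i 1 (π j) := fun j => by
    unfold tq qG
    rw [one_mul]
  simp only [h]

theorem kerT_neg : KerT π (fun k => -e k) (-i) ↔ KerP i (-1) π e := by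
  unfold KerT KerP
  have h : ∀ (v : J → ZMod 3) (j : J),
      (∑ k, -e k * cs (π j) (π k) * (v k - v j) = tq (-i) (π j) * v j) ↔
      (∑ k, e k * cs (π j) (π k) * (v k - v j) = qG i (-1) (π j) * v j) := by
    intro v j
    have h1 : ∑ k, -e k * cs (π j) (π k) * (v k - v j) =
        -∑ k, e k * cs (π j) (π k) * (v k - v j) := by
      rw [← sum_neg_distrib]
      exact sum_congr rfl fun k _ => by ring
    rw [h1]
    unfold tq qG
    constructor
    · intro h2
      linear_combination -h2
    · intro h2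
      linear_combination -h2
  simp only [h]

theorem kerN_iff : KerN π e i ↔ KerG i (-1) i π e := by
  unfold KerN KerG
  have h : ∀ j, qN i (π j) = qG i (-1) (π j) := fun j => by
    unfold qN qG
    ring
  simp only [h]

theorem kerN_neg : KerN π (fun k => -e k) (-i) ↔ KerG i 1 (-i) π e := by
  unfold KerN KerG
  have h : ∀ (v : J → ZMod 3) (a : ZMod 3) (j : J),
      (∑ k, -e k * cs (π j) (π k) * (v k - v j) + a * nq (π j) = qN (-i) (π j) * v j) ↔
      (∑ k, e k * cs (π j) (π k) * (v k - v j) + (-a) * nq (π j) = qG i 1 (π j) * v j) := by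
    intro v a j
    have h1 : ∑ k, -e k * cs (π j) (π k) * (v k - v j) =
        -∑ k, e k * cs (π j) (π k) * (v k - v j) := by
      rw [← sum_neg_distrib]
      exact sum_congr rfl fun k _ => by ring
    rw [h1]
    unfold qN qG
    constructor
    · intro h2
      linear_combination -h2
    · intro h2
      linear_combination -h2
  have h' : ∀ (v : J → ZMod 3) (a : ZMod 3), (∑ k, -e k * v k * nq (π k) = -i * a) ↔
      (∑ k, e k * v k * nq (π k) = -i * (-a)) := by
    intro v a
    have h1 : ∑ k, -e k * v k * nq (π k) = -∑ k, e k * v k * nq (π k) := by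
      rw [← sum_neg_distrib]
      exact sum_congr rfl fun k _ => by ring
    rw [h1]
    constructor
    · intro h2
      linear_combination -h2
    · intro h2
      linear_combination -h2
  simp only [h, h']
  constructor
  · intro hk v a h1 h2
    obtain ⟨h3, h4⟩ := hk v (-a) (fun j => by rw [neg_neg]; exact h1 j) (by
      rw [neg_neg]; exact h2)
    exact ⟨h3, neg_eq_zero.1 h4⟩
  · intro hk v a h1 h2
    obtain ⟨h3, h4⟩ := hk v (-a) h1 h2
    exact ⟨h3, neg_eq_zero.1 h4⟩

theorem kerM_iff : KerM π e ↔ KerC (∑ k, e k * yq (π k)) π e := Iff.rfl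

theorem kerM_neg : KerM π (fun k => -e k) ↔ KerC (-∑ k, e k * yq (π k)) π e := by
  unfold KerM KerC
  have h : ∀ (v : J → ZMod 3) (a : ZMod 3) (j : J),
      (∑ k, -e k * cs (π j) (π k) * (v k - v j) + a * nq (π j) = 0) ↔
      (∑ k, e k * cs (π j) (π k) * (v k - v j) + (-a) * nq (π j) = 0) := by
    intro v a j
    have h1 : ∑ k, -e k * cs (π j) (π k) * (v k - v j) =
        -∑ k, e k * cs (π j) (π k) * (v k - v j) := by
      rw [← sum_neg_distrib]
      exact sum_congr rfl fun k _ => by ring
    rw [h1]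
    constructor
    · intro h2
      linear_combination -h2
    · intro h2
      linear_combination -h2
  have h' : ∀ (v : J → ZMod 3) (a : ZMod 3),
      (∑ k, -e k * v k * nq (π k) + a * ∑ k, -e k * yq (π k) = 0) ↔
      (∑ k, e k * v k * nq (π k) + (-a) * -∑ k, e k * yq (π k) = 0) := by
    intro v a
    have h1 : ∑ k, -e k * v k * nq (π k) = -∑ k, e k * v k * nq (π k) := by
      rw [← sum_neg_distrib]
      exact sum_congr rfl fun k _ => by ring
    have h2 : ∑ k, -e k * yq (π k) = -∑ k, e k * yq (π k) := by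
      rw [← sum_neg_distrib]
      exact sum_congr rfl fun k _ => by ring
    rw [h1, h2]
    constructor
    · intro h2
      linear_combination -h2
    · intro h2
      linear_combination -h2
  simp only [h, h']
  constructor
  · intro hk v a h1 h2
    obtain ⟨h3, h4⟩ := hk v (-a) (fun j => by rw [neg_neg]; exact h1 j) (by
      rw [neg_neg]; exact h2)
    exact ⟨h3, neg_eq_zero.1 h4⟩
  · intro hk v a h1 h2
    obtain ⟨h3, h4⟩ := hk v (-a) h1 h2
    exact ⟨h3, neg_eq_zero.1 h4⟩

end ker

/-! ### the classes -/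

/-- the sum of the `yq` -/
theorem fy_ker {J : Type} [Fintype J] {π : J → Ei} {M S : Finset Ei}
    (hinj : Function.Injective π) (himg : univ.image π = S) (y : ZMod 3) :
    Fy y M S ↔ Ntl π (fun i => wt M (π i)) ∧ ∑ k, wt M (π k) * yq (π k) = y := by
  unfold Fy NtS Ntl
  rw [sum_res hinj himg, sum_res hinj himg]

/-- **The joint law of the twists by `3 ω ^ i z` and its square.** -/
theorem joint_T (i : ZMod 3) (T : Ei → Prop)
    (hT : ∀ (n : ℕ) (π : Fin (n + 1) → Ei) (e : Fin (n + 1) → ZMod 3), Dt π e →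
      (T (pD π e) ↔ KerT π e i ∧ KerN π (fun k => -e k) (-i))) :
    Filter.Tendsto (fun X : ℕ => ({D : Ei | nr D ≤ X ∧ Pool.Agent.N883.FF.ClP D ∧ T D}.ncard : ℝ) /
      (Pool.Agent.N883.FF.PP X : ℝ)) Filter.atTop (nhds (2 / 3 * Pool.Agent.Y703.XK.c9)) := by
  refine lim_elt_all (err_P i 1 (-i) one_ne_zero) T fun M S hMS hne => ?_
  obtain ⟨n, π, hdt, hel, hinj, himg⟩ := datt hMS hne
  rw [hel, hT n π _ hdt, kerT_iff, kerN_neg, gdP_ker hinj himg, gdG_ker hinj himg]

/-- **The joint law of the twists by `9 ω ^ i z` and its square.** -/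
theorem joint_N (i : ZMod 3) (T : Ei → Prop)
    (hT : ∀ (n : ℕ) (π : Fin (n + 1) → Ei) (e : Fin (n + 1) → ZMod 3), Dt π e →
      (T (pD π e) ↔ KerT π (fun k => -e k) (-i) ∧ KerN π e i)) :
    Filter.Tendsto (fun X : ℕ => ({D : Ei | nr D ≤ X ∧ Pool.Agent.N883.FF.ClP D ∧ T D}.ncard : ℝ) /
      (Pool.Agent.N883.FF.PP X : ℝ)) Filter.atTop (nhds (2 / 3 * Pool.Agent.Y703.XK.c9)) := by
  refine lim_elt_all (err_P i (-1) i (by decide)) T fun M S hMS hne => ?_
  obtain ⟨n, π, hdt, hel, hinj, himg⟩ := datt hMS hne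
  rw [hel, hT n π _ hdt, kerT_neg, kerN_iff, gdP_ker hinj himg, gdG_ker hinj himg]

end Pool.Agent.D0H50.JL
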