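import Pool.Agent.D0H50.JL.Sq
import Pool.Agent.D0H69.L0F.Lim

/-!
# Project JL: the joint proportion among all cube-free `D`
-/

set_option autoImplicit false
set_option linter.unusedVariables false
set_option linter.unusedSectionVars false

open scoped Classical

namespace Pool.Agent.D0H50.JL

open NumberField Filter Topology
open Pool.Agent.Y692.QS (Ei w nr toC nr_mul)
open Pool.Agent.Y703.CT
open Pool.Agent.Y703.XK (c9)
open Pool.Agent.Y715.T.Gi (lam prime_lam lam_sq)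
open Pool.Agent.Y696.CTK (Tri ED)
open Pool.Agent.N883.FF (ClP PP FamE NxE fam_data pB card_all card_fam den3 PP_top fin_nr fam_iff
  card_ne_one)
open Pool.Agent.D0H43.L3 (KerT)
open Pool.Agent.D0H43.L9 (KerN)
open Pool.Agent.D0H10.KH
open Pool.Agent.D0H69.L0
open Pool.Agent.D0H69.L0F

/-- from the classes modulo three to the family -/
theorem fam_lim (T : Ei → Prop) {c : ℝ} (hlim : ∀ i : ZMod 3, Tendsto (fun X : ℕ =>
      ({z : Ei | nr z ≤ X ∧ ClP z ∧ (z ≠ 1 ∧ T (w ^ i.val * z))}.ncard : ℝ) / (PP X : ℝ)) atTop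
        (𝓝 c)) :
    Tendsto (fun X : ℕ => ({D : Ei | nr D ≤ X ∧ FamE D ∧ T D}.ncard : ℝ) / (FC X : ℝ))
      atTop (𝓝 c) := by
  have hP : Tendsto (fun X : ℕ => (PP X : ℝ)) atTop atTop := PP_top den3
  have h0 : Tendsto (fun X : ℕ => 1 / (PP X : ℝ)) atTop (𝓝 0) := by
    simp only [one_div]
    exact tendsto_inv_atTop_zero.comp hP
  have h1 := (((hlim 0).add (hlim 1)).add (hlim 2)).div
    ((tendsto_const_nhds (x := (1 : ℝ))).sub h0 |>.const_mul 3) (by norm_num)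
  have e1 : (c + c + c) / (3 * (1 - 0)) = c := by ring
  rw [e1] at h1
  refine h1.congr' ?_
  filter_upwards [hP.eventually_gt_atTop 1, eventually_ge_atTop 1] with X hX hX1
  rw [fc_eq hX1, card_fam T X]
  have hu : (Finset.univ : Finset (ZMod 3)) = {0, 1, 2} := by decide
  rw [hu, Finset.sum_insert (by decide), Finset.sum_insert (by decide), Finset.sum_singleton]
  push_cast
  have h2 : (PP X : ℝ) ≠ 0 := by linarith
  have h3 : (PP X : ℝ) - 1 ≠ 0 := by linarith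
  have h4 : 1 - 1 / (PP X : ℝ) ≠ 0 := by
    rw [Ne, sub_eq_zero, eq_div_iff h2]
    intro h
    apply h3
    linarith
  simp only [Pi.div_apply]
  field_simp
  ring

section
variable {K : Type} [Field K] [NumberField K] (j : Ei ≃+* 𝓞 K)

/-- the twists by `D` and by `D²` are trivial -/
def TT (D : Ei) : Prop := Tri (j D) ∧ Tri (j (D ^ 2))

/-- the property in the three classes -/
def SJ (a : ℕ) (z : Ei) : Prop := TT j (sg true * (lam ^ a * z))

lemma sg_sq (b : Bool) (x : Ei) : (sg b * x) ^ 2 = (sg true * x) ^ 2 := by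
  have h1 := sg_mul b
  have h2 := sg_mul true
  linear_combination x ^ 2 * h1 - x ^ 2 * h2

lemma tt_sg (b : Bool) (a : ℕ) (z : Ei) (ha : a < 3) (hz : FamE z) :
    TT j (sg b * (lam ^ a * z)) ↔ SJ j a z := by
  unfold SJ TT
  rw [tri_sg j b a z ha hz, sg_sq b]

lemma ne_one {n : ℕ} {π : Fin n → Ei} {e : Fin n → ZMod 3} [Nonempty (Fin n)] (hdt : Dt π e) :
    pD π e ≠ 1 := by
  intro h
  have := Pool.Agent.R419.CE.nunit hdt
  rw [h] at this
  exact this isUnit_one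

lemma lim1J : Tendsto (fun X : ℕ => ({z : Ei | nr z ≤ X ∧ FamE z ∧ SJ j 1 z}.ncard : ℝ) /
    (FC X : ℝ)) atTop (𝓝 (2 / 3 * c9)) := by
  refine fam_lim (SJ j 1) fun i => ?_
  refine joint_N i (fun z => z ≠ 1 ∧ SJ j 1 (w ^ i.val * z)) fun n π e hdt => ?_
  rw [and_iff_right (ne_one hdt)]
  unfold SJ TT
  rw [tri9 j hdt i true, sq1 j hdt i true]
  exact and_comm

lemma lim2J : Tendsto (fun X : ℕ => ({z : Ei | nr z ≤ X ∧ FamE z ∧ SJ j 2 z}.ncard : ℝ) /
    (FC X : ℝ)) atTop (𝓝 (2 / 3 * c9)) := by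
  refine fam_lim (SJ j 2) fun i => ?_
  refine joint_T i (fun z => z ≠ 1 ∧ SJ j 2 (w ^ i.val * z)) fun n π e hdt => ?_
  rw [and_iff_right (ne_one hdt)]
  unfold SJ TT
  rw [tri3 j hdt i true, sq2 j hdt i true]

/-- the exceptional class -/
lemma lim_excJ0 : Tendsto (fun X : ℕ => ({z : Ei | nr z ≤ X ∧ FamE z ∧
    (¬ NxE z ∧ SJ j 0 z)}.ncard : ℝ) / (PP X : ℝ)) atTop (𝓝 (7 / 27 * c9)) := by
  simp only [exc_set]
  refine joint_M (fun z => z ≠ 1 ∧ SJ j 0 z) fun n π e hdt hn => ?_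
  rw [and_iff_right (ne_one hdt)]
  unfold SJ TT
  have h1 := triM j hdt hn true
  have h2 := sqM j hdt hn true
  rw [e0] at h1 h2
  rw [h1, h2]

/-- the exceptional class as a part of the family -/
lemma lim_excJ : Tendsto (fun X : ℕ => ({z : Ei | nr z ≤ X ∧ FamE z ∧
    (¬ NxE z ∧ SJ j 0 z)}.ncard : ℝ) / (FC X : ℝ)) atTop (𝓝 (7 / 81 * c9)) := by
  have h0 : Tendsto (fun X => 1 / (PP X : ℝ)) atTop (𝓝 0) := by
    simp only [one_div]
    exact tendsto_inv_atTop_zero.comp (PP_top den3)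
  have h1 := (lim_excJ0 j).div
    ((tendsto_const_nhds (x := (1 : ℝ))).sub h0 |>.const_mul 3) (by norm_num)
  have e1 : 7 / 27 * c9 / (3 * (1 - 0)) = 7 / 81 * c9 := by ring
  rw [e1] at h1
  refine h1.congr' ?_
  filter_upwards [(PP_top den3).eventually_gt_atTop 1, eventually_ge_atTop 1] with X hX hX1
  have h2 : (PP X : ℝ) ≠ 0 := by linarith
  have h3 : (PP X : ℝ) - 1 ≠ 0 := by linarith
  have h4 : 1 - 1 / (PP X : ℝ) ≠ 0 := by
    rw [Ne, sub_eq_zero, eq_div_iff h2]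
    intro h
    apply h3
    linarith
  simp only [Pi.div_apply]
  rw [fc_eq hX1]
  field_simp

/-- outside of the exceptional class the two conditions are the same -/
lemma nx_same {z : Ei} (hz : FamE z) (hx : NxE z) : SJ j 0 z ↔ SS j 0 z := by
  obtain ⟨i, n, π, e, hdt, rfl⟩ := fam_data hz
  have hpB : pB π e i = w ^ i.val * pD π e := rfl
  rw [hpB] at hz hx ⊢
  unfold SJ TT SS
  rw [sq0 j hdt i (nx_i hdt hx) true, and_self]
  exact ⟨fun h => ⟨fun _ => hx, h⟩, fun h => h.2⟩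

lemma lim0J [IsCyclotomicExtension {3} ℚ K] (hj : ∀ z : Ei, Algebra.norm ℤ (j z) = nr z) :
    Tendsto (fun X : ℕ => ({z : Ei | nr z ≤ X ∧ FamE z ∧ SJ j 0 z}.ncard : ℝ) / (FC X : ℝ)) atTop
      (𝓝 (79 / 81 * c9)) := by
  have h := (lim0 j hj).add (lim_excJ j)
  have e : (8 / 9 * c9 + 7 / 81 * c9 : ℝ) = 79 / 81 * c9 := by ring
  rw [e] at h
  refine h.congr fun X => ?_
  rw [← add_div]
  congr 1
  have h1 : {z : Ei | nr z ≤ X ∧ FamE z ∧ SJ j 0 z} =
      {z : Ei | nr z ≤ X ∧ FamE z ∧ SS j 0 z} ∪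
        {z : Ei | nr z ≤ X ∧ FamE z ∧ (¬ NxE z ∧ SJ j 0 z)} := by
    ext z
    constructor
    · rintro ⟨a, b, c⟩
      by_cases h : NxE z
      · exact Or.inl ⟨a, b, (nx_same j b h).1 c⟩
      · exact Or.inr ⟨a, b, h, c⟩
    · rintro (⟨a, b, c⟩ | ⟨a, b, -, c⟩)
      · exact ⟨a, b, (nx_same j b (c.1 rfl)).2 c⟩
      · exact ⟨a, b, c⟩
  have h2 : Disjoint {z : Ei | nr z ≤ X ∧ FamE z ∧ SS j 0 z}
      {z : Ei | nr z ≤ X ∧ FamE z ∧ (¬ NxE z ∧ SJ j 0 z)} := by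
    rw [Set.disjoint_left]
    rintro z ⟨-, -, h3, -⟩ ⟨-, -, h4, -⟩
    exact h4 (h3 rfl)
  rw [h1, Set.ncard_union_eq h2 ((fin_nr X).subset fun z hz => hz.1)
    ((fin_nr X).subset fun z hz => hz.1)]
  push_cast
  rfl

/-- **The joint proportion among all cube-free elements.** -/
theorem lim_allJ [IsCyclotomicExtension {3} ℚ K] (hj : ∀ z : Ei, Algebra.norm ℤ (j z) = nr z) :
    Tendsto (fun X : ℕ => ({D : Ei | nr D ≤ X ∧ CFam D ∧ TT j D}.ncard : ℝ) /
        ({D : Ei | nr D ≤ X ∧ CFam D}.ncard : ℝ)) atTop (𝓝 (103 / 117 * c9)) := by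
  have h := lim3 (lim0J j hj) (lim1J j) (lim2J j)
  have e : (79 / 81 * c9 + 2 / 3 * c9 / 3 + 2 / 3 * c9 / 9) / (13 / 9) = 103 / 117 * c9 := by ring
  rw [e] at h
  refine h.congr fun X => ?_
  rw [card_cfam, count' (TT j) (SJ j) (fun b a z ha hz => tt_sg j b a z ha hz) X]

/-- the exceptional class -/
theorem lim_excJ' : Tendsto (fun X : ℕ =>
      ({D : Ei | nr D ≤ X ∧ CFam D ∧ (ExcE D ∧ TT j D)}.ncard : ℝ) /
        ({D : Ei | nr D ≤ X ∧ CFam D ∧ ExcE D}.ncard : ℝ)) atTop (𝓝 (7 / 9 * c9)) := by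
  have hex : ∀ (b : Bool) (a : ℕ) (z : Ei), FamE z →
      (ExcE (sg b * (lam ^ a * z)) ↔ a = 0 ∧ ¬ NxE z) := by
    intro b a z hz
    by_cases ha : a = 0
    · subst ha
      rw [exc_iff hz b]
      exact ⟨fun h => ⟨rfl, h⟩, fun h => h.2⟩
    · exact ⟨fun h => absurd h (exc_no b ha z), fun h => absurd h.1 ha⟩
  have hc := count' (fun D => ExcE D) (fun a z => a = 0 ∧ ¬ NxE z)
    (fun b a z _ hz => hex b a z hz)
  have hn := count' (fun D => ExcE D ∧ TT j D) (fun a z => a = 0 ∧ (¬ NxE z ∧ SJ j a z))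
    (fun b a z ha hz => by
      rw [hex b a z hz, tt_sg j b a z ha hz, and_assoc])
  simp only [hc, hn, true_and]
  have h0 : Tendsto (fun X => 1 / (BB X : ℝ)) atTop (𝓝 0) := by
    simp only [one_div]
    exact tendsto_inv_atTop_zero.comp bb_top
  have h1 : Tendsto (fun X : ℕ => ({z : Ei | nr z ≤ X ∧ FamE z ∧
      (¬ NxE z ∧ SJ j 0 z)}.ncard : ℝ) / (BB X : ℝ) / (1 - 1 / (BB X : ℝ))) atTop
      (𝓝 (7 / 9 * c9)) := by
    have h2 := ((lim_excJ0 j).div bb_ratio (by norm_num)).div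
      ((tendsto_const_nhds (x := (1 : ℝ))).sub h0) (by norm_num)
    have e1 : 7 / 27 * c9 / (1 / 3) / (1 - 0) = 7 / 9 * c9 := by ring
    rw [e1] at h2
    refine h2.congr' ?_
    filter_upwards [(PP_top den3).eventually_gt_atTop 0] with X hX
    have h3 : (PP X : ℝ) ≠ 0 := ne_of_gt hX
    simp only [Pi.div_apply]
    rw [div_div_div_cancel_right₀ h3]
  refine h1.congr' ?_
  filter_upwards [bb_top.eventually_gt_atTop 1, eventually_ge_atTop 1] with X hX hX1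
  have h2 : {z : Ei | nr z ≤ (X : ℤ) ∧ FamE z ∧ ¬ NxE z}.ncard + 1 = BB X := by
    have h3 := exc_set (fun _ => True) X
    simp only [and_true] at h3
    rw [h3]
    have h5 : {D : Ei | nr D ≤ X ∧ ClP D ∧ (9 : ℤ) ∣ nr D - 1} =
        insert 1 {z : Ei | nr z ≤ X ∧ ClP z ∧ (9 : ℤ) ∣ nr z - 1 ∧ z ≠ 1} := by
      ext z
      simp only [Set.mem_ofPred_eq, Set.mem_insert_iff]
      constructor
      · rintro ⟨a, b, c⟩
        by_cases hz : z = 1
        · exact Or.inl hz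
        · exact Or.inr ⟨a, b, c, hz⟩
      · rintro (rfl | ⟨a, b, c, d⟩)
        · have h6 := Pool.Agent.N883.FF.one_mem X hX1
          refine ⟨h6.1, h6.2, ?_⟩
          have : nr (1 : Ei) = 1 := by decide
          rw [this, sub_self]
          exact dvd_zero _
        · exact ⟨a, b, c⟩
    have hf : {z : Ei | nr z ≤ X ∧ ClP z ∧ (9 : ℤ) ∣ nr z - 1 ∧ z ≠ 1}.Finite :=
      (fin_nr X).subset fun z hz => hz.1
    unfold BB
    rw [h5, Set.ncard_insert_of_notMem (fun h => h.2.2.2 rfl) hf]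
  have h6 : ({z : Ei | nr z ≤ (X : ℤ) ∧ FamE z ∧ ¬ NxE z}.ncard : ℝ) =
      (BB X : ℝ) - 1 := by
    rw [← h2]
    push_cast
    ring
  have h7 : ∀ (n : ℕ), n ≠ 0 → ∀ (Y : ℤ) (P : Ei → Prop),
      {z : Ei | nr z ≤ Y ∧ FamE z ∧ (n = 0 ∧ P z)} = ∅ := by
    intro n hn Y P
    ext z
    simp only [Set.mem_ofPred_eq, Set.mem_empty_iff_false, iff_false]
    exact fun h => hn h.2.2.1
  have k1 := h7 1 one_ne_zero ((X / 3 : ℕ) : ℤ) (fun z => ¬ NxE z ∧ SJ j 1 z)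
  have k2 := h7 2 two_ne_zero ((X / 3 / 3 : ℕ) : ℤ) (fun z => ¬ NxE z ∧ SJ j 2 z)
  have k3 := h7 1 one_ne_zero ((X / 3 : ℕ) : ℤ) (fun z => ¬ NxE z)
  have k4 := h7 2 two_ne_zero ((X / 3 / 3 : ℕ) : ℤ) (fun z => ¬ NxE z)
  rw [k1, k2, k3, k4, Set.ncard_empty, add_zero, add_zero, add_zero, add_zero, Nat.cast_mul,
    Nat.cast_mul, mul_div_mul_left _ _ (show ((2 : ℕ) : ℝ) ≠ 0 by norm_num), h6]
  have h9 : (BB X : ℝ) ≠ 0 := by linarith
  have h10 : (BB X : ℝ) - 1 ≠ 0 := by linarith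
  have h11 : 1 - 1 / (BB X : ℝ) ≠ 0 := by
    rw [Ne, sub_eq_zero, eq_div_iff h9]
    intro h
    apply h10
    linarith
  field_simp

/-- the classes of the `D` divisible exactly `a` times by `√-3` -/
theorem lim_clsJ (a : ℕ) (ha : a = 1 ∨ a = 2) : Tendsto (fun X : ℕ =>
      ({D : Ei | nr D ≤ X ∧ CFam D ∧ ((lam ^ a ∣ D ∧ ¬ lam ^ (a + 1) ∣ D) ∧ TT j D)}.ncard : ℝ) /
        ({D : Ei | nr D ≤ X ∧ CFam D ∧ (lam ^ a ∣ D ∧ ¬ lam ^ (a + 1) ∣ D)}.ncard : ℝ)) atTop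
          (𝓝 (2 / 3 * c9)) := by
  have hex : ∀ (b : Bool) (a' : ℕ) (z : Ei), FamE z →
      ((lam ^ a ∣ sg b * (lam ^ a' * z) ∧ ¬ lam ^ (a + 1) ∣ sg b * (lam ^ a' * z)) ↔ a' = a) := by
    intro b a' z hz
    have hl := fam_lam hz
    have key : ∀ m : ℕ, lam ^ m ∣ sg b * (lam ^ a' * z) ↔ m ≤ a' := by
      intro m
      rw [(sg_unit b).dvd_mul_left]
      constructor
      · intro h
        by_contra hlt
        push Not at hlt
        obtain ⟨c, rfl⟩ : ∃ c, m = a' + (c + 1) := ⟨m - a' - 1, by omega⟩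
        rw [pow_add] at h
        have h5 := (mul_dvd_mul_iff_left (pow_ne_zero a' prime_lam.ne_zero)).1 h
        exact hl ((dvd_pow_self lam (Nat.succ_ne_zero c)).trans h5)
      · exact fun h => (pow_dvd_pow lam h).mul_right _
    rw [key, key]
    omega
  have hc := count' (fun D => (lam ^ a ∣ D ∧ ¬ lam ^ (a + 1) ∣ D)) (fun a' _ => a' = a)
    (fun b a' z _ hz => hex b a' z hz)
  have hn := count' (fun D => (lam ^ a ∣ D ∧ ¬ lam ^ (a + 1) ∣ D) ∧ TT j D)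
    (fun a' z => a' = a ∧ SJ j a' z) (fun b a' z ha' hz => by
      rw [hex b a' z hz]
      exact and_congr_right fun h => tt_sg j b a' z ha' hz)
  simp only [hc, hn]
  rcases ha with rfl | rfl
  · refine ((lim1J j).comp div3_top).congr fun X => ?_
    simp only [Function.comp_apply, false_and, and_false, true_and,
      Set.ofPred_false, Set.ncard_empty, zero_add, add_zero, and_true, OfNat.ofNat_ne_one,
      zero_ne_one]
    push_cast
    rw [mul_div_mul_left _ _ (two_ne_zero)]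
    rfl
  · refine (((lim2J j).comp div3_top).comp div3_top).congr fun X => ?_
    simp only [Function.comp_apply, false_and, and_false, true_and,
      Set.ofPred_false, Set.ncard_empty, zero_add, add_zero, and_true,
      OfNat.zero_ne_ofNat, OfNat.one_ne_ofNat]
    push_cast
    rw [mul_div_mul_left _ _ (two_ne_zero)]
    rfl

end

end Pool.Agent.D0H50.JL
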