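import Pool.Agent.D0H50.JL.Cnd
import Pool.Agent.Y688.XK.BOX
import Pool.Agent.D0H69.L3K.Box

/-!
# Project JL: pencils of symmetric systems over the field with three elements

Border a matrix by a column and a row.  The determinant is a polynomial of degree at most one in the
corner, and the coefficient is the determinant of the matrix.  So of the four matrices, the matrix
and the bordered matrices with the corners `t = 0, 1, 2`, exactly three or none are regular.
-/

set_option autoImplicit false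
set_option linter.unusedVariables false

open scoped Classical

namespace Pool.Agent.D0H50.JL

open Finset
open Pool.Agent.Y692.QS (Ei w nr toC)
open Pool.Agent.Y715.T.Rec (cs)
open Pool.Agent.Y715.T.RecG (Pq)
open Pool.Agent.R419.KF (wt wt_ne GdW SolW)
open Pool.Agent.Y688.XK (cs_symm)
open Pool.Agent.N883.FF (nq)
open Pool.Agent.D0H43.L3 (yq)
open Pool.Agent.D0H69.L0D (NtS)

/-- exactly three of the four statements hold, or none -/
def Quad (A B C D : Prop) : Prop :=
  (¬ A ∧ B ∧ C ∧ D) ∨ (A ∧ ¬ B ∧ C ∧ D) ∨ (A ∧ B ∧ ¬ C ∧ D) ∨ (A ∧ B ∧ C ∧ ¬ D) ∨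
    (¬ A ∧ ¬ B ∧ ¬ C ∧ ¬ D)

theorem Quad.perm {A B C D : Prop} (h : Quad A B C D) : Quad C D A B := by
  unfold Quad at *
  tauto

theorem Quad.rot {A B C D : Prop} (h : Quad A B C D) : Quad B C A D := by
  unfold Quad at *
  tauto

theorem Quad.congr {A B C D A' B' C' D' : Prop} (h : Quad A B C D) (hA : A ↔ A') (hB : B ↔ B')
    (hC : C ↔ C') (hD : D ↔ D') : Quad A' B' C' D' := by
  rw [← hA, ← hB, ← hC, ← hD]
  exact h

/-- the count -/
theorem card_quad {α : Type} (s : Finset α) (A B C D : α → Prop)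
    (h : ∀ x ∈ s, Quad (A x) (B x) (C x) (D x)) :
    3 * (s.filter fun x => A x ∧ B x).card + (s.filter C).card + (s.filter D).card =
      2 * (s.filter A).card + 2 * (s.filter B).card := by
  simp only [Finset.card_filter]
  rw [Finset.mul_sum, Finset.mul_sum, Finset.mul_sum, ← Finset.sum_add_distrib,
    ← Finset.sum_add_distrib, ← Finset.sum_add_distrib]
  refine Finset.sum_congr rfl fun x hx => ?_
  rcases h x hx with h | h | h | h | h
  · obtain ⟨h1, h2, h3, h4⟩ := h
    simp [h1, h2, h3, h4]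
  · obtain ⟨h1, h2, h3, h4⟩ := h
    simp [h1, h2, h3, h4]
  · obtain ⟨h1, h2, h3, h4⟩ := h
    simp [h1, h2, h3, h4]
  · obtain ⟨h1, h2, h3, h4⟩ := h
    simp [h1, h2, h3, h4]
  · obtain ⟨h1, h2, h3, h4⟩ := h
    simp [h1, h2, h3, h4]

section abs
variable {V : Type} [AddCommGroup V] [Module (ZMod 3) V]

/-- the bordered system has only trivial solutions -/
def Gp (B : V →ₗ[ZMod 3] V) (u : V) (φ : V →ₗ[ZMod 3] ZMod 3) (W : Submodule (ZMod 3) V)
    (t : ZMod 3) : Prop :=
  ∀ (v : V) (a : ZMod 3), B v + a • u = 0 → φ v = t * a → v ∈ W ∧ a = 0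

/-- the system has only trivial solutions -/
def Tp (B : V →ₗ[ZMod 3] V) (W : Submodule (ZMod 3) V) : Prop := ∀ v, B v = 0 → v ∈ W

theorem pencil (B : V →ₗ[ZMod 3] V) (u : V) (φ : V →ₗ[ZMod 3] ZMod 3)
    (W : Submodule (ZMod 3) V) (hW1 : ∀ v ∈ W, B v = 0) (hW2 : ∀ v ∈ W, φ v = 0)
    (hu : Tp B W → ∃ x, B x = u) :
    (Tp B W ∧ ∃ t₀ : ZMod 3, ∀ t : ZMod 3, Gp B u φ W t ↔ t ≠ t₀) ∨
      (¬ Tp B W ∧ ∀ t t' : ZMod 3, Gp B u φ W t → Gp B u φ W t') := by
  by_cases hT : Tp B W
  · left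
    refine ⟨hT, ?_⟩
    obtain ⟨x, hx⟩ := hu hT
    refine ⟨-φ x, fun t => ⟨fun hG ht => ?_, fun ht v a h1 h2 => ?_⟩⟩
    · have h := (hG (-x) 1 (by rw [map_neg, hx, one_smul, neg_add_cancel])
        (by rw [map_neg, ht, mul_one])).2
      exact absurd h (by decide)
    · have h3 : B (v + a • x) = 0 := by rw [map_add, map_smul, hx, h1]
      have h4 := hT _ h3
      have h5 := hW2 _ h4
      rw [map_add, map_smul, smul_eq_mul, h2] at h5
      have h6 : a * (t - -φ x) = 0 := by linear_combination h5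
      have h7 : a = 0 := (mul_eq_zero.1 h6).resolve_right (sub_ne_zero.2 ht)
      refine ⟨?_, h7⟩
      rw [h7, zero_smul, add_zero] at h4
      exact h4
  · right
    refine ⟨hT, fun t t' hG v a h1 h2 => ?_⟩
    unfold Tp at hT
    push Not at hT
    obtain ⟨v0, hv0, hv0W⟩ := hT
    have hφ : φ v0 ≠ 0 := by
      intro h0
      exact hv0W (hG v0 0 (by rw [hv0, zero_smul, add_zero]) (by rw [h0, mul_zero])).1
    obtain ⟨c, hc⟩ : ∃ c : ZMod 3, c = (t * a - φ v) * (φ v0)⁻¹ := ⟨_, rfl⟩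
    have hc' : c * φ v0 = t * a - φ v := by
      rw [hc, mul_assoc, inv_mul_cancel₀ hφ, mul_one]
    obtain ⟨h3, h4⟩ := hG (v + c • v0) a (by
      rw [map_add, map_smul, hv0, smul_zero, add_zero, h1]) (by
      rw [map_add, map_smul, smul_eq_mul, hc']
      ring)
    refine ⟨?_, h4⟩
    have h5 : c = 0 := by
      rw [h4, mul_zero] at h2
      rw [h4, h2, mul_zero, sub_zero, mul_eq_zero] at hc'
      exact hc'.resolve_right hφ
    rw [h5, zero_smul, add_zero] at h3
    exact h3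

theorem pencil_quad (B : V →ₗ[ZMod 3] V) (u : V) (φ : V →ₗ[ZMod 3] ZMod 3)
    (W : Submodule (ZMod 3) V) (hW1 : ∀ v ∈ W, B v = 0) (hW2 : ∀ v ∈ W, φ v = 0)
    (hu : Tp B W → ∃ x, B x = u) (t : ZMod 3) :
    Quad (Tp B W) (Gp B u φ W t) (Gp B u φ W (t + 1)) (Gp B u φ W (t + 2)) := by
  rcases pencil B u φ W hW1 hW2 hu with ⟨h1, t0, h2⟩ | ⟨h1, h2⟩
  · unfold Quad
    rw [h2, h2, h2]
    have key : ∀ t t0 : ZMod 3, (t = t0 ∧ t + 1 ≠ t0 ∧ t + 2 ≠ t0) ∨
        (t ≠ t0 ∧ t + 1 = t0 ∧ t + 2 ≠ t0) ∨ (t ≠ t0 ∧ t + 1 ≠ t0 ∧ t + 2 = t0) := by decide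
    rcases key t t0 with h | h | h
    · exact Or.inr (Or.inl ⟨h1, fun h' => h' h.1, h.2.1, h.2.2⟩)
    · exact Or.inr (Or.inr (Or.inl ⟨h1, h.1, fun h' => h' h.2.1, h.2.2⟩))
    · exact Or.inr (Or.inr (Or.inr (Or.inl ⟨h1, h.1, h.2.1, fun h' => h' h.2.2⟩)))
  · unfold Quad
    by_cases h : Gp B u φ W t
    · exact Or.inl ⟨h1, h, h2 _ _ h, h2 _ _ h⟩
    · exact Or.inr (Or.inr (Or.inr (Or.inr ⟨h1, h, fun h' => h (h2 _ _ h'),
        fun h' => h (h2 _ _ h')⟩)))

end abs

/-! ### the systems -/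

section sys
variable (q : Ei → ZMod 3) (M S : Finset Ei)

/-- the Laplacian with the potential `q` on the functions on `S` -/
noncomputable def LB : (S → ZMod 3) →ₗ[ZMod 3] (S → ZMod 3) where
  toFun v := fun π => ∑ ρ : S, wt M ρ * cs π ρ * (v ρ - v π) - q π * v π
  map_add' v v' := by
    funext π
    simp only [Pi.add_apply]
    rw [← sub_eq_zero]
    have h1 : ∑ ρ : S, wt M ρ * cs (π : Ei) ρ * (v ρ + v' ρ - (v π + v' π)) =
        ∑ ρ : S, wt M ρ * cs (π : Ei) ρ * (v ρ - v π) +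
          ∑ ρ : S, wt M ρ * cs (π : Ei) ρ * (v' ρ - v' π) := by
      rw [← Finset.sum_add_distrib]
      exact Finset.sum_congr rfl fun ρ _ => by ring
    rw [h1]
    ring
  map_smul' c v := by
    funext π
    simp only [Pi.smul_apply, smul_eq_mul, RingHom.id_apply]
    rw [mul_sub, Finset.mul_sum]
    congr 1
    · exact Finset.sum_congr rfl fun ρ _ => by ring
    · ring

/-- the border -/
noncomputable def Lφ : (S → ZMod 3) →ₗ[ZMod 3] ZMod 3 where
  toFun v := ∑ ρ : S, wt M ρ * v ρ * nq ρ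
  map_add' v v' := by
    rw [← Finset.sum_add_distrib]
    exact Finset.sum_congr rfl fun ρ _ => by
      rw [Pi.add_apply]
      ring
  map_smul' c v := by
    rw [RingHom.id_apply, smul_eq_mul, Finset.mul_sum]
    exact Finset.sum_congr rfl fun ρ _ => by
      rw [Pi.smul_apply, smul_eq_mul]
      ring

/-- the column -/
def Lu : S → ZMod 3 := fun π => nq (π : Ei)

end sys

theorem LB_apply (q : Ei → ZMod 3) (M S : Finset Ei) (v : S → ZMod 3) (π : S) :
    LB q M S v π = ∑ ρ : S, wt M ρ * cs π ρ * (v ρ - v π) - q π * v π := rfl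

theorem Lφ_apply (M S : Finset Ei) (v : S → ZMod 3) :
    Lφ M S v = ∑ ρ : S, wt M ρ * v ρ * nq ρ := rfl

/-- extension by zero -/
theorem ex_ext {S : Finset Ei} (v : S → ZMod 3) : ∃ v' : Ei → ZMod 3, ∀ x : S, v' x = v x :=
  ⟨fun x => if h : x ∈ S then v ⟨x, h⟩ else 0, fun x => by
    show (if h : (x : Ei) ∈ S then v ⟨x, h⟩ else 0) = v x
    rw [dif_pos x.2]⟩

theorem gdP_iff (r s : ZMod 3) (M S : Finset Ei) :
    GdP r s M S ↔ Tp (LB (qG r s) M S) ⊥ := by
  unfold GdP Tp
  constructor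
  · intro h v hv
    obtain ⟨v', hv'⟩ := ex_ext v
    have h1 := h v' (fun π hπ => by
      have h2 := congrFun hv ⟨π, hπ⟩
      rw [LB_apply, Pi.zero_apply, sub_eq_zero] at h2
      rw [← Finset.sum_coe_sort S]
      have e := hv' ⟨π, hπ⟩
      simp only [hv', e]
      exact h2)
    rw [Submodule.mem_bot]
    funext π
    rw [← hv' π]
    exact h1 π π.2
  · intro h v hv π hπ
    have h1 := h (fun x => v x) (by
      funext x
      rw [LB_apply, Pi.zero_apply, sub_eq_zero]
      have h2 := hv x x.2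
      rw [← Finset.sum_coe_sort S] at h2
      exact h2)
    rw [Submodule.mem_bot] at h1
    exact congrFun h1 ⟨π, hπ⟩

theorem gdG_iff (r s t : ZMod 3) (M S : Finset Ei) :
    GdG r s t M S ↔ Gp (LB (qG r s) M S) (Lu S) (Lφ M S) ⊥ t := by
  unfold GdG Gp
  constructor
  · intro h v a hv ha
    obtain ⟨v', hv'⟩ := ex_ext v
    have h1 := h v' a (fun π hπ => by
      have h2 := congrFun hv ⟨π, hπ⟩
      rw [Pi.add_apply, Pi.smul_apply, LB_apply, Pi.zero_apply, smul_eq_mul] at h2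
      rw [← Finset.sum_coe_sort S]
      have e := hv' ⟨π, hπ⟩
      simp only [hv', e]
      have e2 : Lu S ⟨π, hπ⟩ = nq π := rfl
      rw [e2] at h2
      linear_combination h2) (by
      rw [← Finset.sum_coe_sort S]
      simp only [hv']
      exact ha)
    refine ⟨?_, h1.2⟩
    rw [Submodule.mem_bot]
    funext π
    rw [← hv' π]
    exact h1.1 π π.2
  · intro h v a hv ha
    have h1 := h (fun x => v x) a (by
      funext x
      rw [Pi.add_apply, Pi.smul_apply, LB_apply, Pi.zero_apply, smul_eq_mul]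
      have h2 := hv x x.2
      rw [← Finset.sum_coe_sort S] at h2
      have e2 : Lu S x = nq (x : Ei) := rfl
      rw [e2]
      linear_combination h2) (by
      rw [← Finset.sum_coe_sort S] at ha
      exact ha)
    refine ⟨fun π hπ => ?_, h1.2⟩
    have h3 := h1.1
    rw [Submodule.mem_bot] at h3
    exact congrFun h3 ⟨π, hπ⟩

/-- an injective endomorphism is surjective -/
theorem surj_of {S : Finset Ei} (B : (S → ZMod 3) →ₗ[ZMod 3] (S → ZMod 3)) (h : Tp B ⊥)
    (u : S → ZMod 3) : ∃ x, B x = u := by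
  have h1 : Function.Injective B := by
    rw [← LinearMap.ker_eq_bot, eq_bot_iff]
    exact fun v hv => h v hv
  exact (Finite.injective_iff_surjective.1 h1) u

/-- **The four conditions of the systems with the potential `r nq + s yq`.** -/
theorem quad_P (r s t : ZMod 3) (M S : Finset Ei) :
    Quad (GdP r s M S) (GdG r s t M S) (GdG r s (t + 1) M S) (GdG r s (t + 2) M S) := by
  refine Quad.congr (pencil_quad (LB (qG r s) M S) (Lu S) (Lφ M S) ⊥ ?_ ?_
    (fun h => surj_of _ h _) t) (gdP_iff r s M S).symm (gdG_iff r s t M S).symm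
    (gdG_iff r s _ M S).symm (gdG_iff r s _ M S).symm
  · intro v hv
    rw [Submodule.mem_bot] at hv
    rw [hv, map_zero]
  · intro v hv
    rw [Submodule.mem_bot] at hv
    rw [hv, map_zero]

/-! ### the constants -/

/-- the constants -/
def Wc (S : Finset Ei) : Submodule (ZMod 3) (S → ZMod 3) where
  carrier := {v | ∀ x y, v x = v y}
  zero_mem' := fun x y => rfl
  add_mem' := fun {a b} ha hb x y => by
    show a x + b x = a y + b y
    rw [ha x y, hb x y]
  smul_mem' := fun c a ha x y => by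
    show c * a x = c * a y
    rw [ha x y]

theorem mem_Wc {S : Finset Ei} {v : S → ZMod 3} : v ∈ Wc S ↔ ∀ x y, v x = v y := Iff.rfl

theorem gdW_iff (M S : Finset Ei) : GdW M S ↔ Tp (LB (fun _ => 0) M S) (Wc S) := by
  unfold GdW SolW Tp
  constructor
  · intro h v hv
    obtain ⟨v', hv'⟩ := ex_ext v
    have h1 := h v' (fun π hπ => by
      have h2 := congrFun hv ⟨π, hπ⟩
      rw [LB_apply, Pi.zero_apply, zero_mul, sub_zero] at h2
      rw [← Finset.sum_coe_sort S]
      have e := hv' ⟨π, hπ⟩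
      simp only [hv', e]
      exact h2)
    rw [mem_Wc]
    intro x y
    rw [← hv' x, ← hv' y]
    exact h1 x x.2 y y.2
  · intro h v hv π hπ ρ hρ
    have h1 := h (fun x => v x) (by
      funext x
      rw [LB_apply, Pi.zero_apply, zero_mul, sub_zero]
      have h2 := hv x x.2
      rw [← Finset.sum_coe_sort S] at h2
      exact h2)
    rw [mem_Wc] at h1
    exact h1 ⟨π, hπ⟩ ⟨ρ, hρ⟩

theorem gdC_iff (t : ZMod 3) (M S : Finset Ei) :
    GdC t M S ↔ Gp (LB (fun _ => 0) M S) (Lu S) (Lφ M S) (Wc S) (-t) := by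
  unfold GdC Gp
  constructor
  · intro h v a hv ha
    obtain ⟨v', hv'⟩ := ex_ext v
    have h1 := h v' a (fun π hπ => by
      have h2 := congrFun hv ⟨π, hπ⟩
      rw [Pi.add_apply, Pi.smul_apply, LB_apply, Pi.zero_apply, smul_eq_mul, zero_mul,
        sub_zero] at h2
      rw [← Finset.sum_coe_sort S]
      have e := hv' ⟨π, hπ⟩
      simp only [hv', e]
      exact h2) (by
      rw [← Finset.sum_coe_sort S]
      simp only [hv']
      rw [Lφ_apply] at ha
      rw [ha]
      ring)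
    refine ⟨?_, h1.2⟩
    rw [mem_Wc]
    intro x y
    rw [← hv' x, ← hv' y]
    exact h1.1 x x.2 y y.2
  · intro h v a hv ha
    have h1 := h (fun x => v x) a (by
      funext x
      rw [Pi.add_apply, Pi.smul_apply, LB_apply, Pi.zero_apply, smul_eq_mul, zero_mul, sub_zero]
      have h2 := hv x x.2
      rw [← Finset.sum_coe_sort S] at h2
      exact h2) (by
      rw [← Finset.sum_coe_sort S] at ha
      rw [Lφ_apply]
      linear_combination ha)
    refine ⟨fun π hπ ρ hρ => ?_, h1.2⟩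
    have h3 := h1.1
    rw [mem_Wc] at h3
    exact h3 ⟨π, hπ⟩ ⟨ρ, hρ⟩

/-- if the kernel of the Laplacian consists of the constants, then its image contains `nq` -/
theorem surj_W {M S : Finset Ei} (hS : ∀ π ∈ S, Pq π) (hN : NtS M S)
    (h : Tp (LB (fun _ => 0) M S) (Wc S)) : ∃ x, LB (fun _ => 0) M S x = Lu S := by
  by_contra hno
  have h1 : Lu S ∉ LinearMap.range (LB (fun _ => 0) M S) := fun ⟨x, hx⟩ => hno ⟨x, hx⟩
  obtain ⟨f, hf1, hf2⟩ := Submodule.exists_dual_map_eq_bot_of_notMem h1 inferInstance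
  -- the coefficients of the functional
  obtain ⟨c, hc⟩ : ∃ c : S → ZMod 3, ∀ v : S → ZMod 3, f v = ∑ π : S, c π * v π := by
    refine ⟨fun π => f (Pi.single π 1), fun v => ?_⟩
    have e1 : v = ∑ π : S, v π • (Pi.single π 1 : S → ZMod 3) := by
      funext l
      rw [Finset.sum_apply, Finset.sum_eq_single l]
      · rw [Pi.smul_apply, Pi.single_eq_same, smul_eq_mul, mul_one]
      · intro j _ hj
        rw [Pi.smul_apply, Pi.single_eq_of_ne (Ne.symm hj), smul_eq_mul, mul_zero]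
      · intro h3
        exact absurd (Finset.mem_univ l) h3
    conv_lhs => rw [e1]
    rw [map_sum]
    refine Finset.sum_congr rfl fun π _ => ?_
    rw [map_smul, smul_eq_mul, mul_comm]
  have hz : ∀ v : S → ZMod 3, f (LB (fun _ => 0) M S v) = 0 := by
    intro v
    have h2 : f (LB (fun _ => 0) M S v) ∈
        (LinearMap.range (LB (fun _ => 0) M S)).map f := ⟨_, ⟨v, rfl⟩, rfl⟩
    rw [hf2, Submodule.mem_bot] at h2
    exact h2
  -- the functional is a solution
  obtain ⟨d, hd⟩ : ∃ d : S → ZMod 3, ∀ π : S, c π = wt M π * d π :=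
    ⟨fun π => (wt M π)⁻¹ * c π, fun π => by
      rw [← mul_assoc, mul_inv_cancel₀ (wt_ne M _), one_mul]⟩
  have hsol : LB (fun _ => 0) M S d = 0 := by
    funext ρ
    rw [LB_apply, Pi.zero_apply, zero_mul, sub_zero]
    have h3 := hz (Pi.single ρ 1)
    rw [hc] at h3
    have e3 : ∀ π : S, LB (fun _ => 0) M S (Pi.single ρ 1) π =
        wt M ρ * cs π ρ - (if π = ρ then ∑ ρ' : S, wt M ρ' * cs (π : Ei) ρ' else 0) := by
      intro π
      rw [LB_apply, zero_mul, sub_zero]
      have e4 : ∑ ρ' : S, wt M ρ' * cs (π : Ei) ρ' *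
          ((Pi.single ρ 1 : S → ZMod 3) ρ' - (Pi.single ρ 1 : S → ZMod 3) π) =
          ∑ ρ' : S, wt M ρ' * cs (π : Ei) ρ' * (Pi.single ρ 1 : S → ZMod 3) ρ' -
            (∑ ρ' : S, wt M ρ' * cs (π : Ei) ρ') * (Pi.single ρ 1 : S → ZMod 3) π := by
        rw [Finset.sum_mul, ← Finset.sum_sub_distrib]
        exact Finset.sum_congr rfl fun ρ' _ => by ring
      rw [e4, Finset.sum_eq_single ρ]
      · rw [Pi.single_eq_same, mul_one]
        by_cases hπ : π = ρ
        · rw [if_pos hπ, hπ, Pi.single_eq_same, mul_one]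
        · rw [if_neg hπ, Pi.single_eq_of_ne hπ, mul_zero]
      · intro j _ hj
        rw [Pi.single_eq_of_ne hj, mul_zero]
      · intro h3
        exact absurd (Finset.mem_univ ρ) h3
    simp only [e3, mul_sub] at h3
    rw [Finset.sum_sub_distrib] at h3
    have e5 : ∑ π : S, c π * (if π = ρ then ∑ ρ' : S, wt M ρ' * cs (π : Ei) ρ' else 0) =
        c ρ * ∑ ρ' : S, wt M ρ' * cs (ρ : Ei) ρ' := by
      rw [Finset.sum_eq_single ρ]
      · rw [if_pos rfl]
      · intro j _ hj
        rw [if_neg hj, mul_zero]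
      · intro h3
        exact absurd (Finset.mem_univ ρ) h3
    rw [e5] at h3
    have e6 : ∑ π : S, c π * (wt M ρ * cs π ρ) - c ρ * ∑ ρ' : S, wt M ρ' * cs (ρ : Ei) ρ' =
        wt M ρ * ∑ π : S, wt M π * cs (ρ : Ei) π * (d π - d ρ) := by
      rw [Finset.mul_sum, Finset.mul_sum, ← Finset.sum_sub_distrib]
      refine Finset.sum_congr rfl fun π _ => ?_
      rw [hd π, hd ρ, cs_symm (hS π π.2) (hS ρ ρ.2)]
      ring
    rw [e6] at h3
    exact (mul_eq_zero.1 h3).resolve_left (wt_ne M _)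
  have hconst := h d hsol
  rw [mem_Wc] at hconst
  -- so the functional vanishes on `nq`
  apply hf1
  rw [hc]
  rcases S.eq_empty_or_nonempty with rfl | ⟨x0, hx0⟩
  · exact Finset.sum_of_isEmpty _
  · have e7 : ∑ π : S, c π * Lu S π = d ⟨x0, hx0⟩ * ∑ π : S, wt M π * nq (π : Ei) := by
      rw [Finset.mul_sum]
      refine Finset.sum_congr rfl fun π _ => ?_
      rw [hd π, hconst π ⟨x0, hx0⟩]
      show wt M π * d ⟨x0, hx0⟩ * nq (π : Ei) = _
      ring
    rw [e7, Finset.sum_coe_sort S fun π => wt M π * nq π]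
    unfold NtS at hN
    rw [hN, mul_zero]

/-- **The four conditions of the systems of the class of norm `1` modulo `9`.** -/
theorem quad_C (M S : Finset Ei) (hS : ∀ π ∈ S, Pq π) (hN : NtS M S) :
    Quad (GdC 1 M S) (GdC 2 M S) (GdW M S) (GdC 0 M S) := by
  have hW1 : ∀ v ∈ Wc S, LB (fun _ => 0) M S v = 0 := by
    intro v hv
    rw [mem_Wc] at hv
    funext π
    rw [LB_apply, Pi.zero_apply, zero_mul, sub_zero]
    exact Finset.sum_eq_zero fun ρ _ => by rw [hv ρ π, sub_self, mul_zero]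
  have hW2 : ∀ v ∈ Wc S, Lφ M S v = 0 := by
    intro v hv
    rw [mem_Wc] at hv
    rw [Lφ_apply]
    rcases S.eq_empty_or_nonempty with rfl | ⟨x0, hx0⟩
    · exact Finset.sum_of_isEmpty _
    · have e7 : ∑ ρ : S, wt M ρ * v ρ * nq (ρ : Ei) =
          v ⟨x0, hx0⟩ * ∑ π : S, wt M π * nq (π : Ei) := by
        rw [Finset.mul_sum]
        refine Finset.sum_congr rfl fun π _ => ?_
        rw [hv π ⟨x0, hx0⟩]
        ring
      rw [e7, Finset.sum_coe_sort S fun π => wt M π * nq π]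
      unfold NtS at hN
      rw [hN, mul_zero]
  have h := pencil_quad (LB (fun _ => 0) M S) (Lu S) (Lφ M S) (Wc S) hW1 hW2
    (surj_W hS hN) 0
  have e1 : (0 + 1 : ZMod 3) = -2 := by decide
  have e2 : (0 + 2 : ZMod 3) = -1 := by decide
  have e3 : (0 : ZMod 3) = -0 := by decide
  have h2 : Quad (GdW M S) (GdC 0 M S) (GdC 2 M S) (GdC 1 M S) := by
    refine Quad.congr h (gdW_iff M S).symm ?_ ?_ ?_
    · rw [gdC_iff, ← e3]
    · rw [gdC_iff, e1]
    · rw [gdC_iff, e2]
  unfold Quad at h2 ⊢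
  tauto

end Pool.Agent.D0H50.JL
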