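import Pool.Agent.D0H50.JL.MWD
import Pool.Agent.Y703.XL.InfB
import Pool.Agent.D0H50.BK.AbsV
import Pool.Agent.Y696.CTK.Stm2

/-!
# Project JL: `E_D(K)` is finite and `Ш[3^∞]` is zero if and only if the `3^∞`-Selmer group is zero
-/

set_option autoImplicit false
set_option linter.unusedVariables false
set_option linter.unusedSectionVars false

open scoped Classical

namespace Pool.Agent.D0H50.JL

open WeierstrassCurve NumberField
open Pool.Agent.TH841.SH.D (Pt act Gal Coch IsCoc IsCob cob)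
open Pool.Agent.TH841.NF.D (IsShaCoc shaCoc Sha)
open Pool.Agent.Y703.XL.Inf
open Pool.Agent.Y696.CTK (ED)

variable {K : Type} [Field K] [NumberField K] {D z : K}

/-- divisibility by three -/
lemma div3 (hD : D ≠ 0) (hz : z ^ 2 + z + 1 = 0) (P : Pt (E1 D) (AlgebraicClosure K)) :
    ∃ Q : Pt (E1 D) (AlgebraicClosure K), (3 : ℕ) • Q = P := by
  obtain ⟨R, hR⟩ := ph_surj hD hz (-P)
  obtain ⟨Q, hQ⟩ := ph_surj hD hz R
  refine ⟨Q, ?_⟩
  have h1 := ph_ph hD hz Q
  rw [hQ, hR] at h1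
  exact (neg_injective h1).symm

lemma div3n (hD : D ≠ 0) (hz : z ^ 2 + z + 1 = 0) (n : ℕ) (P : Pt (E1 D) (AlgebraicClosure K)) :
    ∃ Q : Pt (E1 D) (AlgebraicClosure K), (3 ^ n : ℕ) • Q = P := by
  induction n generalizing P with
  | zero => exact ⟨P, by rw [pow_zero, one_smul]⟩
  | succ n ih =>
    obtain ⟨R, hR⟩ := ih P
    obtain ⟨Q, hQ⟩ := div3 hD hz R
    exact ⟨Q, by rw [pow_succ, mul_smul, hQ, hR]⟩

/-- the rational points in the points over the algebraic closure -/
noncomputable def inc (D : K) : Pt (E1 D) K →+ Pt (E1 D) (AlgebraicClosure K) :=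
  act (E1 D) (Algebra.ofId K (AlgebraicClosure K))

lemma inc_inj : Function.Injective (inc D) := by
  intro P Q h
  rcases pp_cases P with rfl | ⟨x, y, hP, rfl⟩
  · rcases pp_cases Q with rfl | ⟨x', y', hQ, rfl⟩
    · rfl
    · exfalso
      obtain ⟨h', e⟩ := act_pp (D := D) (Algebra.ofId K (AlgebraicClosure K)) hQ
      unfold inc at h
      rw [e, map_zero] at h
      exact pp_ne _ h.symm
  · rcases pp_cases Q with rfl | ⟨x', y', hQ, rfl⟩
    · exfalso
      obtain ⟨h', e⟩ := act_pp (D := D) (Algebra.ofId K (AlgebraicClosure K)) hP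
      unfold inc at h
      rw [e, map_zero] at h
      exact pp_ne _ h
    · obtain ⟨h', e⟩ := act_pp (D := D) (Algebra.ofId K (AlgebraicClosure K)) hP
      obtain ⟨h'', e'⟩ := act_pp (D := D) (Algebra.ofId K (AlgebraicClosure K)) hQ
      unfold inc at h
      rw [e, e'] at h
      obtain ⟨e1, e2⟩ := pp_inj h
      exact pp_ext _ _ ((algebraMap K (AlgebraicClosure K)).injective e1)
        ((algebraMap K (AlgebraicClosure K)).injective e2)

lemma act_inc (σ : Gal K) (P : Pt (E1 D) K) :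
    act (E1 D) σ.toAlgHom (inc D P) = inc D P := by
  unfold inc
  rw [act_act]
  have e : (σ.toAlgHom).comp (Algebra.ofId K (AlgebraicClosure K)) =
      Algebra.ofId K (AlgebraicClosure K) := AlgHom.ext fun x => σ.commutes x
  rw [e]

/-- fixed points are rational -/
lemma exists_inc (hD : D ≠ 0) {P : Pt (E1 D) (AlgebraicClosure K)}
    (h : ∀ σ : Gal K, act (E1 D) σ.toAlgHom P = P) : ∃ Q : Pt (E1 D) K, inc D Q = P := by
  rcases pp_cases P with rfl | ⟨x, y, hP, rfl⟩
  · exact ⟨0, map_zero _⟩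
  · have h1 : ∀ σ : Gal K, σ x = x ∧ σ y = y := by
      intro σ
      obtain ⟨h', e⟩ := act_pp (D := D) σ.toAlgHom hP
      have h2 := h σ
      rw [e] at h2
      exact pp_inj h2
    obtain ⟨x₀, rfl⟩ := fix_mem x fun σ => (h1 σ).1
    obtain ⟨y₀, rfl⟩ := fix_mem y fun σ => (h1 σ).2
    have h2 : y₀ ^ 2 + D * y₀ = x₀ ^ 3 := by
      have h3 := (eqn _ _).1 hP.1
      apply (algebraMap K (AlgebraicClosure K)).injective
      rw [map_add, map_pow, map_mul, map_pow]
      exact h3
    have hn : ((E1 D).baseChange K).toAffine.Nonsingular x₀ y₀ := ns_of (L := K) hD h2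
    refine ⟨pp x₀ y₀ hn, ?_⟩
    obtain ⟨h', e⟩ := act_pp (D := D) (Algebra.ofId K (AlgebraicClosure K)) hn
    unfold inc
    rw [e]
    exact pp_ext _ _ rfl rfl

lemma bc_eq (D : K) : ((E1 D).baseChange K).toAffine = (ED D).toAffine := by
  unfold E1 ED WeierstrassCurve.baseChange WeierstrassCurve.map
  ext <;> simp

lemma fin_of_eq {K : Type} [Field K] {W W' : WeierstrassCurve.Affine K} (h : W = W') :
    Finite W.Point ↔ Finite W'.Point := by
  subst h
  exact Iff.rfl

lemma fin_iff (D : K) : Finite (Pt (E1 D) K) ↔ Finite (ED D).toAffine.Point :=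
  fin_of_eq (bc_eq D)

lemma fg_Pt (hD : D ≠ 0) : AddGroup.FG (Pt (E1 D) K) := by
  let _ : DecidableEq K := Classical.decEq K
  have h1 : AddGroup.FG (cD D).toAffine.Point := fg_cD hD
  have h2 : (cD D).toAffine = ((E1 D).baseChange K).toAffine := (bc_eq D).symm
  exact fg_of_eq h2 h1

/-- a finitely generated group in which every element is the sum of a triple and of a torsion
element is finite -/
theorem fin_of_div {M : Type} [AddCommGroup M] (hfg : AddGroup.FG M)
    (h : ∀ P : M, ∃ Q T : M, P = 3 • Q + T ∧ IsOfFinAddOrder T) : Finite M := by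
  rw [← Module.Finite.iff_addGroup_fg] at hfg
  let T : Submodule ℤ M := Submodule.torsion ℤ M
  have hV : Module.Finite ℤ (M ⧸ T) := inferInstance
  have htor : ∀ x : M, IsOfFinAddOrder x ↔ x ∈ T := by
    intro x
    rw [isOfFinAddOrder_iff_nsmul_eq_zero, Submodule.mem_torsion_iff]
    constructor
    · rintro ⟨n, hn, hx⟩
      refine ⟨⟨(n : ℤ), mem_nonZeroDivisors_of_ne_zero (by exact_mod_cast hn.ne')⟩, ?_⟩
      show (n : ℤ) • x = 0
      rw [natCast_zsmul]
      exact hx
    · rintro ⟨a, ha⟩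
      have ha0 : (a : ℤ) ≠ 0 := nonZeroDivisors.coe_ne_zero a
      refine ⟨(a : ℤ).natAbs, Int.natAbs_pos.2 ha0, ?_⟩
      have ha' : (a : ℤ) • x = 0 := ha
      rcases Int.natAbs_eq (a : ℤ) with h1 | h1
      · rw [h1, natCast_zsmul] at ha'
        exact ha'
      · rw [h1, neg_smul, neg_eq_zero, natCast_zsmul] at ha'
        exact ha'
  have hle : (⊤ : Submodule ℤ (M ⧸ T)) ≤ Ideal.span {(3 : ℤ)} • (⊤ : Submodule ℤ (M ⧸ T)) := by
    intro v _
    obtain ⟨P, rfl⟩ := Submodule.Quotient.mk_surjective T v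
    obtain ⟨Q, R, hP, hR⟩ := h P
    have h1 : Submodule.Quotient.mk (p := T) P = (3 : ℤ) • Submodule.Quotient.mk (p := T) Q := by
      rw [hP, Submodule.Quotient.mk_add, (Submodule.Quotient.mk_eq_zero T).2 ((htor R).1 hR),
        add_zero, ← Submodule.Quotient.mk_smul]
      have h2 : (3 : ℤ) • Q = (3 : ℕ) • Q := natCast_zsmul Q 3
      rw [h2]
    rw [h1]
    exact Submodule.smul_mem_smul (Ideal.mem_span_singleton_self 3) Submodule.mem_top
  obtain ⟨r, hr1, hr2⟩ := Submodule.exists_sub_one_mem_and_smul_eq_zero_of_fg_of_le_smul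
    (Ideal.span {(3 : ℤ)}) (⊤ : Submodule ℤ (M ⧸ T)) hV.fg_top hle
  have hr0 : r ≠ 0 := by
    rintro rfl
    rw [Ideal.mem_span_singleton] at hr1
    revert hr1
    decide
  have htors : Module.IsTorsion ℤ M := by
    intro x
    have h1 : r • (Submodule.Quotient.mk (p := T) x) = 0 := hr2 _ Submodule.mem_top
    rw [← Submodule.Quotient.mk_smul, Submodule.Quotient.mk_eq_zero,
      Submodule.mem_torsion_iff] at h1
    obtain ⟨a, ha⟩ := h1
    refine ⟨⟨(a : ℤ) * r, mem_nonZeroDivisors_of_ne_zero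
      (mul_ne_zero (nonZeroDivisors.coe_ne_zero a) hr0)⟩, ?_⟩
    show ((a : ℤ) * r) • x = 0
    rw [mul_smul]
    exact ha
  exact Module.finite_of_fg_torsion M htors

/-- **the main equivalence** -/
theorem triv_iff (hD : D ≠ 0) (hz : z ^ 2 + z + 1 = 0) :
    (Finite (ED D).toAffine.Point ∧ ∀ (n : ℕ) (x : Sha (ED D)), 3 ^ n • x = 0 → x = 0) ↔
      ∀ x : SelInf D, x = 0 := by
  constructor
  · rintro ⟨h1, h2'⟩ x
    have h2 : ∀ (n : ℕ) (x : Sha (E1 D)), 3 ^ n • x = 0 → x = 0 := h2'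
    have hfinK : Finite (Pt (E1 D) K) := (fin_iff D).2 h1
    have hfix : Finite (Pool.Agent.D0H50.BK.Fix fun σ : Gal K => act (E1 D) σ.toAlgHom) := by
      choose! g hg using fun (P : Pt (E1 D) (AlgebraicClosure K))
        (h : ∀ σ : Gal K, act (E1 D) σ.toAlgHom P = P) => exists_inc hD h
      refine Finite.of_injective (fun P : (Pool.Agent.D0H50.BK.Fix fun σ : Gal K =>
        act (E1 D) σ.toAlgHom) => g P.1) fun P Q h => ?_
      apply Subtype.ext
      rw [← hg P.1 P.2, ← hg Q.1 Q.2]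
      exact congrArg _ h
    obtain ⟨f, rfl⟩ : ∃ f : selCoc D, cls f = x := QuotientAddGroup.mk_surjective x
    rw [cls_eq_zero]
    have hN : ∃ N : ℕ, ∀ σ, 3 ^ N • f.1 σ = 0 := by
      have hfin : (Set.range f.1).Finite := f.2.1.1.1.range_finite
      choose n hn using f.2.2
      have hn' : ∀ R ∈ Set.range f.1, ∃ m : ℕ, 3 ^ m • R = 0 := by
        rintro _ ⟨σ, rfl⟩
        exact ⟨_, hn σ⟩
      choose! m hm using hn'
      refine ⟨hfin.toFinset.sup m, fun σ => ?_⟩
      have h1 : m (f.1 σ) ≤ hfin.toFinset.sup m :=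
        Finset.le_sup (hfin.mem_toFinset.2 (Set.mem_range_self σ))
      obtain ⟨c, hc⟩ := Nat.exists_eq_add_of_le h1
      rw [hc, add_comm, pow_add, mul_smul, hm _ (Set.mem_range_self σ), smul_zero]
    obtain ⟨N, hN⟩ := hN
    have hsh : IsShaCoc (E1 D) f.1 := f.2.1
    have hcob : IsCob (E1 D) f.1 := by
      obtain ⟨g, hg⟩ : ∃ g : shaCoc (E1 D), g = ⟨f.1, hsh⟩ := ⟨_, rfl⟩
      let y : Sha (E1 D) := QuotientAddGroup.mk g
      have hy : 3 ^ N • y = 0 := by
        have h3 : 3 ^ N • g = 0 := by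
          rw [hg]
          apply Subtype.ext
          funext σ
          exact hN σ
        have h4 : 3 ^ N • y = (QuotientAddGroup.mk (3 ^ N • g) : Sha (E1 D)) := rfl
        refine h4.trans ?_
        rw [h3]
        rfl
      have h3 := h2 N y hy
      have h4 := (QuotientAddGroup.eq_zero_iff (N := (cob (E1 D)).addSubgroupOf (shaCoc (E1 D)))
        g).1 h3
      have h5 := AddSubgroup.mem_addSubgroupOf.1 h4
      rw [hg] at h5
      exact h5
    obtain ⟨P, ⟨m, hm⟩, hP⟩ := Pool.Agent.D0H50.BK.p_prim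
      (fun σ : Gal K => act (E1 D) σ.toAlgHom) Nat.prime_three f.1 N hN hcob
    exact ⟨P, ⟨m, hm⟩, hP⟩
  · intro h
    have hcob : ∀ f : Coch (E1 D), f ∈ selCoc D → f ∈ cobInf D := fun f hf => by
      have h1 := h (cls (⟨f, hf⟩ : selCoc D))
      rwa [cls_eq_zero] at h1
    constructor
    · rw [← fin_iff]
      apply fin_of_div (fg_Pt hD)
      intro P
      obtain ⟨R, hR⟩ := div3 hD hz (inc D P)
      have hsel : cbf R ∈ selCoc D := by
        refine ⟨cbf_sha R, fun σ => ⟨1, ?_⟩⟩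
        rw [pow_one]
        show (3 : ℕ) • (act (E1 D) σ.toAlgHom R - R) = 0
        rw [nsmul_sub, ← map_nsmul, hR, act_inc, sub_self]
      obtain ⟨T, ⟨m, hm⟩, hT⟩ := hcob _ hsel
      obtain ⟨Q, hQ⟩ := exists_inc (P := R - T) hD fun σ => by
        have h1 := hT σ
        unfold cbf at h1
        rw [map_sub]
        have h2 : act (E1 D) σ.toAlgHom R = act (E1 D) σ.toAlgHom T - T + R := by
          rw [← h1]
          abel
        rw [h2]
        abel
      refine ⟨Q, P - 3 • Q, by abel, ?_⟩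
      rw [isOfFinAddOrder_iff_nsmul_eq_zero]
      refine ⟨3 ^ m, by positivity, ?_⟩
      apply inc_inj
      rw [map_nsmul, map_sub, map_nsmul, hQ, nsmul_sub (R) T 3, hR, map_zero]
      have h1 : inc D P - (inc D P - 3 • T) = 3 • T := by abel
      rw [h1, smul_comm, hm, smul_zero]
    · intro n x hx
      obtain ⟨f, rfl⟩ : ∃ f : shaCoc (E1 D), (QuotientAddGroup.mk f : Sha (ED D)) = x :=
        QuotientAddGroup.mk_surjective x
      have h1 : IsCob (E1 D) (3 ^ n • f.1) := by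
        have h4 := (QuotientAddGroup.eq_zero_iff (N := (cob (E1 D)).addSubgroupOf (shaCoc (E1 D)))
          (3 ^ n • f)).1 hx
        exact AddSubgroup.mem_addSubgroupOf.1 h4
      obtain ⟨Q, hQ⟩ := h1
      obtain ⟨R, hR⟩ := div3n hD hz n Q
      have hsel : f.1 - cbf R ∈ selCoc D := by
        refine ⟨(shaCoc (E1 D)).sub_mem f.2 (cbf_sha R), fun σ => ⟨n, ?_⟩⟩
        show (3 ^ n : ℕ) • (f.1 σ - (act (E1 D) σ.toAlgHom R - R)) = 0
        have h5 : (3 ^ n : ℕ) • f.1 σ = act (E1 D) σ.toAlgHom Q - Q := hQ σ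
        rw [nsmul_sub, nsmul_sub, ← map_nsmul, hR, h5, sub_self]
      obtain ⟨T, -, hT⟩ := hcob _ hsel
      have h5 : (f : Coch (E1 D)) ∈ cob (E1 D) := by
        refine ⟨R + T, fun σ => ?_⟩
        have h6 : f.1 σ - (act (E1 D) σ.toAlgHom R - R) = act (E1 D) σ.toAlgHom T - T := hT σ
        have h7 : f.1 σ = (act (E1 D) σ.toAlgHom T - T) + (act (E1 D) σ.toAlgHom R - R) := by
          rw [← h6]
          abel
        rw [h7, map_add]
        abel
      exact (QuotientAddGroup.eq_zero_iff (N := (cob (E1 D)).addSubgroupOf (shaCoc (E1 D)))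
        f).2 (AddSubgroup.mem_addSubgroupOf.2 h5)

end Pool.Agent.D0H50.JL
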