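import Pool.Agent.D0H69.L0F.Cls
import Pool.Agent.D0H50.JL.Exc

/-!
# Project JL: the curves `y² + D² y = x³`
-/

set_option autoImplicit false
set_option linter.unusedVariables false
set_option linter.unusedSectionVars false

namespace Pool.Agent.D0H50.JL

open NumberField IsDedekindDomain WeierstrassCurve
open Pool.Agent.Y703.CT
open Pool.Agent.Y696 Pool.Agent.Y696.CT
open Pool.Agent.Y696.CTK
open Pool.Agent.Y692.QS hiding chi
open Pool.Agent.Y715.T.Rec (cs)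
open Pool.Agent.Y715.T.RecG (Pq)
open Pool.Agent.N883.FF (FamE fam_data NxE pB nq KerB)
open Pool.Agent.Y715.T.Gi (lam prime_lam lam_sq QB GK ev ev_ne gk_ev Kc)
open Pool.Agent.D0H43.L3 (KerT pT tq yq)
open Pool.Agent.D0H43.L9 (KerN pN qN)
open Pool.Agent.D0H10.KH
open Pool.Agent.D0H69.L0
open Pool.Agent.D0H69.L0F
open scoped Classical

lemma tw_div {i₀ : QB} {hi : i₀ ^ 2 + i₀ + 1 = 0} {D c : Ei} (hc : c ≠ 0) {u : QB}
    {a : GK i₀ → ZMod 3} (hT : Tw hi (D * c ^ 3) u a) : Tw hi D (u * (ev i₀ hi c)⁻¹) a := by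
  have h0 : ev i₀ hi c ≠ 0 := ev_ne hi hc
  refine ⟨?_, fun σ => ?_⟩
  · rw [mul_pow, hT.cube, map_mul, map_pow, inv_pow, mul_assoc, mul_inv_cancel₀ (pow_ne_zero 3 h0),
      mul_one]
  · rw [map_mul, hT.act, map_inv₀, gk_ev, mul_assoc]

/-- the criterion for `D c ^ 3` from the one for `D` -/
theorem tri_gen2 {K : Type} [Field K] [NumberField K] (j : Ei ≃+* 𝓞 K) {D D₀ c : Ei}
    (h : D = D₀ * c ^ 3) (hne : D ≠ 0) (P : Prop)
    (ha : ∀ (i₀ : QB) (hi : i₀ ^ 2 + i₀ + 1 = 0) (u : QB) (a : GK i₀ → ZMod 3), Tw hi D₀ u a →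
      ∃ σ, a σ ≠ 0)
    (hA : P → ∀ (i₀ : QB) (hi : i₀ ^ 2 + i₀ + 1 = 0) (u : QB) (a : GK i₀ → ZMod 3),
      Tw hi D₀ u a → Sel1 hi a)
    (hB : ∀ (i₀ : QB) (hi : i₀ ^ 2 + i₀ + 1 = 0) (u : QB) (a : GK i₀ → ZMod 3),
      Tw hi D₀ u a → Sel1 hi a → P) : Tri (j D) ↔ P := by
  subst h
  have hc : c ≠ 0 := by
    rintro rfl
    exact hne (by rw [zero_pow three_ne_zero, mul_zero])
  constructor
  · rintro ⟨h1, h2⟩
    obtain ⟨e', i₀, hi', u, a, Ψ, g, hdata⟩ := parts.trf K j _ hne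
    have hT := hdata.1
    have hT' := tw_div hc hT
    have ha' := ha i₀ hi' _ a hT'
    have hM := parts.mwc K j _ hne e' i₀ hi' u a Ψ g hdata ha' h1
    have hS := parts.shc parts.plc K j _ hne e' i₀ hi' u a Ψ g hdata h2
    have hsel := Pool.Agent.H70CT.t_SHC _ hne i₀ hi' u a hT ha' hS hM
    exact hB i₀ hi' _ a hT' hsel
  · intro hk
    refine ⟨(parts.mwt parts.trf K j _ hne fun i₀ hi u a hT => ?_).1,
      parts.sht parts.trf K j _ hne fun i₀ hi u a hT => ?_⟩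
    · exact Pool.Agent.Y155.CT.t_MWK _ hne i₀ hi u a hT (ha i₀ hi _ a (tw_div hc hT))
        (hA hk i₀ hi _ a (tw_div hc hT))
    · exact Pool.Agent.Y155.CT.t_SHK _ hne i₀ hi u a hT (hA hk i₀ hi _ a (tw_div hc hT))

section
variable {K : Type} [Field K] [NumberField K] (j : Ei ≃+* 𝓞 K)
variable {J : Type} [Fintype J] {π : J → Ei} {e : J → ZMod 3}

/-- the primes with exponent `2` -/
def P2 (π : J → Ei) (e : J → ZMod 3) : Ei := ∏ k, if e k = 2 then π k else 1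

lemma pD_sq (hdt : Dt π e) : (pD π e) ^ 2 = pD π (fun k => -e k) * (P2 π e) ^ 3 := by
  unfold pD P2
  rw [← Finset.prod_pow, ← Finset.prod_pow, ← Finset.prod_mul_distrib]
  refine Finset.prod_congr rfl fun k _ => ?_
  have h : ∀ x : ZMod 3, x = 0 ∨ x = 1 ∨ x = 2 := by decide
  show (π k ^ (e k).val) ^ 2 = π k ^ (-e k).val * (if e k = 2 then π k else 1) ^ 3
  rcases h (e k) with h1 | h1 | h1
  · exact absurd h1 (hdt.e0 k)
  · rw [h1, if_neg (by decide)]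
    have h2 : (1 : ZMod 3).val = 1 := by decide
    have h3 : (-1 : ZMod 3).val = 2 := by decide
    rw [h2, h3]
    ring
  · rw [h1, if_pos rfl]
    have h2 : (2 : ZMod 3).val = 2 := by decide
    have h3 : (-2 : ZMod 3).val = 1 := by decide
    rw [h2, h3]
    ring

lemma w_sq (i : ZMod 3) : ((w : Ei) ^ i.val) ^ 2 = w ^ (-i).val := by
  revert i
  decide

lemma el_sq (hdt : Dt π e) (i : ZMod 3) (b : Bool) (a : ℕ) :
    (sg b * (lam ^ a * (w ^ i.val * pD π e))) ^ 2 =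
      (lam ^ 2) ^ a * (w ^ (-i).val * pD π (fun k => -e k)) * (P2 π e) ^ 3 := by
  have h1 := sg_mul b
  have h2 := pD_sq hdt
  have h3 := w_sq i
  have h4 : (sg b * (lam ^ a * (w ^ i.val * pD π e))) ^ 2 =
      (sg b * sg b) * ((lam ^ 2) ^ a * ((w ^ i.val) ^ 2 * (pD π e) ^ 2)) := by
    ring
  rw [h4, h1, h2, h3]
  ring

lemma sq_ne (hdt : Dt π e) (i : ZMod 3) (b : Bool) (a : ℕ) :
    (sg b * (lam ^ a * (w ^ i.val * pD π e))) ^ 2 ≠ 0 := pow_ne_zero 2 (ne_D hdt i b a)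

/-- the square of `± 3 ω ^ i z` -/
theorem sq2 [Nonempty J] (hdt : Dt π e) (i : ZMod 3) (b : Bool) :
    Tri (j ((sg b * (lam ^ 2 * (w ^ i.val * pD π e))) ^ 2)) ↔ KerN π (fun k => -e k) (-i) := by
  have hdt' := hdt.neg
  refine tri_gen2 j (D₀ := pN π (fun k => -e k) (-i)) (c := P2 π e) ?_ (sq_ne hdt i b 2) _ ?_ ?_ ?_
  · rw [el_sq hdt i b 2]
    unfold pN
    have h2 : (lam ^ 2) ^ 2 = (9 : Ei) := by decide
    rw [h2]
  · exact fun i₀ hi u a hT => Pool.Agent.D0H15.L9.Fin.a_neN hdt' hT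
  · exact fun hk i₀ hi u a hT => Pool.Agent.D0H15.L9.selN J π _ (-i) hdt' hk i₀ hi u a hT
  · intro i₀ hi u a hT hS
    by_contra hk
    exact Pool.Agent.D0H10.L9.selcN Pool.Agent.Y319.CT.t_FF Pool.Agent.Y379.CT.t_CUB
      Pool.Agent.D0H10.L9.cub3N Pool.Agent.Y674.CT.t_PT Pool.Agent.D0H10.L9.ramcN J π _ (-i) hdt' hk
      i₀ hi u a hT hS

/-- the square of `± √-3 ω ^ i z` -/
theorem sq1 [Nonempty J] (hdt : Dt π e) (i : ZMod 3) (b : Bool) :
    Tri (j ((sg b * (lam ^ 1 * (w ^ i.val * pD π e))) ^ 2)) ↔ KerT π (fun k => -e k) (-i) := by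
  have hdt' := hdt.neg
  refine tri_gen2 j (D₀ := pT π (fun k => -e k) (-i)) (c := -P2 π e) ?_ (sq_ne hdt i b 1) _
    ?_ ?_ ?_
  · rw [el_sq hdt i b 1]
    unfold pT
    have h2 : (lam ^ 2) ^ 1 = -(3 : Ei) := by decide
    rw [h2]
    ring
  · exact fun i₀ hi u a hT => Pool.Agent.D0H43.L3.Fin.a_neT hdt' hT
  · exact fun hk i₀ hi u a hT => Pool.Agent.D0H43.L3.sel Pool.Agent.D0H43.L3.loc3
      Pool.Agent.N883.FF.ram Pool.Agent.N883.FF.unr J π _ (-i) hdt' hk i₀ hi u a hT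
  · intro i₀ hi u a hT hS
    by_contra hk
    exact Pool.Agent.D0H10.L3.selcT Pool.Agent.Y319.CT.t_FF Pool.Agent.Y379.CT.t_CUB
      Pool.Agent.D0H10.L3.cub3T Pool.Agent.Y674.CT.t_PT Pool.Agent.D0H10.L3.ramcT J π _ (-i) hdt' hk
      i₀ hi u a hT hS

lemma el_sq0 (hdt : Dt π e) (i : ZMod 3) (b : Bool) :
    (sg b * (lam ^ 0 * (w ^ i.val * pD π e))) ^ 2 =
      w ^ (-i).val * pD π (fun k => -e k) * (P2 π e) ^ 3 := by
  rw [el_sq hdt i b 0, pow_zero, one_mul]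

lemma ntl_neg (hn : Ntl π e) : Ntl π (fun k => -e k) := by
  unfold Ntl at *
  have h1 : ∑ k, -e k * nq (π k) = -∑ k, e k * nq (π k) := by
    rw [← Finset.sum_neg_distrib]
    exact Finset.sum_congr rfl fun k _ => by ring
  rw [h1, hn, neg_zero]

/-- the square of `± z`, the exceptional class -/
theorem sqM [Nonempty J] (hdt : Dt π e) (hn : Ntl π e) (b : Bool) :
    Tri (j ((sg b * (lam ^ 0 * (w ^ (0 : ZMod 3).val * pD π e))) ^ 2)) ↔
      KerM π (fun k => -e k) := by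
  have hdt' := hdt.neg
  have hn' := ntl_neg hn
  refine tri_gen2 j (D₀ := pD π (fun k => -e k)) (c := P2 π e) ?_ (sq_ne hdt 0 b 0) _ ?_ ?_ ?_
  · rw [el_sq0 hdt 0 b, neg_zero, ZMod.val_zero, pow_zero, one_mul]
  · exact fun i₀ hi u a hT => Pool.Agent.Y703.CT.a_ne hdt' hT
  · exact fun hk i₀ hi u a hT => Pool.Agent.D0H15.L0.sel Pool.Agent.D0H92.L0.loc3m
      Pool.Agent.N883.FF.ram Pool.Agent.N883.FF.unr J π _ hdt' hn' hk i₀ hi u a hT
  · intro i₀ hi u a hT hS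
    by_contra hk
    exact Pool.Agent.D0H42.L0.selcM Pool.Agent.Y319.CT.t_FF Pool.Agent.Y379.CT.t_CUB
      Pool.Agent.D0H42.L0.cub3M Pool.Agent.Y674.CT.t_PT Pool.Agent.D0H42.L0.ramcM J π _ hdt' hn' hk
      i₀ hi u a hT hS

lemma ker_neg : Ker π (fun k => -e k) ↔ Ker π e := by
  unfold Ker
  have h : ∀ (v : J → ZMod 3) (j : J),
      (∑ k, -e k * cs (π j) (π k) * (v k - v j) = 0) ↔
      (∑ k, e k * cs (π j) (π k) * (v k - v j) = 0) := by
    intro v j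
    have h1 : ∑ k, -e k * cs (π j) (π k) * (v k - v j) =
        -∑ k, e k * cs (π j) (π k) * (v k - v j) := by
      rw [← Finset.sum_neg_distrib]
      exact Finset.sum_congr rfl fun k _ => by ring
    rw [h1, neg_eq_zero]
  simp only [h]

lemma kerB_neg (i : ZMod 3) : KerB π (fun k => -e k) (-i) ↔ KerB π e i := by
  unfold KerB
  have h : ∀ (v : J → ZMod 3) (j : J),
      (∑ k, -e k * cs (π j) (π k) * (v k - v j) = -i * nq (π j) * v j) ↔
      (∑ k, e k * cs (π j) (π k) * (v k - v j) = i * nq (π j) * v j) := by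
    intro v j
    have h1 : ∑ k, -e k * cs (π j) (π k) * (v k - v j) =
        -∑ k, e k * cs (π j) (π k) * (v k - v j) := by
      rw [← Finset.sum_neg_distrib]
      exact Finset.sum_congr rfl fun k _ => by ring
    rw [h1]
    constructor
    · intro h2
      linear_combination -h2
    · intro h2
      linear_combination -h2
  simp only [h]

/-- the square of `± ω ^ i z`, not in the exceptional class -/
theorem sq0 [Nonempty J] (hdt : Dt π e) (i : ZMod 3)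
    (h9 : i = 0 → ¬ (9 : ℤ) ∣ nr (pD π e) - 1) (b : Bool) :
    Tri (j ((sg b * (lam ^ 0 * (w ^ i.val * pD π e))) ^ 2)) ↔
      Tri (j (sg b * (lam ^ 0 * (w ^ i.val * pD π e)))) := by
  rw [tri0 j hdt i h9 b]
  have hdt' := hdt.neg
  by_cases hi0 : i = 0
  · subst hi0
    have h9' := h9 rfl
    have hn9 : ¬ (9 : ℤ) ∣ nr (pD π (fun k => -e k)) - 1 := by
      intro h
      have h1 := ntl_neg ((ntl_iff hdt').1 h)
      simp only [neg_neg] at h1
      exact h9' ((ntl_iff hdt).2 h1)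
    have e0 : w ^ (0 : ZMod 3).val * pD π e = pD π e := by
      rw [ZMod.val_zero, pow_zero, one_mul]
    have h2 : Tri (j (w ^ (0 : ZMod 3).val * pD π e)) ↔ Ker π (fun k => -e k) := by
      rw [e0, ker_neg]
      exact Pool.Agent.R419.KF.tri_iff j parts hdt h9'
    rw [h2]
    refine tri_gen2 j (D₀ := pD π (fun k => -e k)) (c := P2 π e) ?_ (sq_ne hdt 0 b 0) _ ?_ ?_ ?_
    · rw [el_sq0 hdt 0 b, neg_zero, ZMod.val_zero, pow_zero, one_mul]
    · exact fun i₀ hi u a hT => a_ne hdt' hT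
    · exact fun hk i₀ hi u a hT => Pool.Agent.Y48.CT.SEL.t_SEL Pool.Agent.Y350.CT.rec
        Pool.Agent.Y180.CT.t_loc3 Pool.Agent.Y153.CTRAM.t_RAM Pool.Agent.Y153.CTRAM.t_UNR
        J π _ hdt' hk hn9 i₀ hi u a hT
    · intro i₀ hi u a hT hS
      by_contra hk
      exact Pool.Agent.Y363.CT.SELC.t_SELC Pool.Agent.Y319.CT.t_FF Pool.Agent.Y379.CT.t_CUB
        Pool.Agent.Y100.CT.CUB3.t_cub3 Pool.Agent.Y674.CT.t_PT Pool.Agent.Y379.CT.t_RAMC J π _
        hdt' hk hn9 i₀ hi u a hT hS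
  · have hi0' : -i ≠ 0 := neg_ne_zero.2 hi0
    have B := Pool.Agent.N883.FF.partsB
    have h2 : Tri (j (w ^ i.val * pD π e)) ↔ KerB π (fun k => -e k) (-i) := by
      rw [kerB_neg]
      exact Pool.Agent.N883.FF.tri_iffB B j hdt hi0
    rw [h2]
    refine tri_gen2 j (D₀ := w ^ (-i).val * pD π (fun k => -e k)) (c := P2 π e) (el_sq0 hdt i b)
      (sq_ne hdt i b 0) _ ?_ ?_ ?_
    · exact fun i₀ hi u a hT => Pool.Agent.N883.FF.a_neB hdt' hT
    · exact fun hk i₀ hi u a hT =>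
        B.sel B.loc3 B.ram B.unr J π _ (-i) hdt' hi0' hk i₀ hi u a hT
    · intro i₀ hi u a hT hS
      by_contra hk
      exact B.selc Pool.Agent.Y319.CT.t_FF Pool.Agent.Y379.CT.t_CUB
        B.cub3 Pool.Agent.Y674.CT.t_PT B.ramc J π _ (-i) hdt' hi0' hk i₀ hi u a hT hS

end

end Pool.Agent.D0H50.JL
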