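import Pool.Agent.D0H69.L0D.Stm
import Pool.Agent.D0H10.L9D.Box

/-!
# Project JL (joint laws): statements of the counting part

Everything as in `Pool/Agent/D0H69/L0D/Stm.lean` (helper69, after helper10), for an arbitrary pair of
conditions `F`, `G` on the pairs `(M, S)`.
-/

set_option autoImplicit false
set_option linter.unusedVariables false

open scoped Classical

namespace Pool.Agent.D0H50.JL

open Finset
open Pool.Agent.Y692.QS (Ei w nr toC)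
open Pool.Agent.Y715.T.Rec (cs)
open Pool.Agent.Y715.T.RecG (Pq)
open Pool.Agent.Y699.E (ez nrm QB SB PS mf xab lg)
open Pool.Agent.Y703.CX (jj XX eL zz kk)
open Pool.Agent.Y703.XK (sm la bl prs HB c9 S_BIL S_EQ S_LA S_C9 GdA)
open Pool.Agent.R419.KF (wt SG)
open Pool.Agent.Y688.XK (lb)
open Pool.Agent.N883.FF (nq ClU SU RRU ClP)
open Pool.Agent.D0H43.L3 (yq)
open Pool.Agent.D0H10.L9D (NdN)
open Pool.Agent.D0H10.L9D.Box (LNB)

/-- the tuples with given labels `nq`, `yq` -/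
def Tup {ι : Type} (S₀ : Finset Ei) (γ δ : ι → ZMod 3) (p : ι → Ei) : Prop :=
  Function.Injective p ∧ (∀ k, Pq (p k)) ∧ (∀ k, p k ∉ S₀) ∧ (fun k => nq (p k)) = γ ∧
    (fun k => yq (p k)) = δ

/-- the description of the conditions `F`, `G` on the tuples with given labels -/
def LocD (F G : Finset Ei → Finset Ei → Prop) : Prop := ∀ (ι : Type) [Fintype ι] [LinearOrder ι]
  (M S₀ : Finset Ei) (γ δ : ι → ZMod 3), M ⊆ S₀ → (∀ u ∈ S₀, Pq u) →
  S₀.card + 2 < Fintype.card ι →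
  (∀ p, Tup S₀ γ δ p → ¬ F M (S₀ ∪ univ.image p)) ∨
  ((∀ p, Tup S₀ γ δ p → F M (S₀ ∪ univ.image p)) ∧
    ∀ β : ι → S₀ → ZMod 3, LNB S₀ β γ δ →
      ∃ (U : Type) (_ : Fintype U) (A : U → U → ZMod 3) (B : U → ι → ZMod 3),
        Fintype.card U ≤ S₀.card + 2 ∧ (∀ u v, A u v = A v u) ∧
        (∀ w : U → ZMod 3, (∃ u, w u ≠ 0) → ∃ k, ∑ u, w u * B u k ≠ 0) ∧
        ∀ p, Tup S₀ γ δ p → (fun k => lb S₀ (p k)) = β →
          (G M (S₀ ∪ univ.image p) ↔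
            GdA A B (Pool.Agent.Y703.XK.ext fun e : prs ι => cs (p e.1.1) (p e.1.2))))

/-- the count in a box on which `nq` and `yq` are constant. -/
def SBox (F G : Finset Ei → Finset Ei → Prop) : Prop := ∀ (ι : Type) [Fintype ι] [LinearOrder ι]
  (C : ι → Finset Ei) (X : ι → ℕ) (κ : ℝ) (M S₀ : Finset Ei), M ⊆ S₀ → 0 ≤ κ →
  (∀ i, (C i).card ≤ X i) → HB C X κ → (∀ u ∈ S₀, Pq u) → (∀ i, ∀ π ∈ C i, Pq π ∧ π ∉ S₀) →
  (∀ i l, i ≠ l → Disjoint (C i) (C l)) →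
  (∀ i, ∀ π ∈ C i, ∀ ρ ∈ C i, nq π = nq ρ ∧ yq π = yq ρ) →
  S₀.card + 2 < Fintype.card ι →
  |(((Fintype.piFinset C).filter fun p => NdN S₀ (univ.image p) ∧ F M (S₀ ∪ univ.image p) ∧
      G M (S₀ ∪ univ.image p)).card : ℝ) -
      c9 * (((Fintype.piFinset C).filter fun p => NdN S₀ (univ.image p) ∧
        F M (S₀ ∪ univ.image p)).card : ℝ)| ≤
    3 * (3 ^ (S₀.card + 2) / 3 ^ Fintype.card ι) *
      (((Fintype.piFinset C).filter fun p => NdN S₀ (univ.image p)).card : ℝ) +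
    3 ^ (S₀.card * Fintype.card ι + (prs ι).card) * (κ * ∏ j, (X j : ℝ))

/-- the sum over the boxes. -/
def SKey (F G : Finset Ei → Finset Ei → Prop) : Prop := SBox F G → ∃ C : ℝ, 1 ≤ C ∧
  ∀ (M : Finset Ei) (X z H k V N : ℕ) (κ : ℝ), (∀ q ∈ M, nrm q ≤ z) → 1 ≤ X → 1 ≤ H → 1 ≤ z →
  2 ≤ V → 0 ≤ κ → C ≤ κ ^ 24 * z → (H : ℝ) * Real.log X < N →
  |(((RRU M X z H k V).filter fun S => NdN (sm z S) (la z S) ∧ F M S ∧ G M S).card : ℝ) -
      c9 * (((RRU M X z H k V).filter fun S => NdN (sm z S) (la z S) ∧ F M S).card : ℝ)| ≤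
    9 * (1 / 3 : ℝ) ^ V * ((RRU M X z H k V).card : ℝ) +
    (9 * N + 9 : ℝ) ^ k * (3 ^ (9 * k ^ 2 + 9) * κ) * (X * (1 + Real.log X))

/-- the asymptotics for one `M`. -/
def SAsy (F G : Finset Ei → Finset Ei → Prop) : Prop := ∀ (M : Finset Ei) (ε : ℝ),
  0 < ε → ∃ X₀ : ℕ, ∀ X : ℕ, X₀ ≤ X →
    |(((SU M X).filter fun S => F M S ∧ G M S).card : ℝ) -
      c9 * (((SU M X).filter (F M)).card : ℝ)| ≤ ε * X

end Pool.Agent.D0H50.JL
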