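import Pool.Agent.D0H50.JL.Pencil
import Pool.Agent.D0H50.JL.Key
import Pool.Agent.D0H50.JL.Asy
import Pool.Agent.D0H50.JL.BoxG
import Pool.Agent.D0H50.JL.BoxC
import Pool.Agent.D0H10.L9D.Fin
import Pool.Agent.N883.FF.Lim

/-!
# Project JL: the sum over the sets `M` of the primes with exponent `2`, the joint law

Adapted from the file `D0H69/L0D/Tot.lean` of helper69 (after helper10, helper419).
-/

set_option autoImplicit false

open scoped Classical
open Finset Filter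

namespace Pool.Agent.D0H50.JL

open Pool.Agent.Y692.QS (Ei w nr toC)
open Pool.Agent.Y715.T.Rec (cs)
open Pool.Agent.Y715.T.RecG (Pq)
open Pool.Agent.Y699.E (eq_of_dvd)
open Pool.Agent.Y703.CT (Dt pD)
open Pool.Agent.Y703.XK (c9)
open Pool.Agent.Y433.XK (pN pN_pos)
open Pool.Agent.R419.KF (wt SG el mem_SG ff ff_nonneg ff_sum ff_summable GdW wt_ne)
open Pool.Agent.N883.FF (ClU SU ClP nq PP)
open Pool.Agent.N883.FF.Tot (mem_SU su_le card_eq card_cls)
open Pool.Agent.D0H69.L3K (hc9 fin_nr many)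
open Pool.Agent.D0H10.L9D (badN)

/-- the number of the pairs with `F` -/
noncomputable def N0 (F : Finset Ei → Finset Ei → Prop) (X : ℕ) : ℕ :=
  ∑ M ∈ SG X, ((SU M (X / pN M)).filter (F M)).card

/-- the number of the pairs with `F` and `G` -/
noncomputable def Gt (F G : Finset Ei → Finset Ei → Prop) (X : ℕ) : ℕ :=
  ∑ M ∈ SG X, ((SU M (X / pN M)).filter fun S => F M S ∧ G M S).card

/-- among the pairs with `F` the proportion of those with `G` is `c` -/
def Err (F G : Finset Ei → Finset Ei → Prop) (c : ℝ) : Prop :=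
  ∀ δ : ℝ, 0 < δ → ∀ᶠ X : ℕ in atTop, |(Gt F G X : ℝ) - c * (N0 F X : ℝ)| ≤ δ * X

/-- the asymptotics for one `M` -/
theorem asyG {F G : Finset Ei → Finset Ei → Prop} (h : LocD F G) : SAsy F G :=
  asy hc9 badN (key Pool.Agent.Y363.XK.t_BIL F G)
    (box Pool.Agent.Y710.XK.t_EQ (Pool.Agent.Y85.XK.t_LA Pool.Agent.Y804.XK.t_SYM hc9) h)

theorem abs_le_card (F G : Finset Ei → Finset Ei → Prop) (M : Finset Ei) (Y : ℕ) :
    |(((SU M Y).filter fun S => F M S ∧ G M S).card : ℝ) -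
      c9 * (((SU M Y).filter (F M)).card : ℝ)| ≤ ((SU M Y).card : ℝ) := by
  have h2 : (((SU M Y).filter fun S => F M S ∧ G M S).card : ℝ) ≤ ((SU M Y).card : ℝ) := by
    exact_mod_cast card_filter_le _ _
  have h2' : (((SU M Y).filter (F M)).card : ℝ) ≤ ((SU M Y).card : ℝ) := by
    exact_mod_cast card_filter_le _ _
  have h3 : (0 : ℝ) ≤ (((SU M Y).filter (F M)).card : ℝ) := Nat.cast_nonneg _
  exact Pool.Agent.Y703.CX.abs_sub_le_of (Nat.cast_nonneg _) h2 (mul_nonneg hc9.2.1.le h3)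
    ((mul_le_of_le_one_left h3 hc9.2.2.1.le).trans h2')

/-- **The law of one condition.** -/
theorem err_of {F G : Finset Ei → Finset Ei → Prop} (h : LocD F G) : Err F G c9 := by
  have hA := asyG h
  intro δ hδ
  obtain ⟨T₀, hT₀⟩ := (summable_iff_vanishing_norm.1 ff_summable) (δ / 32) (by positivity)
  set ε' : ℝ := δ / (2 * ((T₀.card : ℝ) + 1)) with hε'
  have hε'0 : 0 < ε' := by positivity
  obtain ⟨F', hF⟩ : ∃ F' : Finset Ei → ℕ → ℝ, ∀ M Y, F' M Y =
      (((SU M Y).filter fun S => F M S ∧ G M S).card : ℝ) -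
        c9 * (((SU M Y).filter (F M)).card : ℝ) := ⟨_, fun _ _ => rfl⟩
  have hev : ∀ᶠ X : ℕ in atTop, ∀ M ∈ T₀.filter (fun M => ∀ q ∈ M, Pq q),
      |F' M (X / pN M)| ≤ ε' * X := by
    rw [eventually_all_finset]
    intro M hM
    have hp := pN_pos (mem_filter.1 hM).2
    obtain ⟨X₀, hX₀⟩ := hA M ε' hε'0
    filter_upwards [eventually_ge_atTop (X₀ * pN M)] with X hX
    have h5 : X₀ ≤ X / pN M := (Nat.le_div_iff_mul_le hp).2 hX
    rw [hF]
    refine (hX₀ _ h5).trans ?_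
    have h6 : ((X / pN M : ℕ) : ℝ) ≤ X := by exact_mod_cast Nat.div_le_self _ _
    gcongr
  filter_upwards [hev] with X hX
  have k1 : (Gt F G X : ℝ) - c9 * (N0 F X : ℝ) = ∑ M ∈ SG X, F' M (X / pN M) := by
    simp only [hF]
    rw [sum_sub_distrib, ← mul_sum]
    unfold Gt N0
    push_cast
    rfl
  have hX0 : (0 : ℝ) ≤ X := Nat.cast_nonneg _
  rw [k1]
  refine (abs_sum_le_sum_abs _ _).trans ?_
  rw [← sum_filter_add_sum_filter_not (SG X) (fun M => M ∈ T₀)]
  have k2 : ∑ M ∈ (SG X).filter (fun M => M ∈ T₀), |F' M (X / pN M)| ≤ δ / 2 * X := by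
    have k3 : ∑ M ∈ (SG X).filter (fun M => M ∈ T₀), |F' M (X / pN M)| ≤
        ∑ M ∈ (SG X).filter (fun M => M ∈ T₀), ε' * X := by
      refine sum_le_sum fun M hM => hX M ?_
      rw [mem_filter] at hM ⊢
      exact ⟨hM.2, (mem_SG.1 hM.1).1⟩
    refine k3.trans ?_
    rw [sum_const, nsmul_eq_mul]
    have k4 : ((((SG X).filter fun M => M ∈ T₀).card : ℕ) : ℝ) ≤ (T₀.card : ℝ) + 1 := by
      have : ((SG X).filter fun M => M ∈ T₀).card ≤ T₀.card :=
        card_le_card fun M hM => (mem_filter.1 hM).2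
      have h6 : ((((SG X).filter fun M => M ∈ T₀).card : ℕ) : ℝ) ≤ (T₀.card : ℝ) := by
        exact_mod_cast this
      linarith
    have k5 : (0 : ℝ) < (T₀.card : ℝ) + 1 := by positivity
    calc ((((SG X).filter fun M => M ∈ T₀).card : ℕ) : ℝ) * (ε' * X) ≤
        ((T₀.card : ℝ) + 1) * (ε' * X) := by gcongr
      _ = δ / 2 * X := by
        rw [hε']
        field_simp
  have k3 : ∑ M ∈ (SG X).filter (fun M => ¬ M ∈ T₀), |F' M (X / pN M)| ≤ δ / 2 * X := by
    have k4 : ∑ M ∈ (SG X).filter (fun M => ¬ M ∈ T₀), |F' M (X / pN M)| ≤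
        ∑ M ∈ (SG X).filter (fun M => ¬ M ∈ T₀), 16 * (X * ff M) := by
      refine sum_le_sum fun M hM => ?_
      rw [hF]
      refine (abs_le_card F G M _).trans (su_le ?_ X)
      exact (mem_SG.1 (mem_filter.1 hM).1).1
    refine k4.trans ?_
    rw [← mul_sum, ← mul_sum]
    have k5 := hT₀ ((SG X).filter fun M => ¬ M ∈ T₀) (by
      rw [disjoint_left]
      intro M hM hM'
      exact (mem_filter.1 hM).2 hM')
    have k6 := (le_abs_self _).trans ((Real.norm_eq_abs _).symm.le.trans k5.le)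
    calc 16 * ((X : ℝ) * ∑ M ∈ (SG X).filter (fun M => ¬ M ∈ T₀), ff M) ≤
        16 * ((X : ℝ) * (δ / 32)) := by gcongr
      _ = δ / 2 * X := by ring
  calc _ ≤ δ / 2 * X + δ / 2 * X := add_le_add k2 k3
    _ = δ * X := by ring

theorem fcc2 {α : Type} {s : Finset α} {p q r : α → Prop} {i1 : DecidablePred p}
    {i2 : DecidablePred q} {i3 : DecidablePred r} (h : ∀ x ∈ s, (r x ↔ p x ∧ q x)) :
    (@Finset.filter α r i3 s).card = (@Finset.filter α q i2 (@Finset.filter α p i1 s)).card := by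
  congr 1
  ext x
  rw [Finset.mem_filter, Finset.mem_filter, Finset.mem_filter, and_assoc]
  exact and_congr_right fun hx => h x hx

theorem lin_aux {a a' b b' c c' d d' e e' : ℕ} (h : 3 * a' + b' + c' = 2 * d' + 2 * e')
    (ha : a = a') (hb : b = b') (hc : c = c') (hd : d = d') (he : e = e') :
    3 * a + b + c = 2 * d + 2 * e := by
  subst ha hb hc hd he
  exact h

/-- **The law of two conditions of a pencil.** -/
theorem err_quad {F A B C D : Finset Ei → Finset Ei → Prop} (hA : Err F A c9) (hB : Err F B c9)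
    (hC : Err F C c9) (hD : Err F D c9)
    (hq : ∀ M S : Finset Ei, ClU M S → F M S → Quad (A M S) (B M S) (C M S) (D M S)) :
    Err F (fun M S => A M S ∧ B M S) (2 / 3 * c9) := by
  have key : ∀ X : ℕ, 3 * Gt F (fun M S => A M S ∧ B M S) X + Gt F C X + Gt F D X =
      2 * Gt F A X + 2 * Gt F B X := by
    intro X
    unfold Gt
    rw [mul_sum, mul_sum, mul_sum, ← sum_add_distrib, ← sum_add_distrib, ← sum_add_distrib]
    refine sum_congr rfl fun M hM => ?_
    have h1 := card_quad ((SU M (X / pN M)).filter (F M)) (A M) (B M) (C M) (D M)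
      (fun S hS => by
        rw [mem_filter] at hS
        exact hq M S (mem_SU.1 hS.1).1 hS.2)
    exact lin_aux h1 (fcc2 fun _ _ => Iff.rfl) (fcc2 fun _ _ => Iff.rfl) (fcc2 fun _ _ => Iff.rfl)
      (fcc2 fun _ _ => Iff.rfl) (fcc2 fun _ _ => Iff.rfl)
  intro δ hδ
  have hδ' : 0 < δ / 2 := by positivity
  filter_upwards [hA _ hδ', hB _ hδ', hC _ hδ', hD _ hδ'] with X h1 h2 h3 h4
  have h5 : (3 : ℝ) * (Gt F (fun M S => A M S ∧ B M S) X : ℝ) + (Gt F C X : ℝ) +
      (Gt F D X : ℝ) = 2 * (Gt F A X : ℝ) + 2 * (Gt F B X : ℝ) := by exact_mod_cast key X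
  rw [abs_le] at h1 h2 h3 h4 ⊢
  constructor
  · linarith [h1.1, h2.1, h3.2, h4.2]
  · linarith [h1.2, h2.2, h3.1, h4.1]

/-- **The joint law of the system with the potential `r nq + s yq` and of the bordered system.** -/
theorem err_P (r s t : ZMod 3) (hs : s ≠ 0) :
    Err Ft (fun M S => GdP r s M S ∧ GdG r s t M S) (2 / 3 * c9) :=
  err_quad (err_of (loc_P r s hs)) (err_of (loc_G r s t hs)) (err_of (loc_G r s (t + 1) hs))
    (err_of (loc_G r s (t + 2) hs)) fun M S _ _ => quad_P r s t M S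

/-- **The joint law in the class of norm `1` modulo `9`.** -/
theorem err_C (y : ZMod 3) :
    Err (Fy y) (fun M S => GdC 1 M S ∧ GdC 2 M S) (2 / 3 * c9) :=
  err_quad (err_of (loc_C y 1)) (err_of (loc_C y 2)) (err_of (loc_W y)) (err_of (loc_C y 0))
    fun M S h hF => quad_C M S h.1 hF.1

theorem err_C0 : Err (Fy 0) (GdC 0) c9 := err_of (loc_C 0 0)

/-! ### elements -/

/-- the primes of an element of the class -/
theorem datt {M S : Finset Ei} (hMS : ClU M S) (hSn : S.Nonempty) :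
    ∃ (n : ℕ) (π : Fin (n + 1) → Ei), Dt π (fun i => wt M (π i)) ∧
      el M S = pD π (fun i => wt M (π i)) ∧ Function.Injective π ∧ univ.image π = S := by
  obtain ⟨hS, hM⟩ := hMS
  have hne : S.card ≠ 0 := (card_pos.2 hSn).ne'
  obtain ⟨n, hn⟩ := Nat.exists_eq_succ_of_ne_zero hne
  set eq : S ≃ Fin (n + 1) := S.equivFinOfCardEq hn with heq
  set π : Fin (n + 1) → Ei := fun i => (eq.symm i : Ei) with hπ
  have hmem : ∀ i, π i ∈ S := fun i => (eq.symm i).2
  have hinj : Function.Injective π := fun a b hab => eq.symm.injective (Subtype.ext hab)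
  have himg : Finset.univ.image π = S := by
    ext q
    rw [mem_image]
    constructor
    · rintro ⟨i, -, rfl⟩
      exact hmem i
    · intro hq
      refine ⟨eq ⟨q, hq⟩, mem_univ _, ?_⟩
      simp [hπ]
  refine ⟨n, π, ⟨fun i => hS _ (hmem i), fun i j hij hd => ?_,
    fun i => wt_ne M _⟩, ?_, hinj, himg⟩
  · exact hij (hinj (eq_of_dvd (hS _ (hmem j)) (hS _ (hmem i)) hd)).symm
  · unfold pD el
    have h2 : ∏ q ∈ S, q ^ (wt M q).val = ∏ i, π i ^ (wt M (π i)).val := by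
      rw [← himg, prod_image fun a _ b _ h => hinj h]
    rw [← h2]
    have h4 : ∏ q ∈ M, q = ∏ q ∈ S, if q ∈ M then q else 1 := by
      rw [prod_ite_mem, inter_eq_right.2 hM]
    rw [h4, ← prod_mul_distrib]
    refine prod_congr rfl fun q _ => ?_
    unfold wt
    split_ifs with hq
    · have : (2 : ZMod 3).val = 2 := by decide
      rw [this, pow_two]
    · have : (1 : ZMod 3).val = 1 := by decide
      rw [this, pow_one, mul_one]

theorem el_ne_one {M S : Finset Ei} (hMS : ClU M S) (hSn : S.Nonempty) : el M S ≠ 1 := by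
  obtain ⟨n, π, hdt, hel, -, -⟩ := datt hMS hSn
  rw [hel]
  intro h
  have := Pool.Agent.R419.CE.nunit hdt
  rw [h] at this
  exact this isUnit_one

/-- the count of the elements -/
theorem elt_count {F G : Finset Ei → Finset Ei → Prop} (R T : Ei → Prop)
    (hR : ∀ M S : Finset Ei, ClU M S → (R (el M S) ↔ F M S))
    (hT : ∀ M S : Finset Ei, ClU M S → S.Nonempty → F M S → (T (el M S) ↔ G M S)) (X : ℕ) :
    |({D : Ei | nr D ≤ X ∧ ClP D ∧ (R D ∧ T D)}.ncard : ℝ) - (Gt F G X : ℝ)| ≤ 1 := by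
  obtain ⟨T', hT'⟩ : ∃ T' : Ei → Prop, ∀ D, T' D ↔ (D = 1 ∧ G ∅ ∅) ∨ (D ≠ 1 ∧ T D) :=
    ⟨_, fun _ => Iff.rfl⟩
  have h1 : {D : Ei | nr D ≤ X ∧ ClP D ∧ (R D ∧ T' D)}.ncard = Gt F G X := by
    refine (card_eq X (fun M S => F M S ∧ G M S) (fun D => R D ∧ T' D) fun M S hMS => ?_).trans
      (Finset.sum_congr rfl fun M _ => Pool.Agent.XLK.fcc fun _ _ => Iff.rfl)
    rw [hR M S hMS]
    refine and_congr_right fun hF => ?_
    rw [hT']
    rcases S.eq_empty_or_nonempty with rfl | hne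
    · have hM : M = ∅ := Finset.subset_empty.1 hMS.2
      subst hM
      have hel : el ∅ ∅ = 1 := by
        unfold el
        simp
      rw [hel]
      constructor
      · rintro (⟨-, h⟩ | ⟨h, -⟩)
        · exact h
        · exact absurd rfl h
      · exact fun h => Or.inl ⟨rfl, h⟩
    · have hne1 := el_ne_one hMS hne
      rw [← hT M S hMS hne hF]
      constructor
      · rintro (⟨h, -⟩ | ⟨-, h⟩)
        · exact absurd h hne1
        · exact h
      · exact fun h => Or.inr ⟨hne1, h⟩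
  have hfin : ∀ A : Ei → Prop, {D : Ei | nr D ≤ X ∧ ClP D ∧ (R D ∧ A D)}.Finite :=
    fun A => (fin_nr X).subset fun D hD => hD.1
  have hle : ∀ A B : Ei → Prop, (∀ D, D ≠ 1 → (A D ↔ B D)) →
      {D : Ei | nr D ≤ X ∧ ClP D ∧ (R D ∧ A D)}.ncard ≤
        {D : Ei | nr D ≤ X ∧ ClP D ∧ (R D ∧ B D)}.ncard + 1 := by
    intro A B hAB
    refine (Set.ncard_le_ncard (t := insert 1 {D : Ei | nr D ≤ X ∧ ClP D ∧ (R D ∧ B D)}) ?_
      ((hfin B).insert 1)).trans (Set.ncard_insert_le _ _)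
    rintro D ⟨h1, h2, h3, h4⟩
    by_cases hD : D = 1
    · exact Or.inl hD
    · exact Or.inr ⟨h1, h2, h3, (hAB D hD).1 h4⟩
  have hTT : ∀ D, D ≠ 1 → (T D ↔ T' D) := by
    intro D hD
    rw [hT']
    constructor
    · exact fun h => Or.inr ⟨hD, h⟩
    · rintro (⟨h, -⟩ | ⟨-, h⟩)
      · exact absurd h hD
      · exact h
  have h2 := hle T T' hTT
  have h3 := hle T' T fun D hD => (hTT D hD).symm
  rw [h1] at h2 h3
  have h4 : ({D : Ei | nr D ≤ X ∧ ClP D ∧ (R D ∧ T D)}.ncard : ℝ) ≤ (Gt F G X : ℝ) + 1 := by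
    exact_mod_cast h2
  have h5 : (Gt F G X : ℝ) ≤ ({D : Ei | nr D ≤ X ∧ ClP D ∧ (R D ∧ T D)}.ncard : ℝ) + 1 := by
    exact_mod_cast h3
  rw [abs_le]
  exact ⟨by linarith, by linarith⟩

/-- **The proportion of the elements.** -/
theorem lim_elt {F G : Finset Ei → Finset Ei → Prop} {c ρ : ℝ} (hE : Err F G c) (R T : Ei → Prop)
    (hR : ∀ M S : Finset Ei, ClU M S → (R (el M S) ↔ F M S))
    (hT : ∀ M S : Finset Ei, ClU M S → S.Nonempty → F M S → (T (el M S) ↔ G M S))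
    (hρ : Tendsto (fun X : ℕ => ({D : Ei | nr D ≤ X ∧ ClP D ∧ R D}.ncard : ℝ) / (PP X : ℝ))
      atTop (nhds ρ)) :
    Tendsto (fun X : ℕ => ({D : Ei | nr D ≤ X ∧ ClP D ∧ (R D ∧ T D)}.ncard : ℝ) / (PP X : ℝ))
      atTop (nhds (c * ρ)) := by
  obtain ⟨c₀, hc₀, X₀, hlow⟩ := many
  have hN : ∀ X : ℕ, {D : Ei | nr D ≤ X ∧ ClP D ∧ R D}.ncard = N0 F X := fun X =>
    (card_eq X F R hR).trans
      (Finset.sum_congr rfl fun M _ => Pool.Agent.XLK.fcc fun _ _ => Iff.rfl)
  have h1 : Tendsto (fun X : ℕ => (({D : Ei | nr D ≤ X ∧ ClP D ∧ (R D ∧ T D)}.ncard : ℝ) -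
      c * ({D : Ei | nr D ≤ X ∧ ClP D ∧ R D}.ncard : ℝ)) / (PP X : ℝ)) atTop (nhds 0) := by
    rw [Metric.tendsto_nhds]
    intro ε hε
    obtain ⟨X₁, hX₁⟩ := exists_nat_gt (4 / (c₀ * ε))
    filter_upwards [hE (c₀ * ε / 4) (by positivity), eventually_ge_atTop (max X₀ 1),
      eventually_ge_atTop X₁] with X hX hX0 hXX
    have hlo := hlow X ((le_max_left _ _).trans hX0)
    have hX1 : (0 : ℝ) < X := by exact_mod_cast (le_max_right _ _).trans hX0
    have hlo' : c₀ * X ≤ (PP X : ℝ) := hlo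
    have hP : (0 : ℝ) < PP X := lt_of_lt_of_le (by positivity) hlo'
    have hcnt := elt_count R T hR hT X
    rw [Real.dist_eq, sub_zero, abs_div, abs_of_pos hP, div_lt_iff₀ hP, hN]
    have h2 : |({D : Ei | nr D ≤ X ∧ ClP D ∧ (R D ∧ T D)}.ncard : ℝ) - c * (N0 F X : ℝ)| ≤
        1 + c₀ * ε / 4 * X := by
      have h3 : ({D : Ei | nr D ≤ X ∧ ClP D ∧ (R D ∧ T D)}.ncard : ℝ) - c * (N0 F X : ℝ) =
          (({D : Ei | nr D ≤ X ∧ ClP D ∧ (R D ∧ T D)}.ncard : ℝ) - (Gt F G X : ℝ)) +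
            ((Gt F G X : ℝ) - c * (N0 F X : ℝ)) := by ring
      rw [h3]
      exact (abs_add_le _ _).trans (add_le_add hcnt hX)
    have hbig : (1 : ℝ) ≤ c₀ * ε / 4 * X := by
      have h5 : 4 / (c₀ * ε) < (X : ℝ) := hX₁.trans_le (by exact_mod_cast hXX)
      have hce : 0 < c₀ * ε := by positivity
      rw [div_lt_iff₀ hce] at h5
      linarith
    calc _ ≤ 1 + c₀ * ε / 4 * X := h2
      _ ≤ ε / 2 * (c₀ * X) := by linarith
      _ ≤ ε / 2 * (PP X : ℝ) := by gcongr
      _ < ε * (PP X : ℝ) := by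
        apply mul_lt_mul_of_pos_right _ hP
        linarith
  have h2 := h1.add (hρ.const_mul c)
  rw [zero_add] at h2
  refine h2.congr fun X => ?_
  ring

/-- all the elements -/
theorem lim_elt_all {G : Finset Ei → Finset Ei → Prop} {c : ℝ} (hE : Err Ft G c) (T : Ei → Prop)
    (hT : ∀ M S : Finset Ei, ClU M S → S.Nonempty → (T (el M S) ↔ G M S)) :
    Tendsto (fun X : ℕ => ({D : Ei | nr D ≤ X ∧ ClP D ∧ T D}.ncard : ℝ) / (PP X : ℝ))
      atTop (nhds c) := by
  have h := lim_elt (ρ := 1) hE (fun _ => True) T (fun _ _ _ => Iff.rfl)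
    (fun M S h1 h2 _ => hT M S h1 h2) (by
      simp only [and_true]
      have h1 : ∀ᶠ X : ℕ in atTop, (1 : ℝ) = ({D : Ei | nr D ≤ X ∧ ClP D}.ncard : ℝ) /
          (PP X : ℝ) := by
        filter_upwards [(Pool.Agent.D0H69.L3K.top).eventually_gt_atTop 0] with X hX
        exact (div_self hX.ne').symm
      exact tendsto_const_nhds.congr' h1)
  simp only [true_and, mul_one] at h
  exact h

end Pool.Agent.D0H50.JL
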